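import Mathlib
import Pool.Agent.H.MP_dd1c2e_lc.alt.D

/-!
# The log-equivalence conjecture is false: common definitions

`av` average over a finite type, `sg` sign of a bit, `SumProd` sums of weighted rectangles, `Had` the properties of the
matrix, `xi` the increments, `pw` product weights, `Ht` the multilinear extension of a communication problem with an XOR
gadget, `it` the iterated one step operator, `LF` the lookup function.
-/

namespace Pool.Agent.H.MP_dd1c2e_lc.Neg

open Finset

noncomputable section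

/-- Average over a finite type. -/
def av {α : Type} [Fintype α] (f : α → ℝ) : ℝ := (∑ x, f x) / (Fintype.card α : ℝ)

/-- Sign of a bit. -/
def sg (b : Bool) : ℝ := if b then -1 else 1

/-- `C` is a sum of `n` weighted rectangles `f l a * g l b` with weights in `[0, 1]` whose total is at most `1` everywhere. -/
def SumProd (A B : Type) (n : ℕ) (C : A → B → ℝ) : Prop :=
  ∃ (f : Fin n → A → ℝ) (g : Fin n → B → ℝ),
    (∀ l a, 0 ≤ f l a ∧ f l a ≤ 1) ∧ (∀ l b, 0 ≤ g l b ∧ g l b ≤ 1) ∧
    (∀ a b, ∑ l, f l a * g l b ≤ 1) ∧ ∀ a b, C a b = ∑ l, f l a * g l b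

/-- `H` is an orthogonal matrix all whose entries have the same absolute value `1 / √(card I)`. -/
structure Had (I : Type) [Fintype I] [DecidableEq I] (H : I → I → ℝ) : Prop where
  row : ∀ j j', ∑ i, H j i * H j' i = if j = j' then 1 else 0
  col : ∀ i i', ∑ j, H j i * H j i' = if i = i' then 1 else 0
  sq : ∀ j i, H j i ^ 2 = 1 / (Fintype.card I : ℝ)

/-- The increment `(u, H u)` of the walk. -/
def xi {I : Type} [Fintype I] (H : I → I → ℝ) (u : I → Bool) : I ⊕ I → ℝ :=
  Sum.elim (fun i => sg (u i)) (fun j => ∑ i, H j i * sg (u i))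

/-- The weight of `z` under the product distribution on signs with mean vector `v`. -/
def pw {S : Type} [Fintype S] (v : S → ℝ) (z : S → Bool) : ℝ := ∏ s, (1 + v s * sg (z s)) / 2

/-- `x` uniform, `z` with the product distribution of mean `v`, and `y = x xor z`: the expectation of `C x y`. -/
def Ht {S : Type} [Fintype S] [DecidableEq S] (C : (S → Bool) → (S → Bool) → ℝ) (v : S → ℝ) : ℝ :=
  ∑ z : S → Bool, pw v z * av (fun x : S → Bool => C x (fun s => xor (x s) (z s)))

/-- One step of the walk from `v`. -/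
def stp {I : Type} [Fintype I] (H : I → I → ℝ) (δ : ℝ) (v : I ⊕ I → ℝ) (u : I → Bool) : I ⊕ I → ℝ :=
  fun s => v s + δ * (1 - v s ^ 2) * xi H u s

/-- The expectation of `Φ` after `t` steps of the walk started at `v`. -/
def it {I : Type} [Fintype I] [DecidableEq I] (H : I → I → ℝ) (δ : ℝ) :
    ℕ → ((I ⊕ I → ℝ) → ℝ) → (I ⊕ I → ℝ) → ℝ
  | 0, Φ, v => Φ v
  | t + 1, Φ, v => av (fun u : I → Bool => it H δ t Φ (stp H δ v u))

/-- The law of the signs after `t` steps started at `0`. -/
def d1 {I : Type} [Fintype I] [DecidableEq I] (H : I → I → ℝ) (δ : ℝ) (t : ℕ) (z : I ⊕ I → Bool) : ℝ :=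
  it H δ t (fun v => pw v z) 0

/-- The forrelation of a real vector. -/
def forr {I : Type} [Fintype I] (H : I → I → ℝ) (v : I ⊕ I → ℝ) : ℝ :=
  (∑ j, ∑ i, H j i * v (Sum.inl i) * v (Sum.inr j)) / (Fintype.card I : ℝ)

/-- The forrelation of the pair of inputs `x`, `y`. -/
def forrB {I : Type} [Fintype I] (H : I → I → ℝ) (x y : I ⊕ I → Bool) : ℝ :=
  forr H (fun s => sg (x s) * sg (y s))

/-- The lookup function: the answer is `true` iff some cell `j` holds (as a sum of the shares of the two parties) the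
certificate `cert a b`, and the address of the base input is `j`. -/
def LF {A B J Γ : Type} [Add Γ] (cert : A → B → Γ) (Pd : J → A → B → Prop) :
    A × (J → Γ) → B × (J → Γ) → Bool := by
  classical
  exact fun x y => decide (∃ j, x.2 j + y.2 j = cert x.1 y.1 ∧ Pd j x.1 y.1)

/-- As `Reach`, but the parties start without any shared state (trivial registers). -/
inductive Reach0 (X Y : Type) : ℕ → (A : Type) → [Fintype A] → (B : Type) → [Fintype B] →
    (X → Y → A → B → ℂ) → Prop
  | start : Reach0 X Y 0 Unit Unit (fun _ _ _ _ => 1)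
  | alice {q : ℕ} {A : Type} [Fintype A] {B : Type} [Fintype B] {ψ : X → Y → A → B → ℂ} (A' : Type) [Fintype A']
      (V : X → A' × Bool → A → ℂ) (hV : ∀ x, IsIsometry (V x)) (h : Reach0 X Y q A B ψ) :
      Reach0 X Y (q + 1) A' (Bool × B) (aliceSend V ψ)
  | bob {q : ℕ} {A : Type} [Fintype A] {B : Type} [Fintype B] {ψ : X → Y → A → B → ℂ} (B' : Type) [Fintype B']
      (W : Y → B' × Bool → B → ℂ) (hW : ∀ y, IsIsometry (W y)) (h : Reach0 X Y q A B ψ) :
      Reach0 X Y (q + 1) (Bool × A) B' (bobSend W ψ)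

/-- `F` is computed with error at most `1/3` on every input by a quantum protocol WITHOUT prior entanglement in which `q`
qubits are exchanged, `Q(F) ≤ q`. -/
def QuantumComputes0 {X Y : Type} (F : X → Y → Bool) (q : ℕ) : Prop :=
  ∃ (A : Type) (_ : Fintype A) (B : Type) (_ : Fintype B) (ψ : X → Y → A → B → ℂ), Reach0 X Y q A B ψ ∧
    ((∃ (A' : Type) (_ : Fintype A') (V : X → A' × Bool → A → ℂ), (∀ x, IsIsometry (V x)) ∧
        ∀ x y, 2 / 3 ≤ ∑ a', ∑ b, ‖aliceSend V ψ x y a' (F x y, b)‖ ^ 2) ∨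
      (∃ (B' : Type) (_ : Fintype B') (W : Y → B' × Bool → B → ℂ), (∀ y, IsIsometry (W y)) ∧
        ∀ x y, 2 / 3 ≤ ∑ b', ∑ a, ‖bobSend W ψ x y (F x y, a) b'‖ ^ 2))

end

end Pool.Agent.H.MP_dd1c2e_lc.Neg
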