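import Mathlib
import Pool.Agent.H.MP_dd1c2e_lc.neg.Base

/-!
# Chebyshev for products
-/

namespace Pool.Agent.H.MP_dd1c2e_lc.Neg

open Finset

noncomputable section

theorem cheb_sum_prod {K Z : Type} [Fintype K] [DecidableEq K] [Fintype Z] [DecidableEq Z] (g : K → Z → ℝ) :
    ∑ z : K → Z, ∏ k, g k (z k) = ∏ k, ∑ a, g k a := by
  have h := Finset.prod_univ_sum (fun _ : K => (Finset.univ : Finset Z)) g
  rw [Fintype.piFinset_univ] at h
  exact h.symm

theorem cheb_two {K Z : Type} [Fintype K] [DecidableEq K] [Fintype Z] [DecidableEq Z] (w : K → Z → ℝ)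
    (hs : ∀ k, ∑ z, w k z = 1) (g : K → Z → ℝ) (hg : ∀ k, ∑ z, w k z * g k z = 0) (a b : K) :
    ∑ z : K → Z, (∏ k, w k (z k)) * (g a (z a) * g b (z b)) = if a = b then ∑ z, w a z * g a z ^ 2 else 0 := by
  have h1 : ∀ z : K → Z, (∏ k, w k (z k)) * (g a (z a) * g b (z b)) =
      ∏ s, (w s (z s) * ((if s = a then g s (z s) else 1) * (if s = b then g s (z s) else 1))) := by
    intro z
    rw [Finset.prod_mul_distrib, Finset.prod_mul_distrib, Finset.prod_ite_eq' univ a (fun s => g s (z s)),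
      Finset.prod_ite_eq' univ b (fun s => g s (z s))]
    simp
  rw [Finset.sum_congr rfl fun z _ => h1 z,
    cheb_sum_prod (fun s c => w s c * ((if s = a then g s c else 1) * (if s = b then g s c else 1)))]
  by_cases hab : a = b
  · subst hab
    rw [if_pos rfl, Finset.prod_eq_single a]
    · refine Finset.sum_congr rfl fun z _ => ?_
      simp only [if_true]
      ring
    · intro s _ hsa
      simp only [if_neg hsa, mul_one]
      exact hs s
    · intro h
      exact absurd (Finset.mem_univ a) h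
  · rw [if_neg hab]
    refine Finset.prod_eq_zero (Finset.mem_univ a) ?_
    simp only [if_true, if_neg hab, mul_one]
    exact hg a

theorem cheb {K Z : Type} [Fintype K] [DecidableEq K] [Fintype Z] [DecidableEq Z] (w : K → Z → ℝ)
    (hw : ∀ k z, 0 ≤ w k z) (hs : ∀ k, ∑ z, w k z = 1) (h : K → Z → ℝ) (V : ℝ) (hV : ∑ k, ∑ z, w k z * h k z ^ 2 ≤ V)
    (t : ℝ) (ht : 0 < t) (E : (K → Z) → ℝ) (hE0 : ∀ z, E z ≤ 1)
    (hE : ∀ z : K → Z, |∑ k, h k (z k) - ∑ k, ∑ z', w k z' * h k z'| < t → E z ≤ 0) :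
    ∑ z : K → Z, (∏ k, w k (z k)) * E z ≤ V / t ^ 2 := by
  set m : K → ℝ := fun k => ∑ z', w k z' * h k z' with hm
  set g : K → Z → ℝ := fun k z => h k z - m k with hg
  have hg0 : ∀ k, ∑ z, w k z * g k z = 0 := by
    intro k
    simp only [hg, mul_sub, Finset.sum_sub_distrib, ← Finset.sum_mul, hs k, one_mul]
    simp [hm]
  have hg2 : ∀ k, ∑ z, w k z * g k z ^ 2 ≤ ∑ z, w k z * h k z ^ 2 := by
    intro k
    have h1 : ∑ z, w k z * g k z ^ 2 = ∑ z, w k z * h k z ^ 2 - m k ^ 2 := by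
      have h2 : ∀ z, w k z * g k z ^ 2 = w k z * h k z ^ 2 - 2 * m k * (w k z * h k z) + m k ^ 2 * w k z := by
        intro z
        simp only [hg]
        ring
      rw [Finset.sum_congr rfl fun z _ => h2 z, Finset.sum_add_distrib, Finset.sum_sub_distrib, ← Finset.mul_sum,
        ← Finset.mul_sum, hs k]
      simp only [hm]
      ring
    rw [h1]
    linarith [sq_nonneg (m k)]
  have hEb : ∀ z : K → Z, E z ≤ (∑ k, g k (z k)) ^ 2 / t ^ 2 := by
    intro z
    have hsum : ∑ k, g k (z k) = ∑ k, h k (z k) - ∑ k, ∑ z', w k z' * h k z' := by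
      simp only [hg, Finset.sum_sub_distrib, hm]
    by_cases hc : |∑ k, h k (z k) - ∑ k, ∑ z', w k z' * h k z'| < t
    · exact (hE z hc).trans (by positivity)
    · refine (hE0 z).trans ?_
      rw [hsum, le_div_iff₀ (by positivity), one_mul, ← sq_abs (∑ k, h k (z k) - _)]
      exact pow_le_pow_left₀ ht.le (not_lt.mp hc) 2
  have hsec : ∑ z : K → Z, (∏ k, w k (z k)) * (∑ k, g k (z k)) ^ 2 = ∑ k, ∑ z, w k z * g k z ^ 2 := by
    have h1 : ∀ z : K → Z, (∏ k, w k (z k)) * (∑ k, g k (z k)) ^ 2 =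
        ∑ a, ∑ b, (∏ k, w k (z k)) * (g a (z a) * g b (z b)) := by
      intro z
      rw [sq, Finset.sum_mul_sum, Finset.mul_sum]
      exact Finset.sum_congr rfl fun a _ => by rw [Finset.mul_sum]
    rw [Finset.sum_congr rfl fun z _ => h1 z, Finset.sum_comm]
    refine Finset.sum_congr rfl fun a _ => ?_
    rw [Finset.sum_comm]
    simp only [cheb_two w hs g hg0]
    simp
  calc ∑ z : K → Z, (∏ k, w k (z k)) * E z
      ≤ ∑ z : K → Z, (∏ k, w k (z k)) * ((∑ k, g k (z k)) ^ 2 / t ^ 2) :=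
        Finset.sum_le_sum fun z _ => mul_le_mul_of_nonneg_left (hEb z) (Finset.prod_nonneg fun k _ => hw k (z k))
    _ = (∑ z : K → Z, (∏ k, w k (z k)) * (∑ k, g k (z k)) ^ 2) / t ^ 2 := by
        rw [Finset.sum_div]
        exact Finset.sum_congr rfl fun z _ => by ring
    _ = (∑ k, ∑ z, w k z * g k z ^ 2) / t ^ 2 := by rw [hsec]
    _ ≤ V / t ^ 2 := by
        refine div_le_div_of_nonneg_right ?_ (by positivity)
        exact (Finset.sum_le_sum fun k _ => hg2 k).trans hV

end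

end Pool.Agent.H.MP_dd1c2e_lc.Neg
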