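import Pool.Agent.H.MP_dd1c2e_lc.neg.CertD

/-!
# The Hadamard matrix and the block sums (modules 11 and `bsum_forr`)
-/

namespace Pool.Agent.H.MP_dd1c2e_lc.Neg

open Finset

noncomputable section

theorem hs_abs {a : ℕ} (j i : Fin a → Bool) : |hs j i| = 1 := by
  unfold hs
  rw [Finset.abs_prod]
  refine Finset.prod_eq_one fun t _ => ?_
  split_ifs <;> simp

lemma hdm_symm {a : ℕ} (j i : Fin a → Bool) : hs j i = hs i j := by
  unfold hs
  refine Finset.prod_congr rfl fun t _ => ?_
  rw [Bool.and_comm]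

lemma hdm_row {a : ℕ} (j j' : Fin a → Bool) :
    ∑ i, hs j i * hs j' i = if j = j' then (2 : ℤ) ^ a else 0 := by
  have h1 : ∀ i : Fin a → Bool, hs j i * hs j' i =
      ∏ t, ((if (j t && i t) then (-1 : ℤ) else 1) * (if (j' t && i t) then -1 else 1)) := by
    intro i
    unfold hs
    rw [← Finset.prod_mul_distrib]
  rw [Finset.sum_congr rfl fun i _ => h1 i]
  have h2 : ∑ i : Fin a → Bool, ∏ t, ((if (j t && i t) then (-1 : ℤ) else 1) * (if (j' t && i t) then -1 else 1)) =
      ∏ t, ∑ b : Bool, ((if (j t && b) then (-1 : ℤ) else 1) * (if (j' t && b) then -1 else 1)) := by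
    rw [Finset.prod_univ_sum, Fintype.piFinset_univ]
  rw [h2]
  by_cases h : j = j'
  · subst h
    rw [if_pos rfl]
    have h3 : ∀ t, ∑ b : Bool, ((if (j t && b) then (-1 : ℤ) else 1) * (if (j t && b) then -1 else 1)) = 2 := by
      intro t
      rw [Fintype.sum_bool]
      cases j t <;> simp
    rw [Finset.prod_congr rfl fun t _ => h3 t]
    simp
  · rw [if_neg h]
    obtain ⟨t, ht⟩ := Function.ne_iff.1 h
    refine Finset.prod_eq_zero (Finset.mem_univ t) ?_
    rw [Fintype.sum_bool]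
    cases hj : j t <;> cases hj' : j' t <;> simp_all

theorem had_hs (a : ℕ) : Had (Fin a → Bool) (fun j i => (hs j i : ℝ) / Real.sqrt (2 ^ a)) := by
  have hs2 : Real.sqrt (2 ^ a) * Real.sqrt (2 ^ a) = 2 ^ a := Real.mul_self_sqrt (by positivity)
  have hrow : ∀ j j' : Fin a → Bool, ∑ i, (hs j i : ℝ) / Real.sqrt (2 ^ a) * ((hs j' i : ℝ) / Real.sqrt (2 ^ a)) =
      if j = j' then 1 else 0 := by
    intro j j'
    have h1 : ∀ i : Fin a → Bool, (hs j i : ℝ) / Real.sqrt (2 ^ a) * ((hs j' i : ℝ) / Real.sqrt (2 ^ a)) =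
        ((hs j i * hs j' i : ℤ) : ℝ) / 2 ^ a := by
      intro i
      rw [div_mul_div_comm, hs2]
      push_cast
      rfl
    rw [Finset.sum_congr rfl fun i _ => h1 i, ← Finset.sum_div, ← Int.cast_sum, hdm_row]
    split_ifs
    · push_cast
      exact div_self (by positivity)
    · simp
  refine ⟨hrow, ?_, ?_⟩
  · intro i i'
    rw [← hrow i i']
    refine Finset.sum_congr rfl fun j _ => ?_
    rw [hdm_symm j i, hdm_symm j i']
  · intro j i
    have h1 : (hs j i : ℝ) ^ 2 = 1 := by
      have : |(hs j i : ℝ)| = 1 := by exact_mod_cast hs_abs j i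
      rw [← sq_abs, this, one_pow]
    rw [div_pow, h1, Real.sq_sqrt (by positivity)]
    simp

lemma hdm_sz (b : Bool) : ((sz b : ℤ) : ℝ) = sg b := by
  unfold sz sg
  cases b <;> simp

/-- the block sums are the sums of the forrelations -/
theorem bsum_forr {c k : ℕ} {I : Type} [Fintype I] [Nonempty I] [DecidableEq I] (hs : I → I → ℤ)
    (x y : Fin c × Fin k → I ⊕ I → Bool) (i : Fin c) :
    (bsum hs x y i : ℝ) = (Fintype.card I : ℝ) * Real.sqrt (Fintype.card I) *
      ∑ t : Fin k, forrB (fun j i => (hs j i : ℝ) / Real.sqrt (Fintype.card I)) (x (i, t)) (y (i, t)) := by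
  have hN : (0 : ℝ) < Fintype.card I := by exact_mod_cast Fintype.card_pos
  have hs0 : Real.sqrt (Fintype.card I) ≠ 0 := (Real.sqrt_pos.2 hN).ne'
  unfold bsum forrB forr
  push_cast
  rw [Finset.mul_sum]
  refine Finset.sum_congr rfl fun t _ => ?_
  rw [mul_div_assoc', mul_comm (Fintype.card I : ℝ), mul_assoc, mul_div_assoc, mul_div_cancel_left₀ _ hN.ne',
    Finset.mul_sum, Finset.sum_comm]
  refine Finset.sum_congr rfl fun j' _ => ?_
  rw [Finset.mul_sum]
  refine Finset.sum_congr rfl fun i' _ => ?_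
  unfold vec
  push_cast
  simp only [hdm_sz]
  field_simp

end

end Pool.Agent.H.MP_dd1c2e_lc.Neg
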