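import Mathlib
import Pool.Agent.H.MP_dd1c2e_lc.neg.Base

/-!
# LOGEQ, module 6: hybrid over the copies (helper91)
-/

namespace Pool.Agent.H.MP_dd1c2e_lc.Neg

open Finset

noncomputable section

/-- Insert the value `a0` at the coordinate `k0`. -/
def hyb_glue {K A : Type} [DecidableEq K] (k0 : K) (a0 : A) (a' : {j : K // j ≠ k0} → A) : K → A :=
  fun k => if h : k = k0 then a0 else a' ⟨k, h⟩

theorem hyb_glue_self {K A : Type} [DecidableEq K] (k0 : K) (a0 : A) (a' : {j : K // j ≠ k0} → A) :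
    hyb_glue k0 a0 a' k0 = a0 := by
  simp [hyb_glue]

theorem hyb_glue_ne {K A : Type} [DecidableEq K] (k0 : K) (a0 : A) (a' : {j : K // j ≠ k0} → A)
    (k : {j : K // j ≠ k0}) : hyb_glue k0 a0 a' k = a' k := by
  simp [hyb_glue, k.2]

theorem hyb_sum {K A : Type} [Fintype K] [DecidableEq K] [Fintype A] (k0 : K) (F : (K → A) → ℝ) :
    ∑ a, F a = ∑ a' : {j : K // j ≠ k0} → A, ∑ a0 : A, F (hyb_glue k0 a0 a') := by
  rw [sum_comm, ← Fintype.sum_prod_type' (f := fun (a0 : A) (a' : {j : K // j ≠ k0} → A) =>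
    F (hyb_glue k0 a0 a'))]
  refine Fintype.sum_equiv (Equiv.piSplitAt k0 (fun _ => A)) _ _ fun a => ?_
  congr 1
  funext k
  by_cases h : k = k0
  · subst h
    simp [hyb_glue]
  · simp [hyb_glue, h]

/-- The sum over a product law. -/
theorem hyb_sum_prod {K A B : Type} [Fintype K] [DecidableEq K] [Fintype A] [Fintype B]
    (W : K → A → B → ℝ) :
    ∑ a : K → A, ∑ b : K → B, ∏ k, W k (a k) (b k) = ∏ k, ∑ a, ∑ b, W k a b := by
  have h1 : ∀ a : K → A, ∑ b : K → B, ∏ k, W k (a k) (b k) = ∏ k, ∑ b, W k (a k) b := by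
    intro a
    rw [Finset.prod_univ_sum, Fintype.piFinset_univ]
  simp only [h1]
  rw [Finset.prod_univ_sum, Fintype.piFinset_univ]

/-- A sum over a product law, with one coordinate separated. -/
theorem hyb_sum_split {K A B : Type} [Fintype K] [DecidableEq K] [Fintype A] [Fintype B]
    (W : K → A → B → ℝ) (C : (K → A) → (K → B) → ℝ) (k0 : K) :
    ∑ a : K → A, ∑ b : K → B, (∏ k, W k (a k) (b k)) * C a b =
      ∑ a' : {j : K // j ≠ k0} → A, ∑ b' : {j : K // j ≠ k0} → B,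
        (∏ k : {j : K // j ≠ k0}, W k (a' k) (b' k)) *
          ∑ a0, ∑ b0, W k0 a0 b0 * C (hyb_glue k0 a0 a') (hyb_glue k0 b0 b') := by
  rw [hyb_sum k0]
  refine sum_congr rfl fun a' _ => ?_
  have h1 : ∀ a0 : A, ∑ b : K → B, (∏ k, W k (hyb_glue k0 a0 a' k) (b k)) * C (hyb_glue k0 a0 a') b =
      ∑ b' : {j : K // j ≠ k0} → B, ∑ b0 : B, (∏ k : {j : K // j ≠ k0}, W k (a' k) (b' k)) *
        (W k0 a0 b0 * C (hyb_glue k0 a0 a') (hyb_glue k0 b0 b')) := by
    intro a0
    rw [hyb_sum k0]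
    refine sum_congr rfl fun b' _ => sum_congr rfl fun b0 _ => ?_
    rw [Fintype.prod_eq_mul_prod_subtype_ne _ k0]
    simp only [hyb_glue_self, hyb_glue_ne]
    ring
  simp only [h1]
  rw [sum_comm]
  refine sum_congr rfl fun b' _ => ?_
  rw [mul_sum]
  refine sum_congr rfl fun a0 _ => ?_
  rw [mul_sum]

/-- Slices of a sum of weighted rectangles. -/
theorem hyb_slice {K A B : Type} [DecidableEq K] {n : ℕ} {C : (K → A) → (K → B) → ℝ}
    (hC : SumProd (K → A) (K → B) n C) (k0 : K) (a' : {j : K // j ≠ k0} → A)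
    (b' : {j : K // j ≠ k0} → B) :
    SumProd A B n fun a0 b0 => C (hyb_glue k0 a0 a') (hyb_glue k0 b0 b') := by
  obtain ⟨f, g, hf, hg, hs, hfg⟩ := hC
  exact ⟨fun l a0 => f l (hyb_glue k0 a0 a'), fun l b0 => g l (hyb_glue k0 b0 b'),
    fun l a => hf l _, fun l b => hg l _, fun a b => hs _ _, fun a b => hfg _ _⟩

/-- One copy is replaced. -/
theorem hyb_one {K A B : Type} [Fintype K] [DecidableEq K] [Fintype A] [Fintype B] (n : ℕ)
    (w1 w0 : A → B → ℝ) (ε : ℝ)
    (hε : ∀ C : A → B → ℝ, SumProd A B n C →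
      |∑ a, ∑ b, w1 a b * C a b - ∑ a, ∑ b, w0 a b * C a b| ≤ ε)
    (W W' : K → A → B → ℝ) (k0 : K) (hW : ∀ k, k ≠ k0 → W k = W' k) (h1 : W k0 = w1)
    (h0 : W' k0 = w0) (hp : ∀ k a b, k ≠ k0 → 0 ≤ W k a b) (hs : ∀ k, k ≠ k0 → ∑ a, ∑ b, W k a b = 1)
    (C : (K → A) → (K → B) → ℝ) (hC : SumProd (K → A) (K → B) n C) :
    |∑ a : K → A, ∑ b : K → B, (∏ k, W k (a k) (b k)) * C a b -
      ∑ a : K → A, ∑ b : K → B, (∏ k, W' k (a k) (b k)) * C a b| ≤ ε := by
  rw [hyb_sum_split W C k0, hyb_sum_split W' C k0, ← sum_sub_distrib]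
  have hR : ∀ (a' : {j : K // j ≠ k0} → A) (b' : {j : K // j ≠ k0} → B),
      ∏ k : {j : K // j ≠ k0}, W' k (a' k) (b' k) = ∏ k : {j : K // j ≠ k0}, W k (a' k) (b' k) := by
    intro a' b'
    refine prod_congr rfl fun k _ => ?_
    rw [hW k k.2]
  have hR0 : ∀ (a' : {j : K // j ≠ k0} → A) (b' : {j : K // j ≠ k0} → B),
      0 ≤ ∏ k : {j : K // j ≠ k0}, W k (a' k) (b' k) := by
    intro a' b'
    exact prod_nonneg fun k _ => hp k _ _ k.2
  have h2 : ∀ a' : {j : K // j ≠ k0} → A,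
      |(∑ b' : {j : K // j ≠ k0} → B, (∏ k : {j : K // j ≠ k0}, W k (a' k) (b' k)) *
          ∑ a0, ∑ b0, W k0 a0 b0 * C (hyb_glue k0 a0 a') (hyb_glue k0 b0 b')) -
        ∑ b' : {j : K // j ≠ k0} → B, (∏ k : {j : K // j ≠ k0}, W' k (a' k) (b' k)) *
          ∑ a0, ∑ b0, W' k0 a0 b0 * C (hyb_glue k0 a0 a') (hyb_glue k0 b0 b')| ≤
      ∑ b' : {j : K // j ≠ k0} → B, (∏ k : {j : K // j ≠ k0}, W k (a' k) (b' k)) * ε := by
    intro a'
    rw [← sum_sub_distrib]
    refine (abs_sum_le_sum_abs _ _).trans (sum_le_sum fun b' _ => ?_)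
    rw [hR, ← mul_sub, abs_mul, abs_of_nonneg (hR0 a' b'), h1, h0]
    exact mul_le_mul_of_nonneg_left (hε _ (hyb_slice hC k0 a' b')) (hR0 a' b')
  refine (abs_sum_le_sum_abs _ _).trans ((sum_le_sum fun a' _ => h2 a').trans (le_of_eq ?_))
  have h3 : ∑ a' : {j : K // j ≠ k0} → A, ∑ b' : {j : K // j ≠ k0} → B,
      ∏ k : {j : K // j ≠ k0}, W k (a' k) (b' k) = 1 := by
    rw [hyb_sum_prod (fun (k : {j : K // j ≠ k0}) => W k)]
    exact prod_eq_one fun k _ => hs k k.2
  simp only [← sum_mul]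
  rw [h3, one_mul]

theorem hybrid {K A B : Type} [Fintype K] [DecidableEq K] [Fintype A] [Fintype B] (n : ℕ) (w1 w0 : A → B → ℝ)
    (h1 : ∀ a b, 0 ≤ w1 a b) (h0 : ∀ a b, 0 ≤ w0 a b) (s1 : ∑ a, ∑ b, w1 a b = 1) (s0 : ∑ a, ∑ b, w0 a b = 1) (ε : ℝ)
    (hε : ∀ C : A → B → ℝ, SumProd A B n C → |∑ a, ∑ b, w1 a b * C a b - ∑ a, ∑ b, w0 a b * C a b| ≤ ε)
    (l : K → Bool) (C : (K → A) → (K → B) → ℝ) (hC : SumProd (K → A) (K → B) n C) :
    |∑ a : K → A, ∑ b : K → B, (∏ k, (if l k then w1 else w0) (a k) (b k)) * C a b -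
      ∑ a : K → A, ∑ b : K → B, (∏ k, w0 (a k) (b k)) * C a b| ≤ Fintype.card K * ε := by
  classical
  have hε0 : 0 ≤ ε := by
    have h := hε (fun _ _ => 0) ⟨fun _ _ => 0, fun _ _ => 0, by simp, by simp, by simp, by simp⟩
    exact (abs_nonneg _).trans h
  -- replace the copies of `S`
  have key : ∀ S : Finset K,
      |∑ a : K → A, ∑ b : K → B, (∏ k, (if k ∈ S ∧ l k = true then w1 else w0) (a k) (b k)) * C a b -
        ∑ a : K → A, ∑ b : K → B, (∏ k, w0 (a k) (b k)) * C a b| ≤ S.card * ε := by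
    intro S
    induction S using Finset.induction_on with
    | empty => simp
    | insert k0 S hk ih =>
      rw [card_insert_of_notMem hk]
      push_cast
      by_cases hl : l k0 = true
      · have h2 := hyb_one n w1 w0 ε hε
          (fun k => if k ∈ insert k0 S ∧ l k = true then w1 else w0)
          (fun k => if k ∈ S ∧ l k = true then w1 else w0) k0 ?_ ?_ ?_ ?_ ?_ C hC
        · have h3 := abs_sub_le
            (∑ a : K → A, ∑ b : K → B,
              (∏ k, (if k ∈ insert k0 S ∧ l k = true then w1 else w0) (a k) (b k)) * C a b)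
            (∑ a : K → A, ∑ b : K → B, (∏ k, (if k ∈ S ∧ l k = true then w1 else w0) (a k) (b k)) * C a b)
            (∑ a : K → A, ∑ b : K → B, (∏ k, w0 (a k) (b k)) * C a b)
          calc _ ≤ _ := h3
            _ ≤ ε + S.card * ε := add_le_add h2 ih
            _ = (S.card + 1) * ε := by ring
        · intro k hk'
          simp [mem_insert, hk']
        · simp [hl]
        · simp [hk]
        · intro k a b _
          split_ifs
          · exact h1 a b
          · exact h0 a b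
        · intro k _
          split_ifs
          · exact s1
          · exact s0
      · have h4 : ∀ k, (k ∈ insert k0 S ∧ l k = true) ↔ (k ∈ S ∧ l k = true) := by
          intro k
          rw [mem_insert]
          constructor
          · rintro ⟨h | h, h'⟩
            · subst h
              exact absurd h' hl
            · exact ⟨h, h'⟩
          · rintro ⟨h, h'⟩
            exact ⟨Or.inr h, h'⟩
        simp only [h4]
        refine ih.trans ?_
        have : (S.card : ℝ) * ε ≤ (S.card + 1) * ε := by nlinarith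
        exact this
  have h5 := key univ
  simpa using h5

end

end Pool.Agent.H.MP_dd1c2e_lc.Neg
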