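import Pool.Agent.H.MP_dd1c2e_lc.neg.Base

/-! Module 7b: calculus of averages. -/

namespace Pool.Agent.H.MP_dd1c2e_lc.Neg

open Finset

noncomputable section

namespace LookB

variable {α β ι : Type} [Fintype α] [Fintype β]

theorem av_mono {f g : α → ℝ} (h : ∀ x, f x ≤ g x) : av f ≤ av g := by
  unfold av
  exact div_le_div_of_nonneg_right (sum_le_sum fun x _ => h x) (Nat.cast_nonneg _)

theorem av_nonneg {f : α → ℝ} (h : ∀ x, 0 ≤ f x) : 0 ≤ av f := by
  unfold av
  exact div_nonneg (sum_nonneg fun x _ => h x) (Nat.cast_nonneg _)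

theorem av_le {f : α → ℝ} {c : ℝ} (hc : 0 ≤ c) (h : ∀ x, f x ≤ c) : av f ≤ c := by
  unfold av
  refine div_le_of_le_mul₀ (Nat.cast_nonneg _) hc ?_
  calc ∑ x, f x ≤ ∑ _x : α, c := sum_le_sum fun x _ => h x
    _ = c * (Fintype.card α : ℝ) := by simp [mul_comm]

theorem av_const [Nonempty α] (c : ℝ) : av (fun _ : α => c) = c := by
  unfold av
  have h : (Fintype.card α : ℝ) ≠ 0 := Nat.cast_ne_zero.2 Fintype.card_ne_zero
  rw [sum_const, card_univ, nsmul_eq_mul]
  field_simp

theorem av_add (f g : α → ℝ) : av (fun x => f x + g x) = av f + av g := by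
  unfold av
  rw [sum_add_distrib, add_div]

theorem av_sub (f g : α → ℝ) : av (fun x => f x - g x) = av f - av g := by
  unfold av
  rw [sum_sub_distrib, sub_div]

theorem av_mul_left (c : ℝ) (f : α → ℝ) : av (fun x => c * f x) = c * av f := by
  unfold av
  rw [← mul_sum, mul_div_assoc]

theorem av_mul_right (c : ℝ) (f : α → ℝ) : av (fun x => f x * c) = av f * c := by
  unfold av
  rw [← sum_mul, div_mul_eq_mul_div]

theorem av_sum (s : Finset ι) (f : ι → α → ℝ) : av (fun x => ∑ i ∈ s, f i x) = ∑ i ∈ s, av (f i) := by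
  unfold av
  rw [sum_comm, sum_div]

theorem av_comm (f : α → β → ℝ) : av (fun x => av (f x)) = av (fun y => av (fun x => f x y)) := by
  unfold av
  rw [← sum_div, ← sum_div, sum_comm, div_right_comm]

theorem av_equiv (e : α ≃ β) (f : β → ℝ) : av (fun x => f (e x)) = av f := by
  unfold av
  rw [Equiv.sum_comp e f, Fintype.card_congr e]

theorem av_mul_av (f : α → ℝ) (g : β → ℝ) : av (fun x => av (fun y => f x * g y)) = av f * av g := by
  have h : ∀ x, av (fun y => f x * g y) = f x * av g := fun x => av_mul_left _ _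
  simp_rw [h]
  exact av_mul_right _ _

/-- averaging after resetting one coordinate -/
theorem av_update {J Γ : Type} [Fintype J] [DecidableEq J] [Fintype Γ] [Nonempty Γ] (j : J) (F : (J → Γ) → ℝ) :
    av (fun z : Γ => av fun u : J → Γ => F (Function.update u j z)) = av F := by
  unfold av
  have h0 : (Fintype.card Γ : ℝ) ≠ 0 := Nat.cast_ne_zero.2 Fintype.card_ne_zero
  rw [← sum_div, div_right_comm]
  congr 1
  rw [div_eq_iff h0]
  let e : Γ × (J → Γ) ≃ Γ × (J → Γ) :=
    { toFun := fun p => (p.2 j, Function.update p.2 j p.1)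
      invFun := fun p => (p.2 j, Function.update p.2 j p.1)
      left_inv := by
        rintro ⟨z, u⟩
        simp
      right_inv := by
        rintro ⟨z, u⟩
        simp }
  calc ∑ z : Γ, ∑ u : J → Γ, F (Function.update u j z)
      = ∑ p : Γ × (J → Γ), F (Function.update p.2 j p.1) := by
        rw [Fintype.sum_prod_type]
    _ = ∑ p : Γ × (J → Γ), F (e p).2 := rfl
    _ = ∑ p : Γ × (J → Γ), F p.2 := Equiv.sum_comp e (fun p => F p.2)
    _ = ∑ _z : Γ, ∑ u : J → Γ, F u := by rw [Fintype.sum_prod_type]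
    _ = (∑ u, F u) * (Fintype.card Γ : ℝ) := by
        rw [sum_const, card_univ, nsmul_eq_mul, mul_comm]

end LookB

end

end Pool.Agent.H.MP_dd1c2e_lc.Neg
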