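import Pool.Agent.H.MP_dd1c2e_lc.neg.LookA
import Pool.Agent.H.MP_dd1c2e_lc.neg.LookB
import Pool.Agent.H.MP_dd1c2e_lc.lx.Def

/-! Module 7: the lookup lower bound. -/

namespace Pool.Agent.H.MP_dd1c2e_lc.Neg

open Finset

noncomputable section

namespace Look

open LookB

section one

variable {J Γ : Type} [Fintype J] [DecidableEq J] [Fintype Γ]

theorem al_nonneg {f : (J → Γ) → ℝ} (h0 : ∀ u, 0 ≤ f u) (j : J) (z : Γ) : 0 ≤ al f j z :=
  av_nonneg fun _ => h0 _

theorem Df_nonneg (f : (J → Γ) → ℝ) (j : J) : 0 ≤ Df f j :=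
  av_nonneg fun _ => le_max_left _ _

theorem Df_le {f : (J → Γ) → ℝ} (h0 : ∀ u, 0 ≤ f u) (j : J) : Df f j ≤ av f := by
  refine av_le (av_nonneg h0) fun z => max_le (av_nonneg h0) ?_
  have := al_nonneg h0 j z
  linarith

variable [Nonempty Γ] [AddCommGroup Γ]

/-- (i): the effect of forcing the sum of the two shares in cell `j` to be `s`. -/
theorem pair {f g : (J → Γ) → ℝ} (hf : ∀ u, 0 ≤ f u) (hg : ∀ u, 0 ≤ g u) (j : J) (s : Γ) :
    av f * av g - Df f j * av g - av f * Df g j ≤
      av fun u : J → Γ => av fun v : J → Γ => f u * g (Function.update v j (s - u j)) := by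
  have h1 : (av fun u : J → Γ => av fun v : J → Γ => f u * g (Function.update v j (s - u j))) =
      av fun z : Γ => al f j z * al g j (s - z) := by
    have h2 : (fun u : J → Γ => av fun v : J → Γ => f u * g (Function.update v j (s - u j))) =
        fun u => f u * al g j (s - u j) := by
      funext u
      exact av_mul_left _ _
    rw [h2, ← av_update j]
    congr 1
    funext z
    simp only [Function.update_self]
    exact av_mul_right _ _
  rw [h1]
  have hα : 0 ≤ av f := av_nonneg hf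
  have hβ : 0 ≤ av g := av_nonneg hg
  have h3 : ∀ z, av f * av g - max 0 (av f - al f j z) * av g - av f * max 0 (av g - al g j (s - z)) ≤
      al f j z * al g j (s - z) := by
    intro z
    have ha : 0 ≤ al f j z := al_nonneg hf j z
    have hb : 0 ≤ al g j (s - z) := al_nonneg hg j (s - z)
    rcases max_cases 0 (av f - al f j z) with ⟨h, h'⟩ | ⟨h, h'⟩ <;>
    rcases max_cases 0 (av g - al g j (s - z)) with ⟨k, k'⟩ | ⟨k, k'⟩ <;> rw [h, k]
    · nlinarith
    · nlinarith
    · nlinarith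
    · nlinarith
  have h4 := av_mono h3
  have h5 : (av fun z => av f * av g - max 0 (av f - al f j z) * av g - av f * max 0 (av g - al g j (s - z))) =
      av f * av g - Df f j * av g - av f * Df g j := by
    rw [av_sub, av_sub, av_const, av_mul_right, av_mul_left]
    congr 2
    exact av_equiv (Equiv.subLeft s) (fun z => max 0 (av g - al g j z))
  rw [h5] at h4
  exact h4

omit [AddCommGroup Γ] in
/-- (iii), one leaf -/
theorem sum_Df {f : (J → Γ) → ℝ} (h0 : ∀ u, 0 ≤ f u) (h1 : ∀ u, f u ≤ 1) :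
    ∑ j, Df f j ≤ av f * (1 / 100 * (Fintype.card J : ℝ) + 100 * Real.log (1 / av f)) := by
  rcases (av_nonneg h0).eq_or_lt with h | h
  · have h2 : ∀ j, Df f j = 0 := fun j => le_antisymm (by rw [h]; exact Df_le h0 j) (Df_nonneg f j)
    simp [h2, ← h]
  · have h2 := defect f h0 h1 h
    have h3 : ∀ j, Df f j ≤ av f * (1 / 100 + 25 * (Df f j / av f) ^ 2) := by
      intro j
      have h4 : Df f j = av f * (Df f j / av f) := by field_simp
      nth_rw 1 [h4]
      refine mul_le_mul_of_nonneg_left ?_ h.le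
      nlinarith [sq_nonneg (50 * (Df f j / av f) - 1)]
    calc ∑ j, Df f j ≤ ∑ j, av f * (1 / 100 + 25 * (Df f j / av f) ^ 2) := sum_le_sum fun j _ => h3 j
      _ = av f * (1 / 100 * (Fintype.card J : ℝ) + 25 * ∑ j, (Df f j / av f) ^ 2) := by
        rw [← mul_sum, sum_add_distrib, sum_const, card_univ, nsmul_eq_mul, mul_sum]
        ring
      _ ≤ _ := by
        refine mul_le_mul_of_nonneg_left ?_ h.le
        linarith

end one

/-- `∑ p log (1/p) ≤ T + 1` for `2 ^ T` numbers `p` of sum one -/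
theorem entropy (T : ℕ) (p q : Fin (2 ^ T) → ℝ) (hp : ∀ l, 0 ≤ p l) (hq : ∀ l, 0 < p l → p l ≤ q l)
    (hs : ∑ l, p l ≤ 1) : ∑ l, p l * Real.log (1 / q l) ≤ T + 1 := by
  have h1 : ∀ l, p l * Real.log (1 / q l) ≤ p l * T + Real.exp (-(T : ℝ)) := by
    intro l
    rcases (hp l).eq_or_lt with h | h
    · rw [← h]
      simp [Real.exp_nonneg]
    · have h2 := hq l h
      have h3 : Real.log (1 / q l) ≤ Real.log (1 / p l) :=
        Real.log_le_log (by positivity [h.trans_le h2]) (one_div_le_one_div_of_le h h2)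
      have h4 : Real.log (1 / p l) = T + Real.log (Real.exp (-(T : ℝ)) / p l) := by
        rw [Real.log_div (Real.exp_pos _).ne' h.ne', Real.log_exp, one_div, Real.log_inv]
        ring
      have h5 := Real.log_le_sub_one_of_pos (show 0 < Real.exp (-(T : ℝ)) / p l by positivity)
      have h6 : p l * Real.log (1 / q l) ≤ p l * (T + (Real.exp (-(T : ℝ)) / p l - 1)) :=
        mul_le_mul_of_nonneg_left (by linarith) h.le
      have h7 : p l * (T + (Real.exp (-(T : ℝ)) / p l - 1)) = p l * T + Real.exp (-(T : ℝ)) - p l := by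
        field_simp
        ring
      linarith
  calc ∑ l, p l * Real.log (1 / q l) ≤ ∑ l, (p l * T + Real.exp (-(T : ℝ))) := sum_le_sum fun l _ => h1 l
    _ = (∑ l, p l) * T + 2 ^ T * Real.exp (-(T : ℝ)) := by
      rw [sum_add_distrib, ← sum_mul, sum_const, card_univ, nsmul_eq_mul, Fintype.card_fin]
      push_cast
      ring
    _ ≤ 1 * T + 1 := by
      refine add_le_add (mul_le_mul_of_nonneg_right hs (Nat.cast_nonneg _)) ?_
      rw [Real.exp_neg, ← div_eq_mul_inv, div_le_one (Real.exp_pos _)]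
      have : (2 : ℝ) ≤ Real.exp 1 := by
        have := Real.add_one_le_exp (1 : ℝ)
        linarith
      calc (2 : ℝ) ^ T ≤ Real.exp 1 ^ T := pow_le_pow_left₀ (by norm_num) this T
        _ = Real.exp T := by rw [← Real.exp_nat_mul]; simp
    _ = T + 1 := by ring

/-- indicator of the output `false` -/
def ind (b : Bool) : ℝ := if b then 0 else 1

theorem ind_nonneg (b : Bool) : 0 ≤ ind b := by cases b <;> simp [ind]

theorem ind_le (b : Bool) : ind b ≤ 1 := by cases b <;> simp [ind]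

/-- indicator of the output `true` -/
def tr (b : Bool) : ℝ := if b then 1 else 0

theorem tr_nonneg (b : Bool) : 0 ≤ tr b := by cases b <;> simp [tr]

theorem tr_le (b : Bool) : tr b ≤ 1 := by cases b <;> simp [tr]

/-- one leaf at a time -/
theorem leaf_sum {L X Y : Type} [Fintype L] [DecidableEq L] {f : L → X → Bool} {g : L → Y → Bool} {o : L → Bool}
    {run : X → Y → Bool}
    (h : ∀ x y, ∃ l, f l x = true ∧ g l y = true ∧ o l = run x y ∧ ∀ l', f l' x = true → g l' y = true → l' = l)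
    (φ : Bool → ℝ) (x : X) (y : Y) : ∑ l, φ (o l) * (tr (f l x) * tr (g l y)) = φ (run x y) := by
  obtain ⟨l, h1, h2, h3, h4⟩ := h x y
  rw [sum_eq_single l]
  · rw [h1, h2, h3]
    simp [tr]
  · intro l' _ hl'
    by_cases h5 : f l' x = true
    · by_cases h6 : g l' y = true
      · exact absurd (h4 l' h5 h6) hl'
      · simp [tr, h6]
    · simp [tr, h5]
  · intro h5
    exact absurd (mem_univ _) h5

section main

variable {A B J Γ : Type} [Fintype A] [Fintype B] [Fintype J] [DecidableEq J] [Nonempty J] [Fintype Γ]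
    [DecidableEq Γ] [AddCommGroup Γ]

omit [Nonempty J] [DecidableEq Γ] in
/-- sum of the defects over the cells and the leaves -/
theorem defects (T : ℕ) (F G : Fin (2 ^ T) → (J → Γ) → ℝ) (hF0 : ∀ l u, 0 ≤ F l u) (hF1 : ∀ l u, F l u ≤ 1)
    (hG0 : ∀ l u, 0 ≤ G l u) (hG1 : ∀ l u, G l u ≤ 1) (hs : ∑ l, av (F l) * av (G l) ≤ 1)
    (hJ : 10000 * (T + 1) ≤ Fintype.card J) :
    ∑ j, ∑ l, Df (F l) j * av (G l) ≤ 1 / 50 * (Fintype.card J : ℝ) := by
  have h1 : ∑ j, ∑ l, Df (F l) j * av (G l) = ∑ l, (∑ j, Df (F l) j) * av (G l) := by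
    rw [sum_comm]
    exact sum_congr rfl fun l _ => (sum_mul _ _ _).symm
  have h2 : ∀ l, (∑ j, Df (F l) j) * av (G l) ≤
      1 / 100 * (Fintype.card J : ℝ) * (av (F l) * av (G l)) + 100 * (av (F l) * av (G l) * Real.log (1 / av (F l))) := by
    intro l
    have h3 := mul_le_mul_of_nonneg_right (sum_Df (hF0 l) (hF1 l)) (av_nonneg (hG0 l))
    refine h3.trans (le_of_eq ?_)
    ring
  have h4 : ∑ l, av (F l) * av (G l) * Real.log (1 / av (F l)) ≤ T + 1 := by
    refine entropy T (fun l => av (F l) * av (G l)) (fun l => av (F l))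
      (fun l => mul_nonneg (av_nonneg (hF0 l)) (av_nonneg (hG0 l))) ?_ hs
    intro l _
    exact mul_le_of_le_one_right (av_nonneg (hF0 l)) (av_le zero_le_one (hG1 l))
  have h5 : (10000 : ℝ) * (T + 1) ≤ Fintype.card J := by exact_mod_cast hJ
  rw [h1]
  calc ∑ l, (∑ j, Df (F l) j) * av (G l)
      ≤ ∑ l, (1 / 100 * (Fintype.card J : ℝ) * (av (F l) * av (G l)) +
          100 * (av (F l) * av (G l) * Real.log (1 / av (F l)))) := sum_le_sum fun l _ => h2 l
    _ = 1 / 100 * (Fintype.card J : ℝ) * (∑ l, av (F l) * av (G l)) +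
          100 * ∑ l, av (F l) * av (G l) * Real.log (1 / av (F l)) := by
        rw [sum_add_distrib, ← mul_sum, ← mul_sum]
    _ ≤ 1 / 100 * (Fintype.card J : ℝ) * 1 + 100 * (T + 1) := by
        refine add_le_add (mul_le_mul_of_nonneg_left hs (by positivity)) (mul_le_mul_of_nonneg_left h4 (by norm_num))
    _ ≤ 1 / 50 * (Fintype.card J : ℝ) := by linarith

omit [DecidableEq Γ] [DecidableEq J] [Nonempty J] [Fintype Γ] [AddCommGroup Γ] in
/-- average over the cells of the expected defects -/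
theorem defects_w (T : ℕ) (w : J → A → B → ℝ) (w0 : A → B → ℝ) (hw0 : ∀ a b, 0 ≤ w0 a b)
    (hs0 : ∑ a, ∑ b, w0 a b = 1)
    (hd : ∀ C : A → B → ℝ, SumProd A B (2 ^ T) C → ∀ j,
      ∑ a, ∑ b, w j a b * C a b ≤ ∑ a, ∑ b, w0 a b * C a b + 1 / 100)
    (C : J → A → B → ℝ) (hC : ∀ j, SumProd A B (2 ^ T) (C j))
    (hsum : ∀ a b, ∑ j, C j a b ≤ 1 / 50 * (Fintype.card J : ℝ)) :
    ∑ j, ∑ a, ∑ b, w j a b * C j a b ≤ 3 / 100 * (Fintype.card J : ℝ) := by
  calc ∑ j, ∑ a, ∑ b, w j a b * C j a b ≤ ∑ j, (∑ a, ∑ b, w0 a b * C j a b + 1 / 100) :=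
        sum_le_sum fun j _ => hd _ (hC j) j
    _ = ∑ a, ∑ b, w0 a b * ∑ j, C j a b + 1 / 100 * (Fintype.card J : ℝ) := by
        rw [sum_add_distrib, sum_const, card_univ, nsmul_eq_mul, sum_comm]
        congr 1
        · refine sum_congr rfl fun a _ => ?_
          rw [sum_comm]
          exact sum_congr rfl fun b _ => (mul_sum _ _ _).symm
        · ring
    _ ≤ ∑ a, ∑ b, w0 a b * (1 / 50 * (Fintype.card J : ℝ)) + 1 / 100 * (Fintype.card J : ℝ) := by
        gcongr with a _ b _
        · exact hw0 a b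
        · exact hsum a b
    _ = 3 / 100 * (Fintype.card J : ℝ) := by
        simp_rw [← sum_mul]
        rw [hs0]
        ring

omit [Nonempty J] [DecidableEq Γ] in
/-- the two worlds differ little for one deterministic protocol -/
theorem one_protocol (cert : A → B → Γ) (T : ℕ) (w : J → A → B → ℝ)
    (w0 : A → B → ℝ) (hw : ∀ j a b, 0 ≤ w j a b) (hw0 : ∀ a b, 0 ≤ w0 a b)
    (hs0 : ∑ a, ∑ b, w0 a b = 1)
    (hd : ∀ C : A → B → ℝ, SumProd A B (2 ^ T) C → ∀ j,
      ∑ a, ∑ b, w j a b * C a b ≤ ∑ a, ∑ b, w0 a b * C a b + 1 / 100)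
    (hJ : 10000 * (T + 1) ≤ Fintype.card J)
    (P : DProt (A × (J → Γ)) (B × (J → Γ))) (hP : P.depth ≤ T) :
    (∑ j, ∑ a, ∑ b, w j a b * av fun u : J → Γ => av fun v : J → Γ => ind (P.run (a, u) (b, v))) -
        6 / 100 * (Fintype.card J : ℝ) ≤
      ∑ j, ∑ a, ∑ b, w j a b * av fun u : J → Γ => av fun v : J → Γ =>
        ind (P.run (a, u) (b, Function.update v j (cert a b - u j))) := by
  obtain ⟨f, g, o, h⟩ := leaves P T hP
  set F : Fin (2 ^ T) → A → (J → Γ) → ℝ := fun l a u => tr (f l (a, u)) with hF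
  set G : Fin (2 ^ T) → B → (J → Γ) → ℝ := fun l b v => tr (g l (b, v)) with hG
  have hF0 : ∀ l a u, 0 ≤ F l a u := fun l a u => tr_nonneg _
  have hF1 : ∀ l a u, F l a u ≤ 1 := fun l a u => tr_le _
  have hG0 : ∀ l b v, 0 ≤ G l b v := fun l b v => tr_nonneg _
  have hG1 : ∀ l b v, G l b v ≤ 1 := fun l b v => tr_le _
  have hα0 : ∀ l a, 0 ≤ av (F l a) := fun l a => av_nonneg (hF0 l a)
  have hβ0 : ∀ l b, 0 ≤ av (G l b) := fun l b => av_nonneg (hG0 l b)
  have hα1 : ∀ l a, av (F l a) ≤ 1 := fun l a => av_le zero_le_one (hF1 l a)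
  have hβ1 : ∀ l b, av (G l b) ≤ 1 := fun l b => av_le zero_le_one (hG1 l b)
  have hK : ∀ (φ : Bool → ℝ) a b, (av fun u : J → Γ => av fun v : J → Γ => φ (P.run (a, u) (b, v))) =
      ∑ l, φ (o l) * (av (F l a) * av (G l b)) := by
    intro φ a b
    have h1 : ∀ u v, φ (P.run (a, u) (b, v)) = ∑ l, φ (o l) * (F l a u * G l b v) := fun u v =>
      (leaf_sum h φ (a, u) (b, v)).symm
    simp_rw [h1, av_sum, av_mul_left, av_mul_right]
  have hs : ∀ a b, ∑ l, av (F l a) * av (G l b) = 1 := by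
    intro a b
    have h1 := hK (fun _ => 1) a b
    simp only [one_mul] at h1
    rw [← h1, av_const, av_const]
  have hK1 : ∀ j a b, (∑ l, ind (o l) * (av (F l a) * av (G l b))) -
      (∑ l, Df (F l a) j * av (G l b)) - (∑ l, av (F l a) * Df (G l b) j) ≤
      av fun u : J → Γ => av fun v : J → Γ => ind (P.run (a, u) (b, Function.update v j (cert a b - u j))) := by
    intro j a b
    have h1 : ∀ u v, ind (P.run (a, u) (b, Function.update v j (cert a b - u j))) =
        ∑ l, ind (o l) * (F l a u * G l b (Function.update v j (cert a b - u j))) := fun u v =>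
      (leaf_sum h ind (a, u) (b, _)).symm
    simp_rw [h1, av_sum, av_mul_left, ← sum_sub_distrib]
    refine sum_le_sum fun l _ => ?_
    have h2 := pair (hF0 l a) (hG0 l b) j (cert a b)
    simp_rw [av_mul_left] at h2
    have h3 := mul_le_mul_of_nonneg_left h2 (ind_nonneg (o l))
    have h4 : 0 ≤ (1 - ind (o l)) * (Df (F l a) j * av (G l b) + av (F l a) * Df (G l b) j) :=
      mul_nonneg (by linarith [ind_le (o l)])
        (add_nonneg (mul_nonneg (Df_nonneg _ _) (hβ0 l b)) (mul_nonneg (hα0 l a) (Df_nonneg _ _)))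
    nlinarith
  have hC : ∀ j, SumProd A B (2 ^ T) fun a b => ∑ l, Df (F l a) j * av (G l b) := by
    intro j
    refine ⟨fun l a => Df (F l a) j, fun l b => av (G l b), fun l a => ⟨Df_nonneg _ _, ?_⟩,
      fun l b => ⟨hβ0 l b, hβ1 l b⟩, ?_, fun a b => rfl⟩
    · exact (Df_le (hF0 l a) j).trans (hα1 l a)
    · intro a b
      calc ∑ l, Df (F l a) j * av (G l b) ≤ ∑ l, av (F l a) * av (G l b) :=
            sum_le_sum fun l _ => mul_le_mul_of_nonneg_right (Df_le (hF0 l a) j) (hβ0 l b)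
        _ ≤ 1 := (hs a b).le
  have hC' : ∀ j, SumProd A B (2 ^ T) fun a b => ∑ l, av (F l a) * Df (G l b) j := by
    intro j
    refine ⟨fun l a => av (F l a), fun l b => Df (G l b) j, fun l a => ⟨hα0 l a, hα1 l a⟩,
      fun l b => ⟨Df_nonneg _ _, ?_⟩, ?_, fun a b => rfl⟩
    · exact (Df_le (hG0 l b) j).trans (hβ1 l b)
    · intro a b
      calc ∑ l, av (F l a) * Df (G l b) j ≤ ∑ l, av (F l a) * av (G l b) :=
            sum_le_sum fun l _ => mul_le_mul_of_nonneg_left (Df_le (hG0 l b) j) (hα0 l a)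
        _ ≤ 1 := (hs a b).le
  have hE := defects_w T w w0 hw0 hs0 hd (fun j a b => ∑ l, Df (F l a) j * av (G l b)) hC
    (fun a b => defects T (fun l => F l a) (fun l => G l b) (fun l => hF0 l a) (fun l => hF1 l a)
      (fun l => hG0 l b) (fun l => hG1 l b) (hs a b).le hJ)
  have hE' := defects_w T w w0 hw0 hs0 hd (fun j a b => ∑ l, av (F l a) * Df (G l b) j) hC'
    (fun a b => by
      have h1 := defects T (fun l => G l b) (fun l => F l a) (fun l => hG0 l b) (fun l => hG1 l b)
        (fun l => hF0 l a) (fun l => hF1 l a) (by simp_rw [mul_comm (av (G _ b))]; exact (hs a b).le) hJ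
      simp_rw [mul_comm (Df (G _ b) _)] at h1
      exact h1)
  have h1 : ∀ j, (∑ a, ∑ b, w j a b * av fun u : J → Γ => av fun v : J → Γ => ind (P.run (a, u) (b, v))) -
      (∑ a, ∑ b, w j a b * ∑ l, Df (F l a) j * av (G l b)) -
      (∑ a, ∑ b, w j a b * ∑ l, av (F l a) * Df (G l b) j) ≤
      ∑ a, ∑ b, w j a b * av fun u : J → Γ => av fun v : J → Γ =>
        ind (P.run (a, u) (b, Function.update v j (cert a b - u j))) := by
    intro j
    simp_rw [← sum_sub_distrib]
    refine sum_le_sum fun a _ => sum_le_sum fun b _ => ?_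
    rw [hK ind a b, ← mul_sub, ← mul_sub]
    exact mul_le_mul_of_nonneg_left (hK1 j a b) (hw j a b)
  have h2 := sum_le_sum fun (j : J) (_ : j ∈ univ) => h1 j
  simp only [sum_sub_distrib] at h2
  linarith

omit [Nonempty J] in
/-- the probability that a given cell holds a given value -/
theorem cell (j : J) (s : Γ) : (av fun u : J → Γ => av fun v : J → Γ => if u j + v j = s then (1 : ℝ) else 0) =
    1 / (Fintype.card Γ : ℝ) := by
  have h0 : ∀ c : Γ, (av fun v : J → Γ => if v j = c then (1 : ℝ) else 0) = 1 / (Fintype.card Γ : ℝ) := by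
    intro c
    rw [← av_update j]
    simp only [Function.update_self]
    have : ∀ z : Γ, (av fun _u : J → Γ => if z = c then (1 : ℝ) else 0) = if z = c then 1 else 0 := fun z => av_const _
    simp_rw [this]
    unfold av
    rw [sum_ite_eq' univ c fun _ => (1 : ℝ)]
    simp
  have h1 : ∀ u : J → Γ, (av fun v : J → Γ => if u j + v j = s then (1 : ℝ) else 0) = 1 / (Fintype.card Γ : ℝ) := by
    intro u
    have h2 : (fun v : J → Γ => if u j + v j = s then (1 : ℝ) else 0) = fun v => if v j = s - u j then 1 else 0 := by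
      funext v
      congr 1
      exact propext eq_sub_iff_add_eq'.symm
    rw [h2]
    exact h0 _
  simp_rw [h1]
  exact av_const _

omit [Nonempty J] [Fintype A] [Fintype B] in
/-- with random cells the value is `false` -/
theorem LF_false (cert : A → B → Γ) (Pd : J → A → B → Prop) (hΓ : 100 * Fintype.card J ≤ Fintype.card Γ) (a : A) (b : B) :
    99 / 100 ≤ av fun u : J → Γ => av fun v : J → Γ => ind (LF cert Pd (a, u) (b, v)) := by
  have h1 : ∀ u v : J → Γ, 1 - ∑ j, (if u j + v j = cert a b then (1 : ℝ) else 0) ≤ ind (LF cert Pd (a, u) (b, v)) := by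
    intro u v
    by_cases h : LF cert Pd (a, u) (b, v) = true
    · have h2 : ∃ j, u j + v j = cert a b ∧ Pd j a b := by simpa [LF] using h
      obtain ⟨j, hj, _⟩ := h2
      have h3 : (1 : ℝ) ≤ ∑ j, (if u j + v j = cert a b then (1 : ℝ) else 0) := by
        calc (1 : ℝ) = if u j + v j = cert a b then 1 else 0 := by rw [if_pos hj]
          _ ≤ _ := single_le_sum (f := fun j => if u j + v j = cert a b then (1 : ℝ) else 0)
            (fun i _ => by split_ifs <;> norm_num) (mem_univ j)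
      have := ind_nonneg (LF cert Pd (a, u) (b, v))
      linarith
    · have h2 : 0 ≤ ∑ j, (if u j + v j = cert a b then (1 : ℝ) else 0) :=
        sum_nonneg fun i _ => by split_ifs <;> norm_num
      have h3 : ind (LF cert Pd (a, u) (b, v)) = 1 := by simp [ind, h]
      linarith
  have h2 := av_mono fun u => av_mono fun v => h1 u v
  simp_rw [av_sub, av_sum, av_const] at h2
  simp_rw [cell] at h2
  rw [sum_const, card_univ, nsmul_eq_mul] at h2
  have h3 : (0 : ℝ) < Fintype.card Γ := Nat.cast_pos.2 Fintype.card_pos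
  have h4 : (Fintype.card J : ℝ) * (1 / (Fintype.card Γ : ℝ)) ≤ 1 / 100 := by
    rw [mul_one_div, div_le_div_iff₀ h3 (by norm_num)]
    have : (100 : ℝ) * Fintype.card J ≤ Fintype.card Γ := by exact_mod_cast hΓ
    linarith
  linarith

end main

end Look

open Look LookB in
/-- The lookup lower bound for an arbitrary public random source: a finite probability distribution `q` on deterministic
protocols of depth at most `T`. -/
theorem lookup_core {A B J Γ : Type} [Fintype A] [Fintype B] [Fintype J] [DecidableEq J] [Nonempty J] [Fintype Γ]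
    [DecidableEq Γ] [AddCommGroup Γ] (cert : A → B → Γ) (Pd : J → A → B → Prop) (T : ℕ) (w : J → A → B → ℝ)
    (w0 : A → B → ℝ) (hw : ∀ j a b, 0 ≤ w j a b) (hw0 : ∀ a b, 0 ≤ w0 a b) (hs : ∀ j, ∑ a, ∑ b, w j a b = 1)
    (hs0 : ∑ a, ∑ b, w0 a b = 1)
    (hd : ∀ C : A → B → ℝ, SumProd A B (2 ^ T) C → ∀ j,
      ∑ a, ∑ b, w j a b * C a b ≤ ∑ a, ∑ b, w0 a b * C a b + 1 / 100)
    (hP : ∀ j, ∀ E : A → B → ℝ, (∀ a b, Pd j a b → E a b = 0) → (∀ a b, E a b ≤ 1) → ∑ a, ∑ b, w j a b * E a b ≤ 1 / 100)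
    (hJ : 10000 * (T + 1) ≤ Fintype.card J) (hΓ : 100 * Fintype.card J ≤ Fintype.card Γ)
    {ι : Type} [Fintype ι] (q : ι → ℝ) (P : ι → DProt (A × (J → Γ)) (B × (J → Γ))) (hq : ∀ i, 0 ≤ q i)
    (hq1 : ∑ i, q i = 1) (hdep : ∀ i, (P i).depth ≤ T)
    (hcor : ∀ x y, 2 / 3 ≤ ∑ i, if (P i).run x y = LF cert Pd x y then q i else 0) : False := by
  classical
  -- probability of the output `false`
  have hfalse : ∀ x y, LF cert Pd x y = false → 2 / 3 ≤ ∑ i, q i * ind ((P i).run x y) := by
    intro x y hxy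
    have h1 := hcor x y
    rw [hxy] at h1
    refine h1.trans (sum_le_sum fun i _ => ?_)
    cases (P i).run x y <;> simp [ind]
  have hall : ∀ x y, ∑ i, q i * ind ((P i).run x y) ≤ 1 := by
    intro x y
    calc ∑ i, q i * ind ((P i).run x y) ≤ ∑ i, q i :=
          sum_le_sum fun i _ => mul_le_of_le_one_right (hq i) (ind_le _)
      _ = 1 := hq1
  have htrue : ∀ x y, LF cert Pd x y = true → ∑ i, q i * ind ((P i).run x y) ≤ 1 / 3 := by
    intro x y hxy
    have h1 := hcor x y
    rw [hxy] at h1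
    have h2 : ∑ i, q i * ind ((P i).run x y) + (∑ i, if (P i).run x y = true then q i else 0) = 1 := by
      rw [← sum_add_distrib, ← hq1]
      refine sum_congr rfl fun i _ => ?_
      cases (P i).run x y <;> simp [ind]
    linarith
  -- world 0
  have hN0 : ∀ j, 2 / 3 * (99 / 100) ≤ ∑ i, q i * ∑ a, ∑ b, w j a b *
      av fun u : J → Γ => av fun v : J → Γ => ind ((P i).run (a, u) (b, v)) := by
    intro j
    have h1 : ∑ i, q i * ∑ a, ∑ b, w j a b * (av fun u : J → Γ => av fun v : J → Γ => ind ((P i).run (a, u) (b, v))) =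
        ∑ a, ∑ b, w j a b * av fun u : J → Γ => av fun v : J → Γ => ∑ i, q i * ind ((P i).run (a, u) (b, v)) := by
      simp_rw [mul_sum]
      rw [sum_comm]
      refine sum_congr rfl fun a _ => ?_
      rw [sum_comm]
      refine sum_congr rfl fun b _ => ?_
      simp_rw [av_sum, av_mul_left, mul_sum]
      exact sum_congr rfl fun i _ => by ring
    rw [h1]
    have h2 : ∀ a b, 2 / 3 * (99 / 100) ≤
        av fun u : J → Γ => av fun v : J → Γ => ∑ i, q i * ind ((P i).run (a, u) (b, v)) := by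
      intro a b
      have h3 : ∀ u v : J → Γ, 2 / 3 * ind (LF cert Pd (a, u) (b, v)) ≤ ∑ i, q i * ind ((P i).run (a, u) (b, v)) := by
        intro u v
        by_cases h : LF cert Pd (a, u) (b, v) = true
        · rw [h]
          simp only [ind, if_true, mul_zero]
          exact sum_nonneg fun i _ => mul_nonneg (hq i) (ind_nonneg _)
        · have h' : LF cert Pd (a, u) (b, v) = false := by simpa using h
          have := hfalse _ _ h'
          rw [h']
          simpa [ind] using this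
      have h4 := av_mono fun u => av_mono fun v => h3 u v
      simp_rw [av_mul_left] at h4
      have h5 := LF_false cert Pd hΓ a b
      linarith
    calc 2 / 3 * (99 / 100) = ∑ a, ∑ b, w j a b * (2 / 3 * (99 / 100)) := by
          simp_rw [← sum_mul]
          rw [hs j, one_mul]
      _ ≤ _ := sum_le_sum fun a _ => sum_le_sum fun b _ => mul_le_mul_of_nonneg_left (h2 a b) (hw j a b)
  -- world 1
  have hN1 : ∀ j, ∑ i, q i * ∑ a, ∑ b, w j a b * (av fun u : J → Γ => av fun v : J → Γ =>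
      ind ((P i).run (a, u) (b, Function.update v j (cert a b - u j)))) ≤ 1 / 3 + 1 / 100 := by
    intro j
    have h1 : ∑ i, q i * ∑ a, ∑ b, w j a b * (av fun u : J → Γ => av fun v : J → Γ =>
          ind ((P i).run (a, u) (b, Function.update v j (cert a b - u j)))) =
        ∑ a, ∑ b, w j a b * av fun u : J → Γ => av fun v : J → Γ =>
          ∑ i, q i * ind ((P i).run (a, u) (b, Function.update v j (cert a b - u j))) := by
      simp_rw [mul_sum]
      rw [sum_comm]
      refine sum_congr rfl fun a _ => ?_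
      rw [sum_comm]
      refine sum_congr rfl fun b _ => ?_
      simp_rw [av_sum, av_mul_left, mul_sum]
      exact sum_congr rfl fun i _ => by ring
    rw [h1]
    have h2 : ∀ a b, (av fun u : J → Γ => av fun v : J → Γ =>
        ∑ i, q i * ind ((P i).run (a, u) (b, Function.update v j (cert a b - u j)))) ≤
        1 / 3 + if Pd j a b then 0 else 1 := by
      intro a b
      by_cases h : Pd j a b
      · rw [if_pos h, add_zero]
        refine av_le (by norm_num) fun u => av_le (by norm_num) fun v => ?_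
        refine htrue _ _ ?_
        simp only [LF, decide_eq_true_eq]
        exact ⟨j, by simp, h⟩
      · rw [if_neg h]
        refine av_le (by norm_num) fun u => av_le (by norm_num) fun v => (hall _ _).trans (by norm_num)
    have h3 := hP j (fun a b => if Pd j a b then 0 else 1) (fun a b h => if_pos h) (fun a b => by split_ifs <;> norm_num)
    calc ∑ a, ∑ b, w j a b * (av fun u : J → Γ => av fun v : J → Γ =>
          ∑ i, q i * ind ((P i).run (a, u) (b, Function.update v j (cert a b - u j))))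
        ≤ ∑ a, ∑ b, w j a b * (1 / 3 + if Pd j a b then 0 else 1) :=
          sum_le_sum fun a _ => sum_le_sum fun b _ => mul_le_mul_of_nonneg_left (h2 a b) (hw j a b)
      _ = 1 / 3 * ∑ a, ∑ b, w j a b + ∑ a, ∑ b, w j a b * if Pd j a b then 0 else 1 := by
          rw [mul_sum, ← sum_add_distrib]
          refine sum_congr rfl fun a _ => ?_
          rw [mul_sum, ← sum_add_distrib]
          exact sum_congr rfl fun b _ => by ring
      _ ≤ 1 / 3 + 1 / 100 := by
          rw [hs j]
          linarith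
  -- comparison
  have hcmp := sum_le_sum fun (i : ι) (_ : i ∈ univ) => mul_le_mul_of_nonneg_left
    (one_protocol cert T w w0 hw hw0 hs0 hd hJ (P i) (hdep i)) (hq i)
  simp_rw [mul_sub, sum_sub_distrib, mul_sum (s := (univ : Finset J))] at hcmp
  rw [← sum_mul, hq1, sum_comm, sum_comm (s := univ) (t := univ) (f := fun i j => q i * ∑ a, ∑ b, w j a b *
    av fun u : J → Γ => av fun v : J → Γ => ind ((P i).run (a, u) (b, Function.update v j (cert a b - u j))))] at hcmp
  have hJ0 : (0 : ℝ) < Fintype.card J := Nat.cast_pos.2 Fintype.card_pos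
  have h1 := sum_le_sum fun (j : J) (_ : j ∈ univ) => hN0 j
  have h2 := sum_le_sum fun (j : J) (_ : j ∈ univ) => hN1 j
  simp only [sum_const, card_univ, nsmul_eq_mul] at h1 h2
  linarith

/-- The lookup lower bound, `R(LF) > T`, for public coins with arbitrary real probabilities. -/
theorem lookup_lower_gen {A B J Γ : Type} [Fintype A] [Fintype B] [Fintype J] [DecidableEq J] [Nonempty J] [Fintype Γ]
    [DecidableEq Γ] [AddCommGroup Γ] (cert : A → B → Γ) (Pd : J → A → B → Prop) (T : ℕ) (w : J → A → B → ℝ)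
    (w0 : A → B → ℝ) (hw : ∀ j a b, 0 ≤ w j a b) (hw0 : ∀ a b, 0 ≤ w0 a b) (hs : ∀ j, ∑ a, ∑ b, w j a b = 1)
    (hs0 : ∑ a, ∑ b, w0 a b = 1)
    (hd : ∀ C : A → B → ℝ, SumProd A B (2 ^ T) C → ∀ j,
      ∑ a, ∑ b, w j a b * C a b ≤ ∑ a, ∑ b, w0 a b * C a b + 1 / 100)
    (hP : ∀ j, ∀ E : A → B → ℝ, (∀ a b, Pd j a b → E a b = 0) → (∀ a b, E a b ≤ 1) → ∑ a, ∑ b, w j a b * E a b ≤ 1 / 100)
    (hJ : 10000 * (T + 1) ≤ Fintype.card J) (hΓ : 100 * Fintype.card J ≤ Fintype.card Γ) :
    ¬ LX.RGen (LF cert Pd) T := by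
  rintro ⟨ι, hι, q, P, hq, hq1, hdep, hcor⟩
  exact lookup_core cert Pd T w w0 hw hw0 hs hs0 hd hP hJ hΓ q P hq hq1 hdep hcor

theorem lookup_lower {A B J Γ : Type} [Fintype A] [Fintype B] [Fintype J] [DecidableEq J] [Nonempty J] [Fintype Γ]
    [DecidableEq Γ] [AddCommGroup Γ] (cert : A → B → Γ) (Pd : J → A → B → Prop) (T : ℕ) (w : J → A → B → ℝ)
    (w0 : A → B → ℝ) (hw : ∀ j a b, 0 ≤ w j a b) (hw0 : ∀ a b, 0 ≤ w0 a b) (hs : ∀ j, ∑ a, ∑ b, w j a b = 1)
    (hs0 : ∑ a, ∑ b, w0 a b = 1)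
    (hd : ∀ C : A → B → ℝ, SumProd A B (2 ^ T) C → ∀ j,
      ∑ a, ∑ b, w j a b * C a b ≤ ∑ a, ∑ b, w0 a b * C a b + 1 / 100)
    (hP : ∀ j, ∀ E : A → B → ℝ, (∀ a b, Pd j a b → E a b = 0) → (∀ a b, E a b ≤ 1) → ∑ a, ∑ b, w j a b * E a b ≤ 1 / 100)
    (hJ : 10000 * (T + 1) ≤ Fintype.card J) (hΓ : 100 * Fintype.card J ≤ Fintype.card Γ) :
    ¬ Alt.RandComputes (LF cert Pd) T := by
  rintro ⟨r, P, hdep, hcor⟩
  have h2 : (0 : ℝ) < 2 ^ r := by positivity
  refine lookup_core cert Pd T w w0 hw hw0 hs hs0 hd hP hJ hΓ (fun _ : Fin r → Bool => 1 / 2 ^ r) P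
    (fun _ => by positivity) (by simp) hdep fun x y => ?_
  rw [← sum_filter, sum_const, nsmul_eq_mul, mul_one_div, le_div_iff₀ h2]
  have h3 : (2 : ℝ) * 2 ^ r ≤ 3 * ((univ.filter fun ω => (P ω).run x y = LF cert Pd x y).card : ℝ) := by
    exact_mod_cast hcor x y
  linarith

end

end Pool.Agent.H.MP_dd1c2e_lc.Neg
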