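import Pool.Agent.H.MP_dd1c2e_lc.neg.OneCopy
import Pool.Agent.H.MP_dd1c2e_lc.neg.Hyb
import Pool.Agent.H.MP_dd1c2e_lc.neg.Look
import Pool.Agent.H.MP_dd1c2e_lc.neg.Cheb
import Pool.Agent.H.MP_dd1c2e_lc.neg.Hdm

/-!
# The classical lower bound (module 13b)
-/

namespace Pool.Agent.H.MP_dd1c2e_lc.Neg

open Finset

noncomputable section

/-- a double sum over two function spaces as a sum over functions into pairs -/
lemma low_reindex {K A B : Type} [Fintype K] [DecidableEq K] [Fintype A] [Fintype B] (G : (K → A) → (K → B) → ℝ) :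
    ∑ a : K → A, ∑ b : K → B, G a b = ∑ z : K → A × B, G (fun κ => (z κ).1) (fun κ => (z κ).2) := by
  rw [← Fintype.sum_prod_type']
  exact (Fintype.sum_equiv (Equiv.arrowProdEquivProdArrow K (fun _ => A) (fun _ => B)) _ _ fun z => rfl).symm

/-- the total mass of a product of weights -/
lemma low_prod_sum {K A B : Type} [Fintype K] [DecidableEq K] [Fintype A] [Fintype B] (w : K → A → B → ℝ)
    (h : ∀ κ, ∑ a, ∑ b, w κ a b = 1) : ∑ a : K → A, ∑ b : K → B, ∏ κ, w κ (a κ) (b κ) = 1 := by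
  rw [low_reindex fun (a : K → A) (b : K → B) => ∏ κ, w κ (a κ) (b κ)]
  have h1 : ∏ κ, ∑ z : A × B, w κ z.1 z.2 = ∑ z : K → A × B, ∏ κ, w κ (z κ).1 (z κ).2 := by
    rw [Finset.prod_univ_sum, Fintype.piFinset_univ]
  rw [← h1]
  refine Finset.prod_eq_one fun κ _ => ?_
  rw [Fintype.sum_prod_type' (f := fun a b => w κ a b)]
  exact h κ

/-- the probability that one block is misclassified -/
lemma low_block {c k : ℕ} {I : Type} [Fintype I] [Nonempty I] [DecidableEq I] (hs : I → I → ℤ)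
    (hH : Had I (fun j i => (hs j i : ℝ) / Real.sqrt (Fintype.card I))) (hk : 0 < k)
    (w1 w0 : (I ⊕ I → Bool) → (I ⊕ I → Bool) → ℝ) (p1 : ∀ x y, 0 ≤ w1 x y) (p0 : ∀ x y, 0 ≤ w0 x y)
    (s1 : ∑ x, ∑ y, w1 x y = 1) (s0 : ∑ x, ∑ y, w0 x y = 1)
    (m1 : 1 / 4 ≤ ∑ x, ∑ y, w1 x y * forrB (fun j i => (hs j i : ℝ) / Real.sqrt (Fintype.card I)) x y)
    (m0 : ∑ x, ∑ y, w0 x y * forrB (fun j i => (hs j i : ℝ) / Real.sqrt (Fintype.card I)) x y = 0)
    (j : Fin c → Bool) (i : Fin c) (E : (Fin c × Fin k → I ⊕ I → Bool) → (Fin c × Fin k → I ⊕ I → Bool) → ℝ)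
    (hE1 : ∀ a b, E a b ≤ 1) (hE : ∀ a b, cls k (Fintype.card I) (j i) (bsum hs a b i) → E a b ≤ 0) :
    ∑ a, ∑ b, (∏ κ, (if j κ.1 then w1 else w0) (a κ) (b κ)) * E a b ≤ 144 / k := by
  set H : I → I → ℝ := fun j i => (hs j i : ℝ) / Real.sqrt (Fintype.card I) with hHdef
  have hN : (0 : ℝ) < Fintype.card I := by exact_mod_cast Fintype.card_pos
  have hsN : (0 : ℝ) < Real.sqrt (Fintype.card I) := Real.sqrt_pos.2 hN
  have hkR : (0 : ℝ) < k := by exact_mod_cast hk
  rw [low_reindex fun a b => (∏ κ, (if j κ.1 then w1 else w0) (a κ) (b κ)) * E a b]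
  have hsum : ∀ κ : Fin c × Fin k, ∑ z : (I ⊕ I → Bool) × (I ⊕ I → Bool), (if j κ.1 then w1 else w0) z.1 z.2 = 1 := by
    intro κ
    rw [Fintype.sum_prod_type' (f := fun a b => (if j κ.1 then w1 else w0) a b)]
    split_ifs
    · exact s1
    · exact s0
  have hnn : ∀ (κ : Fin c × Fin k) (z : (I ⊕ I → Bool) × (I ⊕ I → Bool)), 0 ≤ (if j κ.1 then w1 else w0) z.1 z.2 := by
    intro κ z
    split_ifs
    · exact p1 _ _
    · exact p0 _ _
  set h : Fin c × Fin k → (I ⊕ I → Bool) × (I ⊕ I → Bool) → ℝ := fun κ z => if κ.1 = i then forrB H z.1 z.2 else 0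
    with hh
  -- the sum over the copies of block `i`
  have hblk : ∀ g : Fin c × Fin k → ℝ, ∑ κ, (if κ.1 = i then g κ else 0) = ∑ t, g (i, t) := by
    intro g
    rw [Fintype.sum_prod_type, Finset.sum_eq_single i]
    · simp
    · intro b _ hb
      simp [hb]
    · simp
  -- the mean of one copy
  set m : ℝ := ∑ z : (I ⊕ I → Bool) × (I ⊕ I → Bool), (if j i then w1 else w0) z.1 z.2 * forrB H z.1 z.2 with hm
  have hmean : ∑ κ : Fin c × Fin k, ∑ z, (if j κ.1 then w1 else w0) z.1 z.2 * h κ z = k * m := by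
    have e1 : ∀ κ : Fin c × Fin k, ∑ z : (I ⊕ I → Bool) × (I ⊕ I → Bool), (if j κ.1 then w1 else w0) z.1 z.2 * h κ z =
        if κ.1 = i then m else 0 := by
      intro κ
      by_cases hκ : κ.1 = i
      · rw [if_pos hκ, hm]
        refine Finset.sum_congr rfl fun z _ => ?_
        simp only [hh, if_pos hκ, hκ]
      · rw [if_neg hκ]
        refine Finset.sum_eq_zero fun z _ => ?_
        simp only [hh, if_neg hκ, mul_zero]
    rw [Finset.sum_congr rfl fun κ _ => e1 κ, hblk fun _ => m]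
    simp
  have hV : ∑ κ : Fin c × Fin k, ∑ z, (if j κ.1 then w1 else w0) z.1 z.2 * h κ z ^ 2 ≤ k := by
    have e1 : ∀ κ : Fin c × Fin k, ∑ z : (I ⊕ I → Bool) × (I ⊕ I → Bool),
        (if j κ.1 then w1 else w0) z.1 z.2 * h κ z ^ 2 ≤ if κ.1 = i then 1 else 0 := by
      intro κ
      by_cases hκ : κ.1 = i
      · rw [if_pos hκ, ← hsum κ]
        refine Finset.sum_le_sum fun z _ => ?_
        simp only [hh, if_pos hκ]
        refine mul_le_of_le_one_right (hnn κ z) ?_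
        rw [← sq_abs]
        exact pow_le_one₀ (abs_nonneg _) (abs_forrB hH _ _)
      · rw [if_neg hκ]
        refine le_of_eq (Finset.sum_eq_zero fun z _ => ?_)
        simp only [hh, if_neg hκ]
        ring
    refine (Finset.sum_le_sum fun κ _ => e1 κ).trans ?_
    rw [hblk fun _ => (1 : ℝ)]
    simp
  have hmain := cheb (fun (κ : Fin c × Fin k) z => (if j κ.1 then w1 else w0) z.1 z.2) hnn hsum h k hV ((k : ℝ) / 12)
    (by positivity) (fun z => E (fun κ => (z κ).1) (fun κ => (z κ).2)) (fun z => hE1 _ _) ?_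
  · refine hmain.trans (le_of_eq ?_)
    field_simp
    norm_num
  · intro z hz
    refine hE _ _ ?_
    have hz' : |∑ t : Fin k, forrB H (z (i, t)).1 (z (i, t)).2 - k * m| < k / 12 := by
      have := hz
      rw [hmean] at this
      have e2 : ∑ κ, h κ (z κ) = ∑ t : Fin k, forrB H (z (i, t)).1 (z (i, t)).2 := by
        rw [hh]
        exact hblk fun κ => forrB H (z κ).1 (z κ).2
      rwa [e2] at this
    have hb := bsum_forr hs (fun κ => (z κ).1) (fun κ => (z κ).2) i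
    obtain ⟨hl, hr⟩ := abs_lt.1 hz'
    unfold cls
    by_cases hj : j i = true
    · rw [if_pos hj, hb]
      have hm4 : 1 / 4 ≤ m := by
        rw [hm, if_pos hj, Fintype.sum_prod_type' (f := fun a b => w1 a b * forrB H a b)]
        exact m1
      have h3 : (k : ℝ) / 6 ≤ ∑ t : Fin k, forrB H (z (i, t)).1 (z (i, t)).2 := by nlinarith
      calc (k : ℝ) * Fintype.card I * Real.sqrt (Fintype.card I) / 6
          = Fintype.card I * Real.sqrt (Fintype.card I) * (k / 6) := by ring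
        _ ≤ _ := mul_le_mul_of_nonneg_left h3 (by positivity)
    · rw [if_neg hj, hb]
      have hm0 : m = 0 := by
        rw [hm, if_neg hj, Fintype.sum_prod_type' (f := fun a b => w0 a b * forrB H a b)]
        exact m0
      have h3 : ∑ t : Fin k, forrB H (z (i, t)).1 (z (i, t)).2 ≤ (k : ℝ) / 12 := by
        rw [hm0] at hr
        linarith
      calc _ ≤ (Fintype.card I : ℝ) * Real.sqrt (Fintype.card I) * (k / 12) :=
            mul_le_mul_of_nonneg_left h3 (by positivity)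
        _ = _ := by ring

/-- the probability that the address is not `j` -/
lemma low_adr {c k : ℕ} {I : Type} [Fintype I] [Nonempty I] [DecidableEq I] (hs : I → I → ℤ)
    (hH : Had I (fun j i => (hs j i : ℝ) / Real.sqrt (Fintype.card I))) (hc : 1 ≤ c) (hk : 14400 * c ≤ k)
    (w1 w0 : (I ⊕ I → Bool) → (I ⊕ I → Bool) → ℝ) (p1 : ∀ x y, 0 ≤ w1 x y) (p0 : ∀ x y, 0 ≤ w0 x y)
    (s1 : ∑ x, ∑ y, w1 x y = 1) (s0 : ∑ x, ∑ y, w0 x y = 1)
    (m1 : 1 / 4 ≤ ∑ x, ∑ y, w1 x y * forrB (fun j i => (hs j i : ℝ) / Real.sqrt (Fintype.card I)) x y)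
    (m0 : ∑ x, ∑ y, w0 x y * forrB (fun j i => (hs j i : ℝ) / Real.sqrt (Fintype.card I)) x y = 0)
    (j : Fin c → Bool) (E : (Fin c × Fin k → I ⊕ I → Bool) → (Fin c × Fin k → I ⊕ I → Bool) → ℝ)
    (hE0 : ∀ a b, Adr hs j a b → E a b = 0) (hE1 : ∀ a b, E a b ≤ 1) :
    ∑ a, ∑ b, (∏ κ, (if j κ.1 then w1 else w0) (a κ) (b κ)) * E a b ≤ 1 / 100 := by
  classical
  have hk0 : 0 < k := lt_of_lt_of_le (by omega) hk
  have hkR : (0 : ℝ) < k := by exact_mod_cast hk0
  have hk2 : (14400 : ℝ) * c ≤ k := by exact_mod_cast hk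
  have h1 : ∀ x y : Fin c × Fin k → I ⊕ I → Bool, E x y ≤
      ∑ i : Fin c, if cls k (Fintype.card I) (j i) (bsum hs x y i) then (0 : ℝ) else 1 := by
    intro x y
    by_cases hA : Adr hs j x y
    · rw [hE0 x y hA]
      exact Finset.sum_nonneg fun i _ => by split_ifs <;> norm_num
    · unfold Adr at hA
      push Not at hA
      obtain ⟨i, hi⟩ := hA
      refine (hE1 x y).trans ?_
      have h2 := Finset.single_le_sum (f := fun i : Fin c =>
        if cls k (Fintype.card I) (j i) (bsum hs x y i) then (0 : ℝ) else 1)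
        (fun i _ => by split_ifs <;> norm_num) (Finset.mem_univ i)
      simp only [if_neg hi] at h2
      exact h2
  have hW : ∀ x y : Fin c × Fin k → I ⊕ I → Bool, 0 ≤ ∏ κ, (if j κ.1 then w1 else w0) (x κ) (y κ) := by
    intro x y
    refine Finset.prod_nonneg fun κ _ => ?_
    split_ifs
    · exact p1 _ _
    · exact p0 _ _
  calc ∑ x, ∑ y, (∏ κ, (if j κ.1 then w1 else w0) (x κ) (y κ)) * E x y
      ≤ ∑ x, ∑ y, ∑ i : Fin c, (∏ κ, (if j κ.1 then w1 else w0) (x κ) (y κ)) *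
          (if cls k (Fintype.card I) (j i) (bsum hs x y i) then (0 : ℝ) else 1) := by
        refine Finset.sum_le_sum fun x _ => Finset.sum_le_sum fun y _ => ?_
        rw [← Finset.mul_sum]
        exact mul_le_mul_of_nonneg_left (h1 x y) (hW x y)
    _ = ∑ i : Fin c, ∑ x, ∑ y, (∏ κ, (if j κ.1 then w1 else w0) (x κ) (y κ)) *
          (if cls k (Fintype.card I) (j i) (bsum hs x y i) then (0 : ℝ) else 1) := by
        rw [Finset.sum_comm (s := (univ : Finset (Fin c)))]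
        refine Finset.sum_congr rfl fun x _ => ?_
        rw [Finset.sum_comm]
    _ ≤ ∑ i : Fin c, (144 / k : ℝ) := by
        refine Finset.sum_le_sum fun i _ => ?_
        refine low_block hs hH hk0 w1 w0 p1 p0 s1 s0 m1 m0 j i _ (fun x y => ?_) (fun x y h => ?_)
        · split_ifs <;> norm_num
        · rw [if_pos h]
    _ ≤ 1 / 100 := by
        rw [Finset.sum_const, Finset.card_univ, Fintype.card_fin, nsmul_eq_mul, mul_div_assoc', div_le_iff₀ hkR]
        linarith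

/-- the lower bound for a general matrix -/
theorem low_core {c k P T : ℕ} [Fact P.Prime] {I : Type} [Fintype I] [Nonempty I] [DecidableEq I] (hs : I → I → ℤ)
    (hH : Had I (fun j i => (hs j i : ℝ) / Real.sqrt (Fintype.card I))) (hc : 1 ≤ c) (hk : 14400 * c ≤ k)
    (hJ : 10000 * (T + 1) ≤ 2 ^ c) (hN : (500 : ℝ) * (c * k) * ((T : ℝ) + 2) ^ 2 ≤ Real.sqrt (Fintype.card I))
    (hP : 100 * 2 ^ c ≤ P) :
    ¬ LX.RGen (LF (A := Fin c × Fin k → I ⊕ I → Bool) (B := Fin c × Fin k → I ⊕ I → Bool)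
      (J := Fin c → Bool) (cert P) (Adr hs)) T := by
  haveI : NeZero P := ⟨(Fact.out : P.Prime).ne_zero⟩
  letI i1 : Fintype (QI c k I → ZMod P) := inferInstance
  letI i2 : Fintype (QI c k I → QI c k I → ZMod P) := Pi.instFintype
  letI i3 : DecidableEq (QI c k I → QI c k I → ZMod P) := Classical.decEq _
  obtain ⟨w1, p1, s1, m1, d1⟩ := one_copy hH
  obtain ⟨w0, hw0⟩ : ∃ w0 : (I ⊕ I → Bool) → (I ⊕ I → Bool) → ℝ,
    w0 = fun _ _ => 1 / (Fintype.card (I ⊕ I → Bool) : ℝ) ^ 2 := ⟨_, rfl⟩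
  have hXc : (0 : ℝ) < Fintype.card (I ⊕ I → Bool) := by exact_mod_cast Fintype.card_pos
  have p0 : ∀ x y, 0 ≤ w0 x y := fun _ _ => by rw [hw0]; positivity
  have s0 : ∑ x, ∑ y, w0 x y = 1 := by
    simp only [hw0, Finset.sum_const, Finset.card_univ, nsmul_eq_mul]
    field_simp
  have m0 : ∑ x, ∑ y, w0 x y * forrB (fun j i => (hs j i : ℝ) / Real.sqrt (Fintype.card I)) x y = 0 := by
    rw [hw0]
    exact forrB_unif _
  have d1' : ∀ C : (I ⊕ I → Bool) → (I ⊕ I → Bool) → ℝ, SumProd _ _ (2 ^ T) C →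
      |∑ x, ∑ y, w1 x y * C x y - ∑ x, ∑ y, w0 x y * C x y| ≤
        5 * ((T : ℝ) + 2) ^ 2 / Real.sqrt (Fintype.card I) := by
    intro C hC
    rw [hw0]
    exact d1 T C hC
  clear d1 hw0
  have hk0 : 0 < k := lt_of_lt_of_le (by omega) hk
  refine lookup_lower_gen (cert P) (Adr hs) T (fun j a b => ∏ κ, (if j κ.1 then w1 else w0) (a κ) (b κ))
    (fun a b => ∏ κ, w0 (a κ) (b κ)) ?_ ?_ ?_ ?_ ?_ ?_ ?_ ?_
  · intro j x y
    refine Finset.prod_nonneg fun κ _ => ?_
    split_ifs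
    · exact p1 _ _
    · exact p0 _ _
  · intro x y
    exact Finset.prod_nonneg fun κ _ => p0 _ _
  · intro j
    refine low_prod_sum (K := Fin c × Fin k) (fun κ => if j κ.1 then w1 else w0) fun κ => ?_
    split_ifs
    · exact s1
    · exact s0
  · exact low_prod_sum (K := Fin c × Fin k) (fun _ => w0) fun _ => s0
  · intro C hC j
    have hyb := hybrid (K := Fin c × Fin k) (2 ^ T) w1 w0 p1 p0 s1 s0 _ d1' (fun κ => j κ.1) C hC
    have h1 := (abs_le.1 hyb).2
    have h2 : (Fintype.card (Fin c × Fin k) : ℝ) *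
        (5 * ((T : ℝ) + 2) ^ 2 / Real.sqrt (Fintype.card I)) ≤ 1 / 100 := by
      have hsq : (0 : ℝ) < Real.sqrt (Fintype.card I) := Real.sqrt_pos.2 (by exact_mod_cast Fintype.card_pos)
      rw [Fintype.card_prod, Fintype.card_fin, Fintype.card_fin, mul_div_assoc', div_le_iff₀ hsq]
      push_cast
      linarith
    linarith
  · intro j E hE0 hE1
    exact low_adr hs hH hc hk w1 w0 p1 p0 s1 s0 m1 m0 j E hE0 hE1
  · simpa using hJ
  · have hq : 0 < Fintype.card (QI c k I) := by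
      have : Nonempty (Fin c × Fin k) := ⟨(⟨0, by omega⟩, ⟨0, hk0⟩)⟩
      exact Fintype.card_pos
    have hPp : 0 < P := (Fact.out : P.Prime).pos
    have h1 : Fintype.card (Fin c → Bool) = 2 ^ c := by simp
    rw [h1, Fintype.card_fun, Fintype.card_fun, ZMod.card]
    calc 100 * 2 ^ c ≤ P := hP
      _ ≤ P ^ Fintype.card (QI c k I) := Nat.le_self_pow hq.ne' P
      _ ≤ _ := Nat.le_self_pow hq.ne' _

theorem c_lower (a c k P T : ℕ) [Fact P.Prime] (hc : 1 ≤ c) (hk : 14400 * c ≤ k) (hJ : 10000 * (T + 1) ≤ 2 ^ c)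
    (hN : (500 : ℝ) * (c * k) * ((T : ℝ) + 2) ^ 2 ≤ Real.sqrt (2 ^ a)) (hP : 100 * 2 ^ c ≤ P) :
    ¬ LX.RGen (LF (A := Fin c × Fin k → (Fin a → Bool) ⊕ (Fin a → Bool) → Bool)
      (B := Fin c × Fin k → (Fin a → Bool) ⊕ (Fin a → Bool) → Bool) (J := Fin c → Bool) (cert P) (Adr hs)) T := by
  have hcard : (Fintype.card (Fin a → Bool) : ℝ) = 2 ^ a := by simp
  refine low_core hs ?_ hc hk hJ ?_ hP
  · rw [hcard]
    exact had_hs a
  · rw [hcard]
    exact hN

end

end Pool.Agent.H.MP_dd1c2e_lc.Neg
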