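import Pool.Agent.H.MP_dd1c2e_lc.neg.TestD

/-!
# LOGEQ, module 10: the forrelation test
-/

set_option autoImplicit false

namespace Pool.Agent.H.MP_dd1c2e_lc.Neg

open Finset

noncomputable section

theorem qtest_sg_sq (b : Bool) : sg b ^ 2 = 1 := by
  cases b <;> simp [sg]

theorem qtest_sg_mul (b : Bool) : sg b * sg b = 1 := by
  cases b <;> simp [sg]

theorem phi1_norm {I : Type} [Fintype I] [Nonempty I] (x : I ⊕ I → Bool) : ∑ s, ‖phi1 x s‖ ^ 2 = 1 := by
  have hN : (0 : ℝ) < Fintype.card I := by exact_mod_cast Fintype.card_pos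
  have h1 : ∀ s : Bool × I, ‖phi1 x s‖ ^ 2 = 1 / (2 * (Fintype.card I : ℝ)) := by
    intro s
    unfold phi1
    rw [Complex.norm_real, Real.norm_eq_abs, sq_abs, div_pow, qtest_sg_sq, Real.sq_sqrt (by positivity)]
  rw [sum_congr rfl fun s _ => h1 s, sum_const, card_univ, Fintype.card_prod, Fintype.card_bool, nsmul_eq_mul]
  push_cast
  field_simp

/-- the real matrix of `u1` -/
def qtest_r {I : Type} [DecidableEq I] (H : I → I → ℝ) (y : I ⊕ I → Bool) (m s : Bool × I) : ℝ :=
  (if s.1 then (if m.1 then -1 else 1) * H s.2 m.2 * sg (y (Sum.inr s.2))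
     else (if m.2 = s.2 then sg (y (Sum.inl s.2)) else 0)) / Real.sqrt 2

theorem qtest_u1 {I : Type} [Fintype I] [DecidableEq I] (H : I → I → ℝ) (y : I ⊕ I → Bool) (m s : Bool × I) :
    u1 H y m s = ((qtest_r H y m s : ℝ) : ℂ) := rfl

theorem qtest_gram {I : Type} [Fintype I] [DecidableEq I] {H : I → I → ℝ} (hH : Had I H) (y : I ⊕ I → Bool)
    (s s' : Bool × I) : ∑ m, qtest_r H y m s * qtest_r H y m s' = if s = s' then 1 else 0 := by
  have h2 : Real.sqrt 2 * Real.sqrt 2 = 2 := Real.mul_self_sqrt (by norm_num)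
  have h3 : ∀ a b : ℝ, a / Real.sqrt 2 * (b / Real.sqrt 2) = a * b / 2 := by
    intro a b
    rw [div_mul_div_comm, h2]
  obtain ⟨c, i⟩ := s
  obtain ⟨c', i'⟩ := s'
  rw [Fintype.sum_prod_type]
  simp only [qtest_r, h3, Fintype.sum_bool]
  rcases c with _ | _ <;> rcases c' with _ | _
  · simp only [Bool.false_eq_true, if_false, Prod.mk.injEq, true_and]
    rw [← Finset.sum_add_distrib]
    by_cases hi : i = i'
    · subst hi
      rw [if_pos rfl, Finset.sum_eq_single i]
      · simp only [if_true]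
        rw [qtest_sg_mul]
        norm_num
      · intro j _ hj
        simp [hj]
      · intro h
        exact absurd (mem_univ _) h
    · rw [if_neg hi]
      refine Finset.sum_eq_zero fun j _ => ?_
      by_cases h1 : j = i
      · subst h1
        simp [hi]
      · simp [h1]
  · simp only [Bool.false_eq_true, if_false, if_true, Prod.mk.injEq, false_and]
    rw [← Finset.sum_add_distrib]
    refine Finset.sum_eq_zero fun j _ => ?_
    ring
  · simp only [Bool.false_eq_true, if_false, if_true, Prod.mk.injEq, false_and, reduceCtorEq]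
    rw [← Finset.sum_add_distrib]
    refine Finset.sum_eq_zero fun j _ => ?_
    ring
  · simp only [Bool.false_eq_true, if_false, if_true, Prod.mk.injEq, true_and]
    rw [← Finset.sum_add_distrib]
    have h4 : ∀ j : I, -1 * H i j * sg (y (Sum.inr i)) * (-1 * H i' j * sg (y (Sum.inr i'))) / 2 +
        1 * H i j * sg (y (Sum.inr i)) * (1 * H i' j * sg (y (Sum.inr i'))) / 2 =
        sg (y (Sum.inr i)) * sg (y (Sum.inr i')) * (H i j * H i' j) := by
      intro j
      ring
    rw [sum_congr rfl fun j _ => h4 j, ← Finset.mul_sum, hH.row]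
    by_cases hi : i = i'
    · subst hi
      rw [if_pos rfl, qtest_sg_mul, mul_one]
    · rw [if_neg hi, mul_zero]

theorem u1_gram {I : Type} [Fintype I] [DecidableEq I] {H : I → I → ℝ} (hH : Had I H) (y : I ⊕ I → Bool)
    (s s' : Bool × I) : ∑ m, (starRingEnd ℂ) (u1 H y m s) * u1 H y m s' = if s = s' then 1 else 0 := by
  have h := qtest_gram hH y s s'
  simp only [qtest_u1, Complex.conj_ofReal]
  have h1 := congrArg (fun r : ℝ => (r : ℂ)) h
  push_cast at h1
  rw [h1]
  split_ifs <;> simp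

theorem test1 {I : Type} [Fintype I] [Nonempty I] [DecidableEq I] {H : I → I → ℝ} (hH : Had I H) (x y : I ⊕ I → Bool)
    (c : Bool) : ∑ i, ‖∑ s, u1 H y (c, i) s * phi1 x s‖ ^ 2 = (1 + sg c * forrB H x y) / 2 := by
  have hN : (0 : ℝ) < Fintype.card I := by exact_mod_cast Fintype.card_pos
  obtain ⟨N, hNe⟩ : ∃ N : ℝ, N = Fintype.card I := ⟨_, rfl⟩
  rw [← hNe] at hN
  obtain ⟨z, hz⟩ : ∃ z : I → ℝ, z = fun i => sg (x (Sum.inl i)) * sg (y (Sum.inl i)) := ⟨_, rfl⟩
  obtain ⟨z', hz'⟩ : ∃ z' : I → ℝ, z' = fun i => sg (x (Sum.inr i)) * sg (y (Sum.inr i)) := ⟨_, rfl⟩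
  have hz2 : ∀ i, z i ^ 2 = 1 := by
    intro i
    rw [hz]
    simp only [mul_pow, qtest_sg_sq, mul_one]
  have hz2' : ∀ i, z' i * z' i = 1 := by
    intro i
    rw [hz']
    simp only
    have h1 := qtest_sg_mul (x (Sum.inr i))
    have h2 := qtest_sg_mul (y (Sum.inr i))
    calc sg (x (Sum.inr i)) * sg (y (Sum.inr i)) * (sg (x (Sum.inr i)) * sg (y (Sum.inr i)))
        = (sg (x (Sum.inr i)) * sg (x (Sum.inr i))) * (sg (y (Sum.inr i)) * sg (y (Sum.inr i))) := by ring
      _ = 1 := by rw [h1, h2, mul_one]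
  have hsgc : (if c then (-1 : ℝ) else 1) = sg c := by cases c <;> simp [sg]
  have hs : Real.sqrt 2 * Real.sqrt (2 * N) = 2 * Real.sqrt N := by
    rw [Real.sqrt_mul (by norm_num), ← mul_assoc, Real.mul_self_sqrt (by norm_num)]
  have h1 : ∀ i, ∑ s, u1 H y (c, i) s * phi1 x s = (((z i + sg c * ∑ j, H j i * z' j) / (2 * Real.sqrt N) : ℝ) : ℂ) := by
    intro i
    have h2 : ∀ s : Bool × I, u1 H y (c, i) s * phi1 x s =
        ((qtest_r H y (c, i) s * (sg (if s.1 then x (Sum.inr s.2) else x (Sum.inl s.2)) / Real.sqrt (2 * N)) : ℝ) : ℂ) := by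
      intro s
      rw [qtest_u1, phi1, ← hNe, Complex.ofReal_mul]
    rw [sum_congr rfl fun s _ => h2 s, ← Complex.ofReal_sum]
    congr 1
    rw [Fintype.sum_prod_type]
    simp only [qtest_r, Fintype.sum_bool, if_true, Bool.false_eq_true, if_false]
    rw [hsgc]
    have h3 : ∑ j, (if i = j then sg (y (Sum.inl j)) else 0) / Real.sqrt 2 * (sg (x (Sum.inl j)) / Real.sqrt (2 * N)) =
        z i / (2 * Real.sqrt N) := by
      rw [Finset.sum_eq_single i]
      · rw [if_pos rfl, div_mul_div_comm, hs, hz, mul_comm]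
      · intro j _ hj
        rw [if_neg (Ne.symm hj)]
        simp
      · intro h
        exact absurd (mem_univ _) h
    have h4 : ∑ j, sg c * H j i * sg (y (Sum.inr j)) / Real.sqrt 2 * (sg (x (Sum.inr j)) / Real.sqrt (2 * N)) =
        sg c * (∑ j, H j i * z' j) / (2 * Real.sqrt N) := by
      rw [Finset.mul_sum, Finset.sum_div]
      refine sum_congr rfl fun j _ => ?_
      rw [div_mul_div_comm, hs, hz']
      ring
    rw [h3, h4]
    ring
  have h5 : ∀ i, ‖∑ s, u1 H y (c, i) s * phi1 x s‖ ^ 2 =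
      (1 + (∑ j, H j i * z' j) ^ 2 + 2 * sg c * (∑ j, H j i * z i * z' j)) / (4 * N) := by
    intro i
    rw [h1 i, Complex.norm_real, Real.norm_eq_abs, sq_abs, div_pow, mul_pow, Real.sq_sqrt hN.le]
    have h6 : ∑ j, H j i * z i * z' j = z i * ∑ j, H j i * z' j := by
      rw [Finset.mul_sum]
      exact sum_congr rfl fun j _ => by ring
    rw [h6]
    have h7 := hz2 i
    have h8 := qtest_sg_sq c
    have h9 : (z i + sg c * ∑ j, H j i * z' j) ^ 2 =
        z i ^ 2 + sg c ^ 2 * (∑ j, H j i * z' j) ^ 2 + 2 * sg c * (z i * ∑ j, H j i * z' j) := by ring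
    rw [h9, h7, h8, one_mul]
    norm_num
  rw [sum_congr rfl fun i _ => h5 i, ← Finset.sum_div, Finset.sum_add_distrib, Finset.sum_add_distrib, ← Finset.mul_sum]
  have h10 : ∑ i, (∑ j, H j i * z' j) ^ 2 = N := by
    have h11 : ∀ i, (∑ j, H j i * z' j) ^ 2 = ∑ j, ∑ j', z' j * z' j' * (H j i * H j' i) := by
      intro i
      rw [sq, Finset.sum_mul_sum]
      exact sum_congr rfl fun j _ => sum_congr rfl fun j' _ => by ring
    rw [sum_congr rfl fun i _ => h11 i, Finset.sum_comm]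
    have h12 : ∀ j, ∑ i, ∑ j', z' j * z' j' * (H j i * H j' i) = 1 := by
      intro j
      rw [Finset.sum_comm]
      have h13 : ∀ j', ∑ i, z' j * z' j' * (H j i * H j' i) = if j = j' then 1 else 0 := by
        intro j'
        rw [← Finset.mul_sum, hH.row]
        by_cases h : j = j'
        · subst h
          rw [if_pos rfl, mul_one, hz2']
        · rw [if_neg h, mul_zero]
      rw [sum_congr rfl fun j' _ => h13 j']
      simp
    rw [sum_congr rfl fun j _ => h12 j]
    simp [hNe]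
  have h14 : ∑ _i : I, (1 : ℝ) = N := by simp [hNe]
  have h15 : forrB H x y = (∑ i, ∑ j, H j i * z i * z' j) / N := by
    unfold forrB forr
    rw [← hNe, Finset.sum_comm, hz, hz']
  rw [h10, h14, h15]
  field_simp
  ring

theorem phiN_norm {I K : Type} [Fintype I] [Nonempty I] [Fintype K] [DecidableEq K] (x : K → I ⊕ I → Bool) :
    ∑ s, ‖phiN x s‖ ^ 2 = 1 := by
  have h1 : ∀ s, ‖phiN x s‖ ^ 2 = ∏ k, ‖phi1 (x k) (s k)‖ ^ 2 := by
    intro s
    unfold phiN
    rw [norm_prod, Finset.prod_pow]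
  rw [sum_congr rfl fun s _ => h1 s]
  have h2 := Finset.prod_univ_sum (fun _ : K => (univ : Finset (Bool × I))) (fun k s => ‖phi1 (x k) s‖ ^ 2)
  rw [Fintype.piFinset_univ] at h2
  rw [← h2]
  exact Finset.prod_eq_one fun k _ => phi1_norm (x k)

theorem qtest_gramN {I K : Type} [Fintype I] [DecidableEq I] [Fintype K] [DecidableEq K] {H : I → I → ℝ} (hH : Had I H)
    (y : K → I ⊕ I → Bool) (s s' : K → Bool × I) :
    ∑ m, (starRingEnd ℂ) (uN H y m s) * uN H y m s' = if s = s' then 1 else 0 := by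
  have h1 : ∀ m, (starRingEnd ℂ) (uN H y m s) * uN H y m s' =
      ∏ k, ((starRingEnd ℂ) (u1 H (y k) (m k) (s k)) * u1 H (y k) (m k) (s' k)) := by
    intro m
    unfold uN
    rw [map_prod, ← Finset.prod_mul_distrib]
  rw [sum_congr rfl fun m _ => h1 m]
  have h2 := Finset.prod_univ_sum (fun _ : K => (univ : Finset (Bool × I)))
    (fun k m => (starRingEnd ℂ) (u1 H (y k) m (s k)) * u1 H (y k) m (s' k))
  rw [Fintype.piFinset_univ] at h2
  rw [← h2]
  simp only [u1_gram hH]
  by_cases h : s = s'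
  · subst h
    simp
  · rw [if_neg h]
    obtain ⟨k, hk⟩ := Function.ne_iff.1 h
    exact Finset.prod_eq_zero (mem_univ k) (if_neg hk)

theorem qtest_iso {M S : Type} [Fintype M] [Fintype S] [DecidableEq S] {U : M → S → ℂ}
    (hU : ∀ s s', ∑ m, (starRingEnd ℂ) (U m s) * U m s' = if s = s' then 1 else 0) : IsIsometry U := by
  intro v
  have h1 : ∀ m, ((‖∑ s, U m s * v s‖ ^ 2 : ℝ) : ℂ) =
      ∑ s, ∑ s', (starRingEnd ℂ) (v s) * v s' * ((starRingEnd ℂ) (U m s) * U m s') := by
    intro m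
    push_cast
    rw [← Complex.conj_mul', map_sum, Finset.sum_mul_sum]
    refine sum_congr rfl fun s _ => sum_congr rfl fun s' _ => ?_
    rw [map_mul]
    ring
  have h2 : ((∑ m, ‖∑ s, U m s * v s‖ ^ 2 : ℝ) : ℂ) = ((∑ s, ‖v s‖ ^ 2 : ℝ) : ℂ) := by
    rw [Complex.ofReal_sum, Complex.ofReal_sum, sum_congr rfl fun m _ => h1 m, Finset.sum_comm]
    refine sum_congr rfl fun s _ => ?_
    rw [Finset.sum_comm]
    have h3 : ∀ s', ∑ m, (starRingEnd ℂ) (v s) * v s' * ((starRingEnd ℂ) (U m s) * U m s') =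
        if s = s' then (starRingEnd ℂ) (v s) * v s' else 0 := by
      intro s'
      rw [← Finset.mul_sum, hU]
      by_cases h : s = s'
      · simp [h]
      · simp [h]
    rw [sum_congr rfl fun s' _ => h3 s']
    simp only [Finset.sum_ite_eq, mem_univ, if_true]
    rw [Complex.conj_mul']
    push_cast
    rfl
  exact_mod_cast h2

theorem uN_iso {I K : Type} [Fintype I] [DecidableEq I] [Fintype K] [DecidableEq K] {H : I → I → ℝ} (hH : Had I H)
    (y : K → I ⊕ I → Bool) : IsIsometry (uN H y) :=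
  qtest_iso (qtest_gramN hH y)

/-- the outcomes have the product law -/
theorem testN {I K : Type} [Fintype I] [DecidableEq I] [Fintype K] [DecidableEq K] (H : I → I → ℝ)
    (x y : K → I ⊕ I → Bool) (m : K → Bool × I) :
    ‖∑ s, uN H y m s * phiN x s‖ ^ 2 = ∏ k, ‖∑ s, u1 H (y k) (m k) s * phi1 (x k) s‖ ^ 2 := by
  have h2 := Finset.prod_univ_sum (fun _ : K => (univ : Finset (Bool × I)))
    (fun k s => u1 H (y k) (m k) s * phi1 (x k) s)
  rw [Fintype.piFinset_univ] at h2
  have h1 : ∀ s, uN H y m s * phiN x s = ∏ k, (u1 H (y k) (m k) (s k) * phi1 (x k) (s k)) := by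
    intro s
    unfold uN phiN
    rw [← Finset.prod_mul_distrib]
  rw [sum_congr rfl fun s _ => h1 s, ← h2, norm_prod, Finset.prod_pow]

end

end Pool.Agent.H.MP_dd1c2e_lc.Neg
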