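import Mathlib
import Pool.Agent.H.MP_dd1c2e_lc.neg.Base

/-!
# The forrelation test: definitions
-/

namespace Pool.Agent.H.MP_dd1c2e_lc.Neg

open Finset

noncomputable section

/-- state of Alice for one copy, `(c, i) : Bool × I`: amplitude of the half `c` at `i` -/
def phi1 {I : Type} [Fintype I] (x : I ⊕ I → Bool) (s : Bool × I) : ℂ :=
  ((sg (if s.1 then x (Sum.inr s.2) else x (Sum.inl s.2)) / Real.sqrt (2 * Fintype.card I) : ℝ) : ℂ)

/-- unitary of Bob for one copy: phases, transpose of `H` on the second half, Hadamard gate on the first bit -/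
def u1 {I : Type} [Fintype I] [DecidableEq I] (H : I → I → ℝ) (y : I ⊕ I → Bool) (m s : Bool × I) : ℂ :=
  (((if s.1 then (if m.1 then -1 else 1) * H s.2 m.2 * sg (y (Sum.inr s.2))
     else (if m.2 = s.2 then sg (y (Sum.inl s.2)) else 0)) / Real.sqrt 2 : ℝ) : ℂ)

/-- all copies together: state of Alice -/
def phiN {I K : Type} [Fintype I] [Fintype K] (x : K → I ⊕ I → Bool) (s : K → Bool × I) : ℂ := ∏ k, phi1 (x k) (s k)

/-- all copies together: unitary of Bob -/
def uN {I K : Type} [Fintype I] [DecidableEq I] [Fintype K] (H : I → I → ℝ) (y : K → I ⊕ I → Bool)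
    (m s : K → Bool × I) : ℂ := ∏ k, u1 H (y k) (m k) (s k)

end

end Pool.Agent.H.MP_dd1c2e_lc.Neg
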