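import Pool.Agent.H.MP_dd1c2e_lc.neg.CertD
import Pool.Agent.H.MP_dd1c2e_lc.neg.TestD
import Pool.Agent.H.MP_dd1c2e_lc.neg.QTest
import Pool.Agent.H.MP_dd1c2e_lc.neg.Hdm
import Pool.Agent.H.MP_dd1c2e_lc.neg.Cheb

/-!
# The address read from the outcomes of the tests (module 13a1)
-/

namespace Pool.Agent.H.MP_dd1c2e_lc.Neg

open Finset

noncomputable section

/-- bit `i` of the address: majority type vote in block `i` -/
def addrOf {c k : ℕ} {I : Type} (m : Fin c × Fin k → Bool × I) : Fin c → Bool := by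
  classical
  exact fun i => decide ((k : ℝ) / 8 ≤ ∑ t : Fin k, sg (m (i, t)).1)

/-- one block, abstract form: outcomes `z κ ∈ Z` with laws `w κ`, scores `s`, block means at least `k / 6` or at most
`k / 12`, threshold `k / 8` -/
lemma addr_gen {Z : Type} [Fintype Z] [DecidableEq Z] {c k : ℕ} (hk0 : 0 < k) (w : Fin c × Fin k → Z → ℝ)
    (hw : ∀ κ z, 0 ≤ w κ z) (hws : ∀ κ, ∑ z, w κ z = 1) (s : Z → ℝ) (hs : ∀ z, s z ^ 2 ≤ 1) (i : Fin c) (b : Bool)
    (hb : if b then (k : ℝ) / 6 ≤ ∑ t : Fin k, ∑ z, w (i, t) z * s z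
      else ∑ t : Fin k, ∑ z, w (i, t) z * s z ≤ (k : ℝ) / 12)
    (E : (Fin c × Fin k → Z) → ℝ)
    (hE : ∀ z, (if b then (k : ℝ) / 8 ≤ ∑ t : Fin k, s (z (i, t)) else ∑ t : Fin k, s (z (i, t)) < (k : ℝ) / 8) →
      E z ≤ 0) (hE1 : ∀ z, E z ≤ 1) :
    ∑ z : Fin c × Fin k → Z, (∏ κ, w κ (z κ)) * E z ≤ 576 / k := by
  have hk : (0 : ℝ) < k := by exact_mod_cast hk0
  let g : Fin c × Fin k → Z → ℝ := fun κ z => if κ.1 = i then s z else 0
  have hV : ∑ κ, ∑ z, w κ z * g κ z ^ 2 ≤ k := by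
    have h3 : ∀ κ : Fin c × Fin k, ∑ z, w κ z * g κ z ^ 2 ≤ if κ.1 = i then 1 else 0 := by
      intro κ
      by_cases hκ : κ.1 = i
      · rw [if_pos hκ, ← hws κ]
        refine Finset.sum_le_sum fun z _ => ?_
        have h4 : g κ z ^ 2 ≤ 1 := by
          show (if κ.1 = i then s z else 0) ^ 2 ≤ 1
          rw [if_pos hκ]
          exact hs z
        calc w κ z * g κ z ^ 2 ≤ w κ z * 1 := mul_le_mul_of_nonneg_left h4 (hw κ z)
          _ = _ := mul_one _
      · rw [if_neg hκ]
        refine le_of_eq (Finset.sum_eq_zero fun z _ => ?_)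
        show w κ z * (if κ.1 = i then s z else 0) ^ 2 = 0
        rw [if_neg hκ]
        ring
    refine (Finset.sum_le_sum fun κ _ => h3 κ).trans (le_of_eq ?_)
    rw [Fintype.sum_prod_type, Finset.sum_eq_single i]
    · simp
    · intro b _ hb
      simp [hb]
    · intro h
      exact absurd (Finset.mem_univ _) h
  have hsum : ∀ z : Fin c × Fin k → Z, ∑ κ, g κ (z κ) = ∑ t : Fin k, s (z (i, t)) := by
    intro z
    rw [Fintype.sum_prod_type]
    show ∑ b : Fin c, ∑ t : Fin k, (if b = i then s (z (b, t)) else 0) = _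
    rw [Finset.sum_eq_single i]
    · simp
    · intro b _ hb
      simp [hb]
    · intro h
      exact absurd (Finset.mem_univ _) h
  have hmean : (∑ κ, ∑ z', w κ z' * g κ z') = ∑ t : Fin k, ∑ z, w (i, t) z * s z := by
    rw [Fintype.sum_prod_type, Finset.sum_eq_single i]
    · refine Finset.sum_congr rfl fun t _ => Finset.sum_congr rfl fun z _ => ?_
      show w (i, t) z * (if i = i then s z else 0) = _
      rw [if_pos rfl]
    · intro b _ hb
      refine Finset.sum_eq_zero fun t _ => Finset.sum_eq_zero fun z _ => ?_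
      show w (b, t) z * (if b = i then s z else 0) = 0
      rw [if_neg hb, mul_zero]
    · intro h
      exact absurd (Finset.mem_univ _) h
  have key := cheb w hw hws g k hV ((k : ℝ) / 24) (by positivity) E hE1 (by
      intro z hz
      apply hE
      rw [hsum, hmean, abs_lt] at hz
      by_cases hj : b = true
      · simp only [hj, if_true] at hb ⊢
        linarith [hz.1]
      · rw [Bool.not_eq_true] at hj
        simp only [hj, Bool.false_eq_true, if_false] at hb ⊢
        linarith [hz.2])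
  have h7 : (k : ℝ) / ((k : ℝ) / 24) ^ 2 = 576 / k := by
    field_simp
    norm_num
  rw [h7] at key
  exact key

theorem addr_prob {a c k : ℕ} (hc : 1 ≤ c) (hk : 14400 * c ≤ k)
    (x y : Fin c × Fin k → (Fin a → Bool) ⊕ (Fin a → Bool) → Bool) (j : Fin c → Bool) (h : Adr hs j x y) :
    24 / 25 ≤ ∑ m : Fin c × Fin k → Bool × (Fin a → Bool),
      if addrOf m = j then ∏ κ, ‖∑ s, u1 (fun j i => (hs j i : ℝ) / Real.sqrt (2 ^ a)) (y κ) (m κ) s * phi1 (x κ) s‖ ^ 2
      else 0 := by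
  classical
  have hk0 : 0 < k := by omega
  have hkr : (0 : ℝ) < k := by exact_mod_cast hk0
  have hcr : (0 : ℝ) < c := by exact_mod_cast hc
  have hcard : (Fintype.card (Fin a → Bool) : ℝ) = 2 ^ a := by
    rw [Fintype.card_fun, Fintype.card_bool, Fintype.card_fin]
    push_cast
    rfl
  obtain ⟨H, hH⟩ : ∃ H : (Fin a → Bool) → (Fin a → Bool) → ℝ, H = fun j i => (hs j i : ℝ) / Real.sqrt (2 ^ a) := ⟨_, rfl⟩
  have hHad : Had (Fin a → Bool) H := by rw [hH]; exact had_hs a
  rw [← hH]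
  obtain ⟨w, hwdef⟩ : ∃ w : Fin c × Fin k → Bool × (Fin a → Bool) → ℝ,
      w = fun κ m => ‖∑ s, u1 H (y κ) m s * phi1 (x κ) s‖ ^ 2 := ⟨_, rfl⟩
  have hwm : ∀ κ m, ‖∑ s, u1 H (y κ) m s * phi1 (x κ) s‖ ^ 2 = w κ m := fun κ m => by rw [hwdef]
  have hw : ∀ κ m, 0 ≤ w κ m := fun κ m => by rw [← hwm]; positivity
  have hbool : ∀ κ (b : Bool), ∑ i, w κ (b, i) = (1 + sg b * forrB H (x κ) (y κ)) / 2 := by
    intro κ b
    rw [← test1 hHad (x κ) (y κ) b]
    exact Finset.sum_congr rfl fun i _ => (hwm κ (b, i)).symm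
  have hws : ∀ κ, ∑ m, w κ m = 1 := by
    intro κ
    rw [Fintype.sum_prod_type, Fintype.sum_bool, hbool, hbool]
    unfold sg
    simp
    ring
  have hmean : ∀ κ, ∑ m, w κ m * sg m.1 = forrB H (x κ) (y κ) := by
    intro κ
    rw [Fintype.sum_prod_type, Fintype.sum_bool]
    show ∑ i, w κ (true, i) * sg true + ∑ i, w κ (false, i) * sg false = _
    rw [← Finset.sum_mul, ← Finset.sum_mul, hbool, hbool]
    unfold sg
    simp
    ring
  simp only [hwm]
  have htot : ∑ m : Fin c × Fin k → Bool × (Fin a → Bool), ∏ κ, w κ (m κ) = 1 := by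
    have := Finset.prod_univ_sum (fun _ : Fin c × Fin k => (univ : Finset (Bool × (Fin a → Bool)))) (fun κ m => w κ m)
    rw [Fintype.piFinset_univ] at this
    rw [← this]
    exact Finset.prod_eq_one fun κ _ => hws κ
  have hprod : ∀ m : Fin c × Fin k → Bool × (Fin a → Bool), 0 ≤ ∏ κ, w κ (m κ) := fun m =>
    Finset.prod_nonneg fun κ _ => hw _ _
  -- the failure of bit `i`
  let e : Fin c → (Fin c × Fin k → Bool × (Fin a → Bool)) → ℝ := fun i m => if addrOf m i = j i then 0 else 1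
  have hblock : ∀ i, ∑ m : Fin c × Fin k → Bool × (Fin a → Bool), (∏ κ, w κ (m κ)) * e i m ≤ 576 / k := by
    intro i
    refine addr_gen hk0 w hw hws (fun m => sg m.1) (fun m => ?_) i (j i) ?_ (e i) (fun m hm => ?_) (fun m => ?_)
    · unfold sg
      cases m.1 <;> norm_num
    · have h1 : ∑ t : Fin k, ∑ z, w (i, t) z * sg z.1 = ∑ t : Fin k, forrB H (x (i, t)) (y (i, t)) :=
        Finset.sum_congr rfl fun t _ => hmean (i, t)
      rw [h1]
      have hb := bsum_forr (hs (a := a)) x y i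
      rw [hcard, ← hH] at hb
      have hi := h i
      unfold cls at hi
      rw [hcard, hb] at hi
      have hpos : 0 < (2 : ℝ) ^ a * Real.sqrt (2 ^ a) := by positivity
      split_ifs at hi ⊢
      · have h2 : (2 : ℝ) ^ a * Real.sqrt (2 ^ a) * (k / 6) ≤ 2 ^ a * Real.sqrt (2 ^ a) *
            ∑ t : Fin k, forrB H (x (i, t)) (y (i, t)) := by
          calc _ = (k : ℝ) * 2 ^ a * Real.sqrt (2 ^ a) / 6 := by ring
            _ ≤ _ := hi
        exact le_of_mul_le_mul_left h2 hpos
      · have h2 : (2 : ℝ) ^ a * Real.sqrt (2 ^ a) * ∑ t : Fin k, forrB H (x (i, t)) (y (i, t)) ≤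
            2 ^ a * Real.sqrt (2 ^ a) * (k / 12) := by
          calc _ ≤ (k : ℝ) * 2 ^ a * Real.sqrt (2 ^ a) / 12 := hi
            _ = _ := by ring
        exact le_of_mul_le_mul_left h2 hpos
    · show (if addrOf m i = j i then (0 : ℝ) else 1) ≤ 0
      rw [if_pos]
      unfold addrOf
      by_cases hj : j i = true
      · rw [hj, if_pos rfl] at hm
        rw [hj]
        exact decide_eq_true hm
      · rw [Bool.not_eq_true] at hj
        rw [hj, if_neg (by simp)] at hm
        rw [hj]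
        exact decide_eq_false (not_le.2 hm)
    · show (if addrOf m i = j i then (0 : ℝ) else 1) ≤ 1
      split_ifs <;> norm_num
  have hpt : ∀ m : Fin c × Fin k → Bool × (Fin a → Bool), (∏ κ, w κ (m κ)) - ∑ i, (∏ κ, w κ (m κ)) * e i m ≤
      if addrOf m = j then ∏ κ, w κ (m κ) else 0 := by
    intro m
    rw [← Finset.mul_sum]
    by_cases hm : addrOf m = j
    · rw [if_pos hm]
      have : 0 ≤ ∑ i, e i m := by
        refine Finset.sum_nonneg fun i _ => ?_
        show (0 : ℝ) ≤ if addrOf m i = j i then 0 else 1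
        split_ifs <;> norm_num
      nlinarith [hprod m]
    · rw [if_neg hm]
      obtain ⟨i, hi⟩ := Function.ne_iff.1 hm
      have h1 : 1 ≤ ∑ i, e i m := by
        have h2 : e i m = 1 := if_neg hi
        rw [← h2]
        refine Finset.single_le_sum (f := fun i => e i m) (fun i _ => ?_) (Finset.mem_univ i)
        show (0 : ℝ) ≤ if addrOf m i = j i then 0 else 1
        split_ifs <;> norm_num
      nlinarith [hprod m]
  have hsumc : ∑ i : Fin c, ∑ m : Fin c × Fin k → Bool × (Fin a → Bool), (∏ κ, w κ (m κ)) * e i m ≤ 1 / 25 := by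
    refine (Finset.sum_le_sum fun i _ => hblock i).trans ?_
    rw [Finset.sum_const, Finset.card_univ, Fintype.card_fin, nsmul_eq_mul]
    have h5 : (14400 : ℝ) * c ≤ k := by exact_mod_cast hk
    rw [mul_div_assoc', div_le_div_iff₀ hkr (by norm_num)]
    linarith
  calc (24 : ℝ) / 25 ≤ 1 - ∑ i : Fin c, ∑ m : Fin c × Fin k → Bool × (Fin a → Bool), (∏ κ, w κ (m κ)) * e i m := by
        linarith
    _ = ∑ m : Fin c × Fin k → Bool × (Fin a → Bool), ((∏ κ, w κ (m κ)) - ∑ i, (∏ κ, w κ (m κ)) * e i m) := by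
        rw [Finset.sum_sub_distrib, htot, Finset.sum_comm]
    _ ≤ _ := Finset.sum_le_sum fun m _ => hpt m

end

end Pool.Agent.H.MP_dd1c2e_lc.Neg
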