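import Mathlib
import Pool.Agent.H.MP_dd1c2e_lc.neg.Base

/-!
# The certificate and the tests: definitions

Copies of the base problem are indexed by `Fin c × Fin k` (block, number in the block).
-/

namespace Pool.Agent.H.MP_dd1c2e_lc.Neg

open Finset

noncomputable section

/-- The signs of the Hadamard matrix. -/
def hs {a : ℕ} (j i : Fin a → Bool) : ℤ := ∏ t, if (j t && i t) then -1 else 1

/-- index set of the vectors: copy, coordinate of the first half, coordinate of the second half -/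
abbrev QI (c k : ℕ) (I : Type) := (Fin c × Fin k) × I × I

/-- sign of a bit in a ring -/
def sz {R : Type} [Ring R] (b : Bool) : R := if b then -1 else 1

/-- vector of one party -/
def vec {c k : ℕ} {I : Type} (R : Type) [CommRing R] (x : Fin c × Fin k → I ⊕ I → Bool) (q : QI c k I) : R :=
  sz (x q.1 (Sum.inl q.2.1)) * sz (x q.1 (Sum.inr q.2.2))

/-- the certificate: the tensor product of the vectors of the two parties -/
def cert {c k : ℕ} {I : Type} (P : ℕ) (x y : Fin c × Fin k → I ⊕ I → Bool) : QI c k I → QI c k I → ZMod P :=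
  fun q q' => vec (ZMod P) x q * vec (ZMod P) y q'

/-- unnormalised sum of the forrelations of a block; `hs j i` are the signs of the matrix -/
def bsum {c k : ℕ} {I : Type} [Fintype I] (hs : I → I → ℤ) (x y : Fin c × Fin k → I ⊕ I → Bool) (i : Fin c) : ℤ :=
  ∑ t : Fin k, ∑ i' : I, ∑ j' : I, hs j' i' * (vec ℤ x ((i, t), i', j') * vec ℤ y ((i, t), i', j'))

/-- the same as a linear functional of the certificate -/
def lin {c k : ℕ} {I : Type} [Fintype I] (P : ℕ) (hs : I → I → ℤ) (W : QI c k I → QI c k I → ZMod P) (i : Fin c) :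
    ZMod P :=
  ∑ t : Fin k, ∑ i' : I, ∑ j' : I, (hs j' i' : ZMod P) * W ((i, t), i', j') ((i, t), i', j')

/-- the class of a block sum: large (`b = true`) or small -/
def cls (k N : ℕ) (b : Bool) (s : ℤ) : Prop :=
  if b then (k : ℝ) * N * Real.sqrt N / 6 ≤ (s : ℝ) else (s : ℝ) ≤ (k : ℝ) * N * Real.sqrt N / 12

/-- the base input has address `j` -/
def Adr {c k : ℕ} {I : Type} [Fintype I] (hs : I → I → ℤ) (j : Fin c → Bool) (x y : Fin c × Fin k → I ⊕ I → Bool) :
    Prop :=
  ∀ i, cls k (Fintype.card I) (j i) (bsum hs x y i)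

/-- class of a residue -/
def clsP (P k N : ℕ) (b : Bool) (σ : ZMod P) : Prop :=
  ∃ s : ℤ, |s| ≤ k * N ^ 2 ∧ (s : ZMod P) = σ ∧ cls k N b s

/-- message of Bob: test point, address, value of his share at the test point, value of his vector at the test point,
his shares of the block sums -/
abbrev Msg (c P : ℕ) := ((ZMod P × ZMod P) × (Fin c → Bool)) × (ZMod P × ZMod P) × (Fin c → ZMod P)

/-- message of Bob for the test point `r` and the address `j` -/
def bobMsg {c k P : ℕ} {I : Type} [Fintype I] (hs : I → I → ℤ) (e : QI c k I → ℕ)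
    (y : (Fin c × Fin k → I ⊕ I → Bool) × ((Fin c → Bool) → QI c k I → QI c k I → ZMod P)) (r : ZMod P × ZMod P)
    (j : Fin c → Bool) : Msg c P :=
  ((r, j), (∑ q, ∑ q', r.1 ^ e q * r.2 ^ e q' * y.2 j q q', ∑ q', r.2 ^ e q' * vec (ZMod P) y.1 q'), lin P hs (y.2 j))

/-- the check of Alice -/
def chk {c k P : ℕ} {I : Type} [Fintype I] (hs : I → I → ℤ) (e : QI c k I → ℕ)
    (x : (Fin c × Fin k → I ⊕ I → Bool) × ((Fin c → Bool) → QI c k I → QI c k I → ZMod P)) (m : Msg c P) : Prop :=
  (∑ q, ∑ q', m.1.1.1 ^ e q * m.1.1.2 ^ e q' * x.2 m.1.2 q q') + m.2.1.1 =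
      (∑ q, m.1.1.1 ^ e q * vec (ZMod P) x.1 q) * m.2.1.2 ∧
    ∀ i, clsP P k (Fintype.card I) (m.1.2 i) (lin P hs (x.2 m.1.2) i + m.2.2 i)

end

end Pool.Agent.H.MP_dd1c2e_lc.Neg
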