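import Mathlib
import Pool.Agent.H.MP_dd1c2e_lc.neg.CertD

/-!
# LOGEQ, module 12: completeness and soundness of the check (helper91)
-/

namespace Pool.Agent.H.MP_dd1c2e_lc.Neg

open Finset

noncomputable section

/-- The value of a vector at a test point. -/
theorem certS_poly {Q F : Type} [Fintype Q] [Field F] (e : Q → ℕ) (u : Q → F) (r : F) :
    (∑ q, Polynomial.C (u q) * Polynomial.X ^ e q).eval r = ∑ q, r ^ e q * u q := by
  rw [Polynomial.eval_finsetSum]
  refine sum_congr rfl fun q _ => ?_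
  rw [Polynomial.eval_mul, Polynomial.eval_C, Polynomial.eval_pow, Polynomial.eval_X, mul_comm]

theorem certS_coeff {Q F : Type} [Fintype Q] [Field F] (e : Q → ℕ) (he : Function.Injective e)
    (u : Q → F) (q0 : Q) : (∑ q, Polynomial.C (u q) * Polynomial.X ^ e q).coeff (e q0) = u q0 := by
  classical
  rw [Polynomial.finsetSum_coeff]
  have h : ∀ q ∈ univ, (Polynomial.C (u q) * Polynomial.X ^ e q).coeff (e q0) =
      if q = q0 then u q0 else 0 := by
    intro q _
    rw [Polynomial.coeff_C_mul_X_pow]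
    by_cases hq : q = q0
    · subst hq
      simp
    · rw [if_neg hq, if_neg fun h => hq (he h.symm)]
  rw [sum_congr rfl h]
  simp

/-- A nonzero sum `∑ r ^ e q * u q` vanishes at fewer than `D` points. -/
theorem certS_roots {Q F : Type} [Fintype Q] [Field F] [DecidableEq F] {D : ℕ} (e : Q → ℕ)
    (he : Function.Injective e) (heD : ∀ q, e q < D) (u : Q → F) (hu : ∃ q, u q ≠ 0)
    (S : Finset F) (hS : ∀ r ∈ S, ∑ q, r ^ e q * u q = 0) : S.card ≤ D := by
  obtain ⟨q0, hq0⟩ := hu
  set p : Polynomial F := ∑ q, Polynomial.C (u q) * Polynomial.X ^ e q with hp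
  have hp0 : p ≠ 0 := by
    intro h
    have h1 := certS_coeff e he u q0
    rw [← hp, h, Polynomial.coeff_zero] at h1
    exact hq0 h1.symm
  have hdeg : p.natDegree ≤ D := by
    rw [hp]
    refine Polynomial.natDegree_sum_le_of_forall_le _ _ fun q _ => ?_
    exact (Polynomial.natDegree_C_mul_X_pow_le _ _).trans (heD q).le
  have hsub : S ⊆ p.roots.toFinset := by
    intro r hr
    rw [Multiset.mem_toFinset, Polynomial.mem_roots hp0, Polynomial.IsRoot.def, hp, certS_poly]
    exact hS r hr
  exact (card_le_card hsub).trans ((Multiset.toFinset_card_le _).trans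
    ((Polynomial.card_roots' p).trans hdeg))

/-- The two variable version. -/
theorem certS_two {Q F : Type} [Fintype Q] [Field F] [Fintype F] [DecidableEq F] {D : ℕ} (e : Q → ℕ)
    (he : Function.Injective e) (heD : ∀ q, e q < D) (W : Q → Q → F) (hW : ∃ q q', W q q' ≠ 0)
    (B : Finset (F × F)) (hB : ∀ r ∈ B, ∑ q, ∑ q', r.1 ^ e q * r.2 ^ e q' * W q q' = 0) :
    B.card ≤ 2 * D * Fintype.card F := by
  obtain ⟨q0, q1, hq⟩ := hW
  -- bad second coordinates
  set R : Finset F := univ.filter fun r2 => ∑ q', r2 ^ e q' * W q0 q' = 0 with hR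
  have hRc : R.card ≤ D :=
    certS_roots e he heD (fun q' => W q0 q') ⟨q1, hq⟩ R fun r hr => (mem_filter.1 hr).2
  have h1 : (B.filter fun r => r.2 ∈ R).card ≤ Fintype.card F * D := by
    have hs : (B.filter fun r => r.2 ∈ R) ⊆ univ ×ˢ R := by
      intro r hr
      rw [mem_product]
      exact ⟨mem_univ _, (mem_filter.1 hr).2⟩
    refine (card_le_card hs).trans ?_
    rw [card_product, card_univ]
    exact Nat.mul_le_mul_left _ hRc
  have h2 : (B.filter fun r => ¬ r.2 ∈ R).card ≤ D * Fintype.card F := by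
    have h3 := card_eq_sum_card_fiberwise (f := Prod.snd) (s := B.filter fun r => ¬ r.2 ∈ R)
      (t := (univ : Finset F)) (fun _ _ => mem_coe.2 (mem_univ _))
    rw [h3]
    have h4 : ∀ r2 ∈ (univ : Finset F),
        ((B.filter fun r => ¬ r.2 ∈ R).filter fun r => r.2 = r2).card ≤ D := by
      intro r2 _
      by_cases hr2 : r2 ∈ R
      · have h5 : ((B.filter fun r => ¬ r.2 ∈ R).filter fun r => r.2 = r2) = ∅ := by
          rw [filter_eq_empty_iff]
          intro r hr h6
          rw [mem_filter, h6] at hr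
          exact hr.2 hr2
        rw [h5]
        exact Nat.zero_le _
      · have h6 : ((B.filter fun r => ¬ r.2 ∈ R).filter fun r => r.2 = r2).card =
            (((B.filter fun r => ¬ r.2 ∈ R).filter fun r => r.2 = r2).image Prod.fst).card := by
          rw [card_image_of_injOn]
          intro a ha b hb hab
          rw [mem_coe, mem_filter] at ha hb
          exact Prod.ext hab (ha.2.trans hb.2.symm)
        rw [h6]
        refine certS_roots e he heD (fun q => ∑ q', r2 ^ e q' * W q q') ⟨q0, ?_⟩ _ ?_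
        · intro h7
          exact hr2 (mem_filter.2 ⟨mem_univ _, h7⟩)
        · intro r1 hr1
          rw [mem_image] at hr1
          obtain ⟨r, hr, rfl⟩ := hr1
          rw [mem_filter, mem_filter] at hr
          have h8 := hB r hr.1.1
          rw [← h8]
          refine sum_congr rfl fun q _ => ?_
          rw [mul_sum]
          refine sum_congr rfl fun q' _ => ?_
          rw [hr.2]
          ring
    refine (sum_le_sum h4).trans ?_
    rw [sum_const, card_univ, smul_eq_mul, mul_comm]
  have h3 := card_filter_add_card_filter_not (s := B) (fun r => r.2 ∈ R)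
  have h4 : B.card ≤ Fintype.card F * D + D * Fintype.card F := by omega
  refine h4.trans (le_of_eq ?_)
  ring

/-- The bilinear test. -/
theorem certS_test {c k P : ℕ} {I : Type} [Fintype I] [Fact P.Prime] (e : QI c k I → ℕ)
    (x y : Fin c × Fin k → I ⊕ I → Bool) (U V : QI c k I → QI c k I → ZMod P) (r : ZMod P × ZMod P) :
    (∑ q, ∑ q', r.1 ^ e q * r.2 ^ e q' * (U q q' + V q q' - cert P x y q q')) =
      (∑ q, ∑ q', r.1 ^ e q * r.2 ^ e q' * U q q') + (∑ q, ∑ q', r.1 ^ e q * r.2 ^ e q' * V q q') -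
        (∑ q, r.1 ^ e q * vec (ZMod P) x q) * ∑ q', r.2 ^ e q' * vec (ZMod P) y q' := by
  rw [sum_mul_sum]
  simp only [← sum_add_distrib, ← sum_sub_distrib]
  refine sum_congr rfl fun q _ => sum_congr rfl fun q' _ => ?_
  simp only [cert]
  ring

theorem certS_sz_cast (P : ℕ) (b : Bool) : ((sz b : ℤ) : ZMod P) = (sz b : ZMod P) := by
  cases b <;> simp [sz]

theorem certS_vec_cast {c k : ℕ} {I : Type} (P : ℕ) (x : Fin c × Fin k → I ⊕ I → Bool) (q : QI c k I) :
    ((vec ℤ x q : ℤ) : ZMod P) = vec (ZMod P) x q := by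
  simp [vec, certS_sz_cast]

theorem certS_lin_add {c k P : ℕ} {I : Type} [Fintype I] (hs : I → I → ℤ)
    (U V : QI c k I → QI c k I → ZMod P) (i : Fin c) :
    lin P hs U i + lin P hs V i = lin P hs (U + V) i := by
  simp only [lin, ← sum_add_distrib]
  refine sum_congr rfl fun t _ => sum_congr rfl fun i' _ => sum_congr rfl fun j' _ => ?_
  simp only [Pi.add_apply]
  ring

theorem certS_lin_cert {c k P : ℕ} {I : Type} [Fintype I] (hs : I → I → ℤ)
    (x y : Fin c × Fin k → I ⊕ I → Bool) (i : Fin c) :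
    lin P hs (cert P x y) i = ((bsum hs x y i : ℤ) : ZMod P) := by
  simp only [lin, bsum, cert, Int.cast_sum, Int.cast_mul, certS_vec_cast]

theorem certS_abs_sz (b : Bool) : |(sz b : ℤ)| = 1 := by
  cases b <;> simp [sz]

theorem certS_abs_bsum {c k : ℕ} {I : Type} [Fintype I] {hs : I → I → ℤ} (hh : ∀ j i, |hs j i| ≤ 1)
    (x y : Fin c × Fin k → I ⊕ I → Bool) (i : Fin c) :
    |bsum hs x y i| ≤ k * (Fintype.card I : ℤ) ^ 2 := by
  have h1 : ∀ (t : Fin k) (i' j' : I),
      |hs j' i' * (vec ℤ x ((i, t), i', j') * vec ℤ y ((i, t), i', j'))| ≤ 1 := by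
    intro t i' j'
    rw [abs_mul]
    have h2 : |vec ℤ x ((i, t), i', j') * vec ℤ y ((i, t), i', j')| = 1 := by
      simp only [vec, abs_mul, certS_abs_sz, mul_one]
    rw [h2, mul_one]
    exact hh _ _
  have h3 : |bsum hs x y i| ≤ ∑ t : Fin k, ∑ i' : I, ∑ j' : I, (1 : ℤ) := by
    refine (abs_sum_le_sum_abs _ _).trans (sum_le_sum fun t _ => ?_)
    refine (abs_sum_le_sum_abs _ _).trans (sum_le_sum fun i' _ => ?_)
    exact (abs_sum_le_sum_abs _ _).trans (sum_le_sum fun j' _ => h1 t i' j')
  refine h3.trans (le_of_eq ?_)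
  simp only [sum_const, card_univ, Fintype.card_fin, nsmul_eq_mul, mul_one]
  ring

/-- completeness: a valid cell passes every test -/
theorem chk_complete {c k P : ℕ} {I : Type} [Fintype I] {hs : I → I → ℤ} (hh : ∀ j i, |hs j i| ≤ 1) (e : QI c k I → ℕ)
    (x y : (Fin c × Fin k → I ⊕ I → Bool) × ((Fin c → Bool) → QI c k I → QI c k I → ZMod P)) (j : Fin c → Bool)
    (h1 : x.2 j + y.2 j = cert P x.1 y.1) (h2 : Adr hs j x.1 y.1) (r : ZMod P × ZMod P) :
    chk hs e x (bobMsg hs e y r j) := by
  constructor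
  · simp only [bobMsg]
    rw [sum_mul_sum, ← sum_add_distrib]
    refine sum_congr rfl fun q _ => ?_
    rw [← sum_add_distrib]
    refine sum_congr rfl fun q' _ => ?_
    have h3 := congrFun (congrFun h1 q) q'
    simp only [Pi.add_apply, cert] at h3
    rw [← mul_add, h3]
    ring
  · intro i
    simp only [bobMsg]
    refine ⟨bsum hs x.1 y.1 i, ?_, ?_, h2 i⟩
    · exact certS_abs_bsum hh x.1 y.1 i
    · rw [certS_lin_add, h1, certS_lin_cert]

/-- soundness: an invalid cell passes at most `2 D P` of the `P ^ 2` tests -/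
theorem chk_sound {c k P : ℕ} [Fact P.Prime] {I : Type} [Fintype I] {hs : I → I → ℤ} (hh : ∀ j i, |hs j i| ≤ 1)
    {D : ℕ} (e : QI c k I → ℕ) (he : Function.Injective e) (heD : ∀ q, e q < D)
    (hP : 2 * (k * Fintype.card I ^ 2) < P)
    (x y : (Fin c × Fin k → I ⊕ I → Bool) × ((Fin c → Bool) → QI c k I → QI c k I → ZMod P)) (j : Fin c → Bool)
    (h : ¬ (x.2 j + y.2 j = cert P x.1 y.1 ∧ Adr hs j x.1 y.1)) (B : Finset (ZMod P × ZMod P))
    (hB : ∀ r ∈ B, chk hs e x (bobMsg hs e y r j)) : B.card ≤ 2 * D * P := by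
  classical
  by_cases h1 : x.2 j + y.2 j = cert P x.1 y.1
  · -- the content is the certificate: the class check fails always
    rcases B.eq_empty_or_nonempty with hBe | ⟨r, hr⟩
    · rw [hBe, card_empty]
      exact Nat.zero_le _
    exfalso
    refine h ⟨h1, fun i => ?_⟩
    obtain ⟨s, hs1, hs2, hs3⟩ := (hB r hr).2 i
    simp only [bobMsg] at hs2 hs3
    rw [certS_lin_add, h1, certS_lin_cert] at hs2
    have h2 := certS_abs_bsum hh x.1 y.1 i
    have h3 : s = bsum hs x.1 y.1 i := by
      have h4 : ((s - bsum hs x.1 y.1 i : ℤ) : ZMod P) = 0 := by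
        push_cast
        rw [hs2, sub_self]
      rw [ZMod.intCast_zmod_eq_zero_iff_dvd] at h4
      by_contra hne
      have h5 : s - bsum hs x.1 y.1 i ≠ 0 := sub_ne_zero.2 hne
      have h6 := Int.le_of_dvd (abs_pos.2 h5) ((dvd_abs _ _).2 h4)
      have h7 : |s - bsum hs x.1 y.1 i| ≤ 2 * (k * (Fintype.card I : ℤ) ^ 2) := by
        have := abs_sub s (bsum hs x.1 y.1 i)
        linarith
      have h8 : (2 * (k * (Fintype.card I : ℤ) ^ 2)) < P := by exact_mod_cast hP
      linarith
    rw [← h3]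
    exact hs3
  · -- the content is not the certificate
    have hW : ∃ q q', x.2 j q q' + y.2 j q q' - cert P x.1 y.1 q q' ≠ 0 := by
      by_contra hc
      push Not at hc
      apply h1
      funext q q'
      exact sub_eq_zero.1 (hc q q')
    have h2 := certS_two e he heD (fun q q' => x.2 j q q' + y.2 j q q' - cert P x.1 y.1 q q') hW B ?_
    · rwa [ZMod.card] at h2
    · intro r hr
      have h3 := (hB r hr).1
      simp only [bobMsg] at h3
      rw [certS_test e x.1 y.1 (x.2 j) (y.2 j) r, h3, sub_self]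

end

end Pool.Agent.H.MP_dd1c2e_lc.Neg
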