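import Pool.Agent.H.MP_dd1c2e_lc.neg.QOne
import Pool.Agent.H.MP_dd1c2e_lc.neg.QTest
import Pool.Agent.H.MP_dd1c2e_lc.neg.Hdm
import Pool.Agent.H.MP_dd1c2e_lc.neg.AddrP
import Pool.Agent.H.MP_dd1c2e_lc.neg.Cert

/-!
# LOGEQ, module 13a: the quantum protocol for the lookup function
-/

set_option autoImplicit false

namespace Pool.Agent.H.MP_dd1c2e_lc.Neg

open Finset

noncomputable section

/-- the success probability, abstractly -/
theorem up_abs {X Y S M R W : Type} [Fintype S] [Fintype M] [Fintype R] [Nonempty R] (F : X → Y → Bool)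
    (φ : X → S → ℂ) (U : Y → M → S → ℂ) (hp : ∀ x y, ∑ m, ‖∑ s, U y m s * φ x s‖ ^ 2 = 1)
    (J : Type) [DecidableEq J] (ad : M → J) (msg : Y → R → J → W) (out : X → W → Bool)
    (h1 : ∀ x y, F x y = true → ∃ j, 24 / 25 ≤ ∑ m, (if ad m = j then ‖∑ s, U y m s * φ x s‖ ^ 2 else 0) ∧
      ∀ r, out x (msg y r j) = true)
    (h0 : ∀ x y, F x y = false → ∀ j,
      3 * (univ.filter fun r => out x (msg y r j) = true).card ≤ Fintype.card R) (x : X) (y : Y) :
    2 / 3 ≤ av (fun r : R => ∑ m, if out x (msg y r (ad m)) = F x y then ‖∑ s, U y m s * φ x s‖ ^ 2 else 0) := by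
  obtain ⟨p, hpe⟩ : ∃ p : M → ℝ, p = fun m => ‖∑ s, U y m s * φ x s‖ ^ 2 := ⟨_, rfl⟩
  have hp0 : ∀ m, 0 ≤ p m := fun m => by rw [hpe]; positivity
  have hp1 : ∑ m, p m = 1 := by rw [hpe]; exact hp x y
  have hR : (0 : ℝ) < Fintype.card R := by exact_mod_cast Fintype.card_pos
  have hgoal : ∀ r : R, (∑ m, if out x (msg y r (ad m)) = F x y then ‖∑ s, U y m s * φ x s‖ ^ 2 else 0) =
      ∑ m, if out x (msg y r (ad m)) = F x y then p m else 0 := by
    intro r
    rw [hpe]
  simp only [hgoal]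
  unfold av
  rw [le_div_iff₀ hR]
  cases hF : F x y
  · -- false
    rw [Finset.sum_comm]
    have h2 : ∀ m, 2 / 3 * (Fintype.card R : ℝ) * p m ≤
        ∑ r : R, if out x (msg y r (ad m)) = false then p m else 0 := by
      intro m
      have h3 := h0 x y hF (ad m)
      have h4 : ∑ r : R, (if out x (msg y r (ad m)) = false then p m else 0) =
          ((univ.filter fun r : R => out x (msg y r (ad m)) = false).card : ℝ) * p m := by
        rw [← Finset.sum_filter, Finset.sum_const, nsmul_eq_mul]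
      have h5 : (univ.filter fun r : R => out x (msg y r (ad m)) = true).card +
          (univ.filter fun r : R => out x (msg y r (ad m)) = false).card = Fintype.card R := by
        have h6 := Finset.card_filter_add_card_filter_not (s := (univ : Finset R))
          (fun r => out x (msg y r (ad m)) = true)
        rw [Finset.card_univ] at h6
        rw [← h6]
        congr 2
        apply Finset.filter_congr
        intro r _
        simp
      rw [h4]
      apply mul_le_mul_of_nonneg_right _ (hp0 m)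
      have h7 : (3 : ℝ) * ((univ.filter fun r : R => out x (msg y r (ad m)) = true).card : ℝ) ≤ Fintype.card R := by
        exact_mod_cast h3
      have h8 : (((univ.filter fun r : R => out x (msg y r (ad m)) = true).card : ℕ) : ℝ) +
          ((univ.filter fun r : R => out x (msg y r (ad m)) = false).card : ℝ) = Fintype.card R := by
        exact_mod_cast h5
      linarith
    calc 2 / 3 * (Fintype.card R : ℝ) = ∑ m, 2 / 3 * (Fintype.card R : ℝ) * p m := by
          rw [← Finset.mul_sum, hp1, mul_one]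
      _ ≤ _ := sum_le_sum fun m _ => h2 m
  · -- true
    obtain ⟨j, hj, ho⟩ := h1 x y hF
    have h2 : ∀ r : R, 24 / 25 ≤ ∑ m, if out x (msg y r (ad m)) = true then p m else 0 := by
      intro r
      refine hj.trans (sum_le_sum fun m _ => ?_)
      by_cases h3 : ad m = j
      · rw [if_pos h3, h3, if_pos (ho r), hpe]
      · rw [if_neg h3]
        split_ifs
        · exact hp0 m
        · exact le_rfl
    calc 2 / 3 * (Fintype.card R : ℝ) ≤ 24 / 25 * (Fintype.card R : ℝ) := by
          apply mul_le_mul_of_nonneg_right _ hR.le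
          norm_num
      _ = ∑ _r : R, (24 / 25 : ℝ) := by
          rw [Finset.sum_const, Finset.card_univ, nsmul_eq_mul, mul_comm]
      _ ≤ _ := sum_le_sum fun r _ => h2 r

theorem up_abs2 {X Y S M R : Type} [Fintype S] [Fintype M] [Fintype R] [Nonempty R] (F : X → Y → Bool) (k1 k2 : ℕ)
    (e : S ≃ (Fin k1 → Bool)) (φ : X → S → ℂ) (hφ : ∀ x, ∑ s, ‖φ x s‖ ^ 2 = 1) (U : Y → M → S → ℂ)
    (hU : ∀ y, IsIsometry (U y)) (J : Type) [DecidableEq J] (ad : M → J) (msg : Y → R → J → Fin k2 → Bool)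
    (out : X → (Fin k2 → Bool) → Bool)
    (h1 : ∀ x y, F x y = true → ∃ j, 24 / 25 ≤ ∑ m, (if ad m = j then ‖∑ s, U y m s * φ x s‖ ^ 2 else 0) ∧
      ∀ r, out x (msg y r j) = true)
    (h0 : ∀ x y, F x y = false → ∀ j,
      3 * (univ.filter fun r => out x (msg y r j) = true).card ≤ Fintype.card R) :
    QuantumComputes0 F (k1 + k2 + 2) := by
  refine q_one_round (R := R) k1 k2 e φ hφ U hU (fun y r m => msg y r (ad m)) out F ?_
  refine up_abs F φ U ?_ J ad msg out h1 h0
  intro x y
  rw [hU y, hφ x]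

theorem up_LF {A B J Γ : Type} [Add Γ] (cert : A → B → Γ) (Pd : J → A → B → Prop) (x : A × (J → Γ))
    (y : B × (J → Γ)) : LF cert Pd x y = true ↔ ∃ j, x.2 j + y.2 j = cert x.1 y.1 ∧ Pd j x.1 y.1 := by
  unfold LF
  exact @decide_eq_true_iff _ (Classical.propDecidable _)

/-- a proposition as a bit -/
def up_dec (p : Prop) : Bool := @decide p (Classical.propDecidable p)

theorem up_dec_iff (p : Prop) : up_dec p = true ↔ p := by
  unfold up_dec
  exact @decide_eq_true_iff p (Classical.propDecidable p)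

/-- the output of Alice for the encoded message `w` -/
def up_out {c k P : ℕ} {I W : Type} [Fintype I] (hs : I → I → ℤ) (e : QI c k I → ℕ) (enc : Msg c P → W)
    (x : (Fin c × Fin k → I ⊕ I → Bool) × ((Fin c → Bool) → QI c k I → QI c k I → ZMod P)) (w : W) : Bool :=
  up_dec (∃ m : Msg c P, enc m = w ∧ chk hs e x m)

theorem up_out_iff {c k P : ℕ} {I W : Type} [Fintype I] (hs : I → I → ℤ) (e : QI c k I → ℕ) (enc : Msg c P → W)
    (henc : Function.Injective enc)
    (x : (Fin c × Fin k → I ⊕ I → Bool) × ((Fin c → Bool) → QI c k I → QI c k I → ZMod P)) (m : Msg c P) :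
    up_out hs e enc x (enc m) = true ↔ chk hs e x m := by
  unfold up_out
  rw [up_dec_iff]
  constructor
  · rintro ⟨m', h1, h2⟩
    rw [← henc h1]
    exact h2
  · intro h
    exact ⟨m, rfl, h⟩

theorem up_msg_card (c P L : ℕ) [NeZero P] (hL : P ≤ 2 ^ L) :
    Fintype.card (Msg c P) ≤ Fintype.card (Fin (c + (4 + c) * L) → Bool) := by
  have h1 : Fintype.card (Msg c P) = (P * P * 2 ^ c) * (P * P * P ^ c) := by
    simp [Msg, ZMod.card]
  rw [h1]
  have h2 : Fintype.card (Fin (c + (4 + c) * L) → Bool) = 2 ^ c * (2 ^ L) ^ (4 + c) := by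
    rw [Fintype.card_fun, Fintype.card_bool, Fintype.card_fin, pow_add, mul_comm (4 + c) L, pow_mul]
  rw [h2]
  calc (P * P * 2 ^ c) * (P * P * P ^ c) = 2 ^ c * P ^ (4 + c) := by ring
    _ ≤ 2 ^ c * (2 ^ L) ^ (4 + c) := Nat.mul_le_mul_left _ (Nat.pow_le_pow_left hL _)

theorem q_upper (a c k P L : ℕ) [Fact P.Prime] (hc : 1 ≤ c) (hk : 14400 * c ≤ k) (hP : 2 * (k * (2 ^ a) ^ 2) < P)
    (hP2 : 6 * (c * k * (2 ^ a) ^ 2) ≤ P) (hL : P ≤ 2 ^ L) :
    QuantumComputes0 (LF (A := Fin c × Fin k → (Fin a → Bool) ⊕ (Fin a → Bool) → Bool)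
      (B := Fin c × Fin k → (Fin a → Bool) ⊕ (Fin a → Bool) → Bool) (J := Fin c → Bool) (cert P) (Adr hs))
      (c * k * (a + 1) + (c + (4 + c) * L) + 2) := by
  have : NeZero P := ⟨(Fact.out : P.Prime).ne_zero⟩
  have hI : Fintype.card (Fin a → Bool) = 2 ^ a := by simp
  have hPpos : 0 < P := (Fact.out : P.Prime).pos
  obtain ⟨emb⟩ : Nonempty (Msg c P ↪ (Fin (c + (4 + c) * L) → Bool)) :=
    Function.Embedding.nonempty_of_card_le (up_msg_card c P L hL)
  have hS : Fintype.card (Fin c × Fin k → Bool × (Fin a → Bool)) =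
      Fintype.card (Fin (c * k * (a + 1)) → Bool) := by
    simp only [Fintype.card_fun, Fintype.card_prod, Fintype.card_bool, Fintype.card_fin]
    rw [← pow_succ', ← pow_mul]
    congr 1
    ring
  have eS : (Fin c × Fin k → Bool × (Fin a → Bool)) ≃ (Fin (c * k * (a + 1)) → Bool) :=
    Fintype.equivOfCardEq hS
  obtain ⟨e, he⟩ : ∃ e : QI c k (Fin a → Bool) → ℕ, e = fun q => ((Fintype.equivFin (QI c k (Fin a → Bool)) q : Fin _) : ℕ) :=
    ⟨_, rfl⟩
  have heinj : Function.Injective e := by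
    rw [he]
    exact Fin.val_injective.comp (Fintype.equivFin _).injective
  have heD : ∀ q, e q < Fintype.card (QI c k (Fin a → Bool)) := by
    intro q
    rw [he]
    exact (Fintype.equivFin (QI c k (Fin a → Bool)) q).2
  have hD : Fintype.card (QI c k (Fin a → Bool)) = c * k * (2 ^ a) ^ 2 := by
    simp only [Fintype.card_prod, Fintype.card_fin, hI]
    ring
  obtain ⟨ms, hms⟩ : ∃ ms : (Fin c × Fin k → (Fin a → Bool) ⊕ (Fin a → Bool) → Bool) ×
      ((Fin c → Bool) → QI c k (Fin a → Bool) → QI c k (Fin a → Bool) → ZMod P) → ZMod P × ZMod P → (Fin c → Bool) →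
      (Fin (c + (4 + c) * L) → Bool), ms = fun y r j => emb (bobMsg hs e y r j) := ⟨_, rfl⟩
  obtain ⟨ot, hot⟩ : ∃ ot : (Fin c × Fin k → (Fin a → Bool) ⊕ (Fin a → Bool) → Bool) ×
      ((Fin c → Bool) → QI c k (Fin a → Bool) → QI c k (Fin a → Bool) → ZMod P) →
      (Fin (c + (4 + c) * L) → Bool) → Bool, ot = up_out hs e emb := ⟨_, rfl⟩
  have hout : ∀ x y r j, ot x (ms y r j) = true ↔ chk hs e x (bobMsg hs e y r j) := by
    intro x y r j
    rw [hot, hms]
    exact up_out_iff hs e emb emb.injective x _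
  refine up_abs2 (R := ZMod P × ZMod P) _ _ _ eS (fun x s => phiN x.1 s) (fun x => phiN_norm x.1)
    (fun y m s => uN (fun j i => (hs j i : ℝ) / Real.sqrt (2 ^ a)) y.1 m s) (fun y => uN_iso (had_hs a) y.1)
    (Fin c → Bool) addrOf ms ot ?_ ?_
  · intro x y hF
    rw [up_LF] at hF
    obtain ⟨j, h1, h2⟩ := hF
    refine ⟨j, ?_, ?_⟩
    · have h3 := addr_prob hc hk x.1 y.1 j h2
      refine h3.trans (le_of_eq (sum_congr rfl fun m _ => ?_))
      rw [testN]
    · intro r
      rw [hout]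
      exact chk_complete (fun j i => (hs_abs j i).le) e x y j h1 h2 r
  · intro x y hF j
    have h1 : ¬ (x.2 j + y.2 j = cert P x.1 y.1 ∧ Adr hs j x.1 y.1) := by
      intro h
      have h4 := (up_LF (cert P) (Adr hs) x y).2 ⟨j, h.1, h.2⟩
      rw [hF] at h4
      exact absurd h4 (by decide)
    have h2 := chk_sound (fun j i => (hs_abs j i).le) e heinj heD (by rw [hI]; exact hP) x y j h1
      (univ.filter fun r : ZMod P × ZMod P => ot x (ms y r j) = true)
      (by
        intro r hr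
        rw [mem_filter] at hr
        exact (hout x y r j).1 hr.2)
    rw [hD] at h2
    have h3 : Fintype.card (ZMod P × ZMod P) = P * P := by
      rw [Fintype.card_prod, ZMod.card]
    rw [h3]
    calc 3 * _ ≤ 3 * (2 * (c * k * (2 ^ a) ^ 2) * P) := Nat.mul_le_mul_left 3 h2
      _ = 6 * (c * k * (2 ^ a) ^ 2) * P := by ring
      _ ≤ P * P := Nat.mul_le_mul_right P hP2

end

end Pool.Agent.H.MP_dd1c2e_lc.Neg
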