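import Pool.Agent.H.MP_dd1c2e_lc.neg.CertD
import Pool.Agent.H.MP_dd1c2e_lc.neg.Hdm
import Pool.Agent.H.MP_dd1c2e_lc.neg.Cheb

/-!
# Under the product laws the base input has the right address (module 13b2)
-/

namespace Pool.Agent.H.MP_dd1c2e_lc.Neg

open Finset

noncomputable section

/-- the forrelation of a pair of inputs is at most one in absolute value -/
lemma fail_abs {I : Type} [Fintype I] [Nonempty I] [DecidableEq I] {H : I → I → ℝ} (hH : Had I H)
    (x y : I ⊕ I → Bool) : |forrB H x y| ≤ 1 := by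
  have hN : (0 : ℝ) < Fintype.card I := by exact_mod_cast Fintype.card_pos
  unfold forrB forr
  set u : I → ℝ := fun i => sg (x (Sum.inl i)) * sg (y (Sum.inl i)) with hu
  set v : I → ℝ := fun j => sg (x (Sum.inr j)) * sg (y (Sum.inr j)) with hv
  have husq : ∀ i, u i ^ 2 = 1 := by
    intro i
    simp only [hu, sg]
    cases x (Sum.inl i) <;> cases y (Sum.inl i) <;> norm_num
  have hvsq : ∀ i, v i ^ 2 = 1 := by
    intro i
    simp only [hv, sg]
    cases x (Sum.inr i) <;> cases y (Sum.inr i) <;> norm_num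
  have h1 : ∑ j, ∑ i, H j i * u i * v j = ∑ j, (∑ i, H j i * u i) * v j :=
    Finset.sum_congr rfl fun j _ => (Finset.sum_mul _ _ _).symm
  have h2 : ∑ j, (∑ i, H j i * u i) ^ 2 = Fintype.card I := by
    have h3 : ∀ j, (∑ i, H j i * u i) ^ 2 = ∑ i, ∑ i', (H j i * H j i') * (u i * u i') := by
      intro j
      rw [sq, Finset.sum_mul_sum]
      exact Finset.sum_congr rfl fun i _ => Finset.sum_congr rfl fun i' _ => by ring
    rw [Finset.sum_congr rfl fun j _ => h3 j, Finset.sum_comm]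
    have h4 : ∀ i, ∑ j, ∑ i', (H j i * H j i') * (u i * u i') = 1 := by
      intro i
      rw [Finset.sum_comm]
      have h5 : ∀ i', ∑ j, (H j i * H j i') * (u i * u i') = (if i = i' then 1 else 0) * (u i * u i') := by
        intro i'
        rw [← Finset.sum_mul, hH.col]
      rw [Finset.sum_congr rfl fun i' _ => h5 i']
      simp only [ite_mul, one_mul, zero_mul, Finset.sum_ite_eq, Finset.mem_univ, if_true]
      rw [← sq, husq]
    rw [Finset.sum_congr rfl fun i _ => h4 i]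
    simp
  have h6 : (∑ j, (∑ i, H j i * u i) * v j) ^ 2 ≤ (Fintype.card I : ℝ) ^ 2 := by
    refine (Finset.sum_mul_sq_le_sq_mul_sq _ _ _).trans ?_
    rw [h2, Finset.sum_congr rfl fun j _ => hvsq j]
    simp [sq]
  have h7 : |∑ j, (∑ i, H j i * u i) * v j| ≤ Fintype.card I := abs_le_of_sq_le_sq h6 hN.le
  show |(∑ j, ∑ i, H j i * u i * v j) / (Fintype.card I : ℝ)| ≤ 1
  rw [h1, abs_div, abs_of_pos hN, div_le_one hN]
  exact h7

/-- one block, for an abstract bounded function `F` of a pair of inputs -/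
lemma fail_gen {S : Type} [Fintype S] [DecidableEq S] {c k : ℕ} (hk0 : 0 < k) (w1 w0 : S → S → ℝ)
    (h1 : ∀ x y, 0 ≤ w1 x y) (h0 : ∀ x y, 0 ≤ w0 x y) (s1 : ∑ x, ∑ y, w1 x y = 1) (s0 : ∑ x, ∑ y, w0 x y = 1)
    (F : S → S → ℝ) (hF : ∀ x y, |F x y| ≤ 1) (m1 : 1 / 4 ≤ ∑ x, ∑ y, w1 x y * F x y)
    (m0 : ∑ x, ∑ y, w0 x y * F x y = 0) (j : Fin c → Bool) (i : Fin c)
    (E : (Fin c × Fin k → S) → (Fin c × Fin k → S) → ℝ)
    (hE : ∀ x y, (if j i then (k : ℝ) / 6 ≤ ∑ t : Fin k, F (x (i, t)) (y (i, t))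
      else ∑ t : Fin k, F (x (i, t)) (y (i, t)) ≤ (k : ℝ) / 12) → E x y ≤ 0) (hE1 : ∀ x y, E x y ≤ 1) :
    ∑ x, ∑ y, (∏ κ : Fin c × Fin k, (if j κ.1 then w1 else w0) (x κ) (y κ)) * E x y ≤ 144 / k := by
  have hk : (0 : ℝ) < k := by exact_mod_cast hk0
  -- the product law on pairs
  let w : Fin c × Fin k → S × S → ℝ := fun κ z => (if j κ.1 then w1 else w0) z.1 z.2
  let g : Fin c × Fin k → S × S → ℝ := fun κ z => if κ.1 = i then F z.1 z.2 else 0
  have hw0 : ∀ κ z, 0 ≤ w κ z := by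
    intro κ z
    show 0 ≤ (if j κ.1 then w1 else w0) z.1 z.2
    split_ifs
    · exact h1 _ _
    · exact h0 _ _
  have hws : ∀ κ, ∑ z, w κ z = 1 := by
    intro κ
    rw [Fintype.sum_prod_type]
    show ∑ x, ∑ y, (if j κ.1 then w1 else w0) x y = 1
    split_ifs
    · exact s1
    · exact s0
  have hV : ∑ κ, ∑ z, w κ z * g κ z ^ 2 ≤ k := by
    have h3 : ∀ κ : Fin c × Fin k, ∑ z, w κ z * g κ z ^ 2 ≤ if κ.1 = i then 1 else 0 := by
      intro κ
      by_cases hκ : κ.1 = i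
      · rw [if_pos hκ, ← hws κ]
        refine Finset.sum_le_sum fun z _ => ?_
        have h4 : g κ z ^ 2 ≤ 1 := by
          show (if κ.1 = i then F z.1 z.2 else 0) ^ 2 ≤ 1
          rw [if_pos hκ, sq_le_one_iff_abs_le_one]
          exact hF _ _
        calc w κ z * g κ z ^ 2 ≤ w κ z * 1 := mul_le_mul_of_nonneg_left h4 (hw0 κ z)
          _ = _ := mul_one _
      · rw [if_neg hκ]
        refine le_of_eq (Finset.sum_eq_zero fun z _ => ?_)
        show w κ z * (if κ.1 = i then F z.1 z.2 else 0) ^ 2 = 0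
        rw [if_neg hκ]
        ring
    refine (Finset.sum_le_sum fun κ _ => h3 κ).trans (le_of_eq ?_)
    rw [Fintype.sum_prod_type, Finset.sum_eq_single i]
    · simp
    · intro b _ hb
      simp [hb]
    · intro h
      exact absurd (Finset.mem_univ _) h
  have hsum : ∀ z : Fin c × Fin k → S × S, ∑ κ, g κ (z κ) = ∑ t : Fin k, F (z (i, t)).1 (z (i, t)).2 := by
    intro z
    rw [Fintype.sum_prod_type]
    show ∑ b : Fin c, ∑ t : Fin k, (if b = i then F (z (b, t)).1 (z (b, t)).2 else 0) = _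
    rw [Finset.sum_eq_single i]
    · simp
    · intro b _ hb
      simp [hb]
    · intro h
      exact absurd (Finset.mem_univ _) h
  have hmean : (∑ κ, ∑ z', w κ z' * g κ z') = k * ∑ x, ∑ y, (if j i then w1 else w0) x y * F x y := by
    rw [Fintype.sum_prod_type, Finset.sum_eq_single i]
    · have : ∀ t : Fin k, ∑ z', w (i, t) z' * g (i, t) z' =
          ∑ x, ∑ y, (if j i then w1 else w0) x y * F x y := by
        intro t
        rw [Fintype.sum_prod_type]
        refine Finset.sum_congr rfl fun x _ => Finset.sum_congr rfl fun y _ => ?_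
        show (if j i then w1 else w0) x y * (if i = i then F x y else 0) = _
        rw [if_pos rfl]
      rw [Finset.sum_congr rfl fun t _ => this t]
      simp
    · intro b _ hb
      refine Finset.sum_eq_zero fun t _ => Finset.sum_eq_zero fun z _ => ?_
      show w (b, t) z * (if b = i then F z.1 z.2 else 0) = 0
      rw [if_neg hb, mul_zero]
    · intro h
      exact absurd (Finset.mem_univ _) h
  have key := cheb w hw0 hws g k hV ((k : ℝ) / 12) (by positivity)
    (fun z => E (fun κ => (z κ).1) (fun κ => (z κ).2)) (fun z => hE1 _ _) (by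
      intro z hz
      apply hE
      rw [hsum, hmean, abs_lt] at hz
      by_cases hj : j i = true
      · simp only [hj, if_true] at hz ⊢
        have h5 : (k : ℝ) * (1 / 4) ≤ k * ∑ x, ∑ y, w1 x y * F x y := mul_le_mul_of_nonneg_left m1 hk.le
        linarith [hz.1]
      · rw [Bool.not_eq_true] at hj
        simp only [hj, Bool.false_eq_true, if_false] at hz ⊢
        rw [m0] at hz
        linarith [hz.2])
  have h7 : (k : ℝ) / ((k : ℝ) / 12) ^ 2 = 144 / k := by
    field_simp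
    norm_num
  rw [h7] at key
  refine le_trans (le_of_eq ?_) key
  rw [← Fintype.sum_prod_type']
  exact (Equiv.sum_comp (Equiv.arrowProdEquivProdArrow (Fin c × Fin k) (fun _ => S) (fun _ => S))
    (fun q => (∏ κ : Fin c × Fin k, (if j κ.1 then w1 else w0) (q.1 κ) (q.2 κ)) * E q.1 q.2)).symm

/-- one block -/
lemma fail_block {a c k : ℕ} (hk0 : 0 < k)
    (w1 w0 : ((Fin a → Bool) ⊕ (Fin a → Bool) → Bool) → ((Fin a → Bool) ⊕ (Fin a → Bool) → Bool) → ℝ)
    (h1 : ∀ x y, 0 ≤ w1 x y) (h0 : ∀ x y, 0 ≤ w0 x y) (s1 : ∑ x, ∑ y, w1 x y = 1) (s0 : ∑ x, ∑ y, w0 x y = 1)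
    (m1 : 1 / 4 ≤ ∑ x, ∑ y, w1 x y * forrB (fun j i => (hs j i : ℝ) / Real.sqrt (2 ^ a)) x y)
    (m0 : ∑ x, ∑ y, w0 x y * forrB (fun j i => (hs j i : ℝ) / Real.sqrt (2 ^ a)) x y = 0) (j : Fin c → Bool)
    (i : Fin c) (E : (Fin c × Fin k → (Fin a → Bool) ⊕ (Fin a → Bool) → Bool) →
      (Fin c × Fin k → (Fin a → Bool) ⊕ (Fin a → Bool) → Bool) → ℝ)
    (hE : ∀ x y, cls k (Fintype.card (Fin a → Bool)) (j i) (bsum hs x y i) → E x y ≤ 0) (hE1 : ∀ x y, E x y ≤ 1) :
    ∑ x, ∑ y, (∏ κ, (if j κ.1 then w1 else w0) (x κ) (y κ)) * E x y ≤ 144 / k := by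
  have hcard : (Fintype.card (Fin a → Bool) : ℝ) = 2 ^ a := by
    rw [Fintype.card_fun, Fintype.card_bool, Fintype.card_fin]
    push_cast
    rfl
  refine fail_gen hk0 w1 w0 h1 h0 s1 s0 _ (fun x y => fail_abs (had_hs a) x y) m1 m0 j i E (fun x y h => ?_) hE1
  apply hE
  have hb := bsum_forr (hs (a := a)) x y i
  rw [hcard] at hb
  have hpos : 0 < (2 : ℝ) ^ a * Real.sqrt (2 ^ a) := by positivity
  unfold cls
  rw [hcard, hb]
  split_ifs at h ⊢
  · calc (k : ℝ) * 2 ^ a * Real.sqrt (2 ^ a) / 6 = 2 ^ a * Real.sqrt (2 ^ a) * (k / 6) := by ring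
      _ ≤ _ := mul_le_mul_of_nonneg_left h hpos.le
  · calc _ ≤ 2 ^ a * Real.sqrt (2 ^ a) * ((k : ℝ) / 12) := mul_le_mul_of_nonneg_left h hpos.le
      _ = _ := by ring

theorem adr_fail {a c k : ℕ} (hc : 1 ≤ c) (hk : 14400 * c ≤ k)
    (w1 w0 : ((Fin a → Bool) ⊕ (Fin a → Bool) → Bool) → ((Fin a → Bool) ⊕ (Fin a → Bool) → Bool) → ℝ)
    (h1 : ∀ x y, 0 ≤ w1 x y) (h0 : ∀ x y, 0 ≤ w0 x y) (s1 : ∑ x, ∑ y, w1 x y = 1) (s0 : ∑ x, ∑ y, w0 x y = 1)
    (m1 : 1 / 4 ≤ ∑ x, ∑ y, w1 x y * forrB (fun j i => (hs j i : ℝ) / Real.sqrt (2 ^ a)) x y)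
    (m0 : ∑ x, ∑ y, w0 x y * forrB (fun j i => (hs j i : ℝ) / Real.sqrt (2 ^ a)) x y = 0) (j : Fin c → Bool)
    (E : (Fin c × Fin k → (Fin a → Bool) ⊕ (Fin a → Bool) → Bool) →
      (Fin c × Fin k → (Fin a → Bool) ⊕ (Fin a → Bool) → Bool) → ℝ)
    (hE : ∀ x y, Adr hs j x y → E x y = 0) (hE1 : ∀ x y, E x y ≤ 1) :
    ∑ x, ∑ y, (∏ κ, (if j κ.1 then w1 else w0) (x κ) (y κ)) * E x y ≤ 1 / 100 := by
  classical
  have hk0 : 0 < k := by omega
  have hkr : (0 : ℝ) < k := by exact_mod_cast hk0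
  have hcr : (0 : ℝ) < c := by exact_mod_cast hc
  have hw : ∀ x y : Fin c × Fin k → (Fin a → Bool) ⊕ (Fin a → Bool) → Bool,
      0 ≤ ∏ κ, (if j κ.1 then w1 else w0) (x κ) (y κ) := by
    intro x y
    refine Finset.prod_nonneg fun κ _ => ?_
    split_ifs
    · exact h1 _ _
    · exact h0 _ _
  let e : Fin c → (Fin c × Fin k → (Fin a → Bool) ⊕ (Fin a → Bool) → Bool) →
      (Fin c × Fin k → (Fin a → Bool) ⊕ (Fin a → Bool) → Bool) → ℝ := fun i x y =>
    if cls k (Fintype.card (Fin a → Bool)) (j i) (bsum hs x y i) then 0 else 1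
  have hbound : ∀ x y, E x y ≤ ∑ i, e i x y := by
    intro x y
    by_cases hA : Adr hs j x y
    · rw [hE x y hA]
      refine Finset.sum_nonneg fun i _ => ?_
      show (0 : ℝ) ≤ if _ then 0 else 1
      split_ifs <;> norm_num
    · unfold Adr at hA
      push Not at hA
      obtain ⟨i, hi⟩ := hA
      refine (hE1 x y).trans ?_
      have h2 : e i x y = 1 := if_neg hi
      rw [← h2]
      refine Finset.single_le_sum (f := fun i => e i x y) (fun i _ => ?_) (Finset.mem_univ i)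
      show (0 : ℝ) ≤ if _ then 0 else 1
      split_ifs <;> norm_num
  calc ∑ x, ∑ y, (∏ κ, (if j κ.1 then w1 else w0) (x κ) (y κ)) * E x y
      ≤ ∑ x, ∑ y, (∏ κ, (if j κ.1 then w1 else w0) (x κ) (y κ)) * ∑ i, e i x y :=
        Finset.sum_le_sum fun x _ => Finset.sum_le_sum fun y _ =>
          mul_le_mul_of_nonneg_left (hbound x y) (hw x y)
    _ = ∑ i, ∑ x, ∑ y, (∏ κ, (if j κ.1 then w1 else w0) (x κ) (y κ)) * e i x y := by
        simp_rw [Finset.mul_sum]
        rw [Finset.sum_congr rfl fun x _ => Finset.sum_comm, Finset.sum_comm]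
    _ ≤ ∑ _i : Fin c, 144 / (k : ℝ) := by
        refine Finset.sum_le_sum fun i _ => ?_
        refine fail_block hk0 w1 w0 h1 h0 s1 s0 m1 m0 j i (e i) (fun x y h => ?_) (fun x y => ?_)
        · show (if _ then (0 : ℝ) else 1) ≤ 0
          rw [if_pos h]
        · show (if _ then (0 : ℝ) else 1) ≤ 1
          split_ifs <;> norm_num
    _ ≤ 1 / 100 := by
        rw [Finset.sum_const, Finset.card_univ, Fintype.card_fin, nsmul_eq_mul]
        have h5 : (14400 : ℝ) * c ≤ k := by exact_mod_cast hk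
        rw [mul_div_assoc', div_le_div_iff₀ hkr (by norm_num)]
        linarith

end

end Pool.Agent.H.MP_dd1c2e_lc.Neg
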