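import Pool.Agent.H.MP_dd1c2e_lc.neg.Base
import Pool.Agent.H.MP_dd1c2e_lc.cs.TFam

/-!
# The level-(1,1) mass of a sum of `2^T` weighted rectangles
-/

namespace Pool.Agent.H.MP_dd1c2e_lc.Neg

open Finset

/-- `p (2 + log (1/p))² ≤ (p + e^(-K)) (2 + K)²` for `p ≤ 1`. -/
theorem p_log_le2 {p K : ℝ} (hp0 : 0 < p) (hK : 0 ≤ K) :
    p * (2 - Real.log p) ^ 2 ≤ (p + Real.exp (-K)) * (2 + K) ^ 2 ∨ 0 ≤ Real.log p := by
  by_cases hl : 0 ≤ Real.log p
  · exact Or.inr hl
  left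
  push Not at hl
  set u := -Real.log p with hu
  have e1 : p = Real.exp (-u) := by
    rw [hu, neg_neg, Real.exp_log hp0]
  have e2 : 2 - Real.log p = 2 + u := by
    rw [hu]
    ring
  rw [e2]
  by_cases hc : u ≤ K
  · have h1 : (2 + u) ^ 2 ≤ (2 + K) ^ 2 := pow_le_pow_left₀ (by linarith) (by linarith) 2
    have h2 := mul_le_mul_of_nonneg_left h1 hp0.le
    have h3 : 0 ≤ Real.exp (-K) * (2 + K) ^ 2 := by positivity
    linarith
  · push Not at hc
    have h1 : 2 + u ≤ (2 + K) * Real.exp ((u - K) / 2) := by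
      have h2 := Real.add_one_le_exp ((u - K) / 2)
      have h3 := mul_le_mul_of_nonneg_left h2 (by linarith : 0 ≤ 2 + K)
      nlinarith [mul_nonneg hK (by linarith : 0 ≤ u - K)]
    have h4 : (2 + u) ^ 2 ≤ (2 + K) ^ 2 * Real.exp (u - K) := by
      have h5 := pow_le_pow_left₀ (by linarith) h1 2
      rw [mul_pow, ← Real.exp_nat_mul] at h5
      have h6 : ((2 : ℕ) : ℝ) * ((u - K) / 2) = u - K := by
        push_cast
        ring
      rwa [h6] at h5
    have h7 := mul_le_mul_of_nonneg_left h4 hp0.le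
    have h8 : p * ((2 + K) ^ 2 * Real.exp (u - K)) = Real.exp (-K) * (2 + K) ^ 2 := by
      rw [e1, mul_left_comm, ← Real.exp_add, mul_comm]
      congr 2
      ring
    rw [h8] at h7
    have h9 : 0 ≤ p * (2 + K) ^ 2 := by positivity
    linarith

theorem level2_sum {I J : Type} [Fintype I] [Fintype J] [DecidableEq I] [DecidableEq J] (T : ℕ)
    {C : (I ⊕ J → Bool) → (I ⊕ J → Bool) → ℝ} (hC : SumProd _ _ (2 ^ T) C) :
    ∑ i, ∑ j, |av fun z : I ⊕ J → Bool => sg (z (Sum.inl i)) * sg (z (Sum.inr j)) *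
        av fun x : I ⊕ J → Bool => C x (fun s => xor (x s) (z s))| ≤ 2 * ((T : ℝ) + 2) ^ 2 := by
  obtain ⟨f, g, hf, hg, hfg, hCe⟩ := hC
  let F : CS.TFam (I ⊕ J) (Fin (2 ^ T)) :=
    { al := f, be := g, al0 := fun t x => (hf t x).1, al1 := fun t x => (hf t x).2, be0 := fun t x => (hg t x).1,
      be1 := fun t x => (hg t x).2, sle := hfg }
  have hL : ∀ i j, (av fun z : I ⊕ J → Bool => sg (z (Sum.inl i)) * sg (z (Sum.inr j)) *
      av fun x : I ⊕ J → Bool => C x (fun s => xor (x s) (z s))) = CS.co F.h i j := by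
    intro i j
    show _ = CS.av _
    show CS.av _ = CS.av _
    congr 1
    funext z
    have h1 : (av fun x : I ⊕ J → Bool => C x (fun s => xor (x s) (z s))) = F.h z := by
      unfold CS.TFam.h
      rw [← CS.av_sum]
      show CS.av _ = CS.av _
      congr 1
      funext x
      exact hCe _ _
    rw [h1, mul_comm]
    rfl
  simp_rw [hL]
  have h1 : ∑ i, ∑ j, |CS.co F.h i j| ≤ ∑ t, ∑ i, ∑ j, |CS.co (F.al t) i j * CS.co (F.be t) i j| := by
    have h0 : ∑ t, ∑ i, ∑ j, |CS.co (F.al t) i j * CS.co (F.be t) i j| =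
        ∑ i, ∑ j, ∑ t, |CS.co (F.al t) i j * CS.co (F.be t) i j| := by
      rw [sum_comm]
      refine sum_congr rfl fun i _ => ?_
      rw [sum_comm]
    rw [h0]
    refine sum_le_sum fun i _ => sum_le_sum fun j _ => ?_
    rw [CS.co_h]
    exact abs_sum_le_sum_abs _ _
  refine h1.trans ?_
  set p : Fin (2 ^ T) → ℝ := fun t => CS.av (F.al t) * CS.av (F.be t) with hp
  have hμ0 : ∀ t, 0 ≤ CS.av (F.al t) := fun t => CS.av_nonneg (F.al0 t)
  have hν0 : ∀ t, 0 ≤ CS.av (F.be t) := fun t => CS.av_nonneg (F.be0 t)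
  have hμ1 : ∀ t, CS.av (F.al t) ≤ 1 := fun t => CS.av_le_of_le (F.al1 t)
  have hν1 : ∀ t, CS.av (F.be t) ≤ 1 := fun t => CS.av_le_of_le (F.be1 t)
  have hp0 : ∀ t, 0 ≤ p t := fun t => mul_nonneg (hμ0 t) (hν0 t)
  have hps : ∑ t, p t ≤ 1 := by
    have e1 : ∑ t, p t = CS.av fun x => CS.av fun y => ∑ t, F.al t x * F.be t y := by
      have e2 : ∀ x : I ⊕ J → Bool, (CS.av fun y => ∑ t, F.al t x * F.be t y) = ∑ t, F.al t x * CS.av (F.be t) := by
        intro x
        rw [CS.av_sum]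
        refine sum_congr rfl fun t _ => ?_
        rw [CS.av_mul_left]
      simp_rw [e2]
      rw [CS.av_sum]
      refine sum_congr rfl fun t _ => ?_
      rw [CS.av_mul_right]
    rw [e1]
    exact CS.av_le_of_le fun x => CS.av_le_of_le fun y => F.sle x y
  have hT0 : (0 : ℝ) ≤ T := Nat.cast_nonneg T
  have h2 : ∀ t, ∑ i, ∑ j, |CS.co (F.al t) i j * CS.co (F.be t) i j| ≤
      (p t + Real.exp (-(T : ℝ))) * (2 + T) ^ 2 := by
    intro t
    refine (CS.co_cs _ _).trans ?_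
    have h3 := CS.level11 (F.al0 t) (F.al1 t)
    have h4 := CS.level11 (F.be0 t) (F.be1 t)
    refine (mul_le_mul h3 h4 (Real.sqrt_nonneg _) ((Real.sqrt_nonneg _).trans h3)).trans ?_
    have hR : 0 ≤ (p t + Real.exp (-(T : ℝ))) * (2 + T) ^ 2 :=
      mul_nonneg (add_nonneg (hp0 t) (Real.exp_pos _).le) (sq_nonneg _)
    rcases (hμ0 t).eq_or_lt with h | h
    · rw [← h]
      simpa using hR
    rcases (hν0 t).eq_or_lt with h' | h'
    · rw [← h']
      simpa using hR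
    have hpp : 0 < p t := mul_pos h h'
    have hlog : Real.log (p t) = Real.log (CS.av (F.al t)) + Real.log (CS.av (F.be t)) := Real.log_mul h.ne' h'.ne'
    have hla := Real.log_nonpos (hμ0 t) (hμ1 t)
    have hlb := Real.log_nonpos (hν0 t) (hν1 t)
    set X := Real.log (CS.av (F.al t)) with hX
    set Y := Real.log (CS.av (F.be t)) with hY
    have h5 : (1 - X) * (1 - Y) ≤ (2 - Real.log (p t)) ^ 2 / 4 := by
      rw [hlog]
      nlinarith [sq_nonneg (X - Y)]
    have h6 : p t * (2 - Real.log (p t)) ^ 2 ≤ (p t + Real.exp (-(T : ℝ))) * (2 + T) ^ 2 := by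
      rcases p_log_le2 hpp hT0 with h7 | h7
      · exact h7
      · have h8 : Real.log (p t) = 0 := le_antisymm (by rw [hlog]; linarith) h7
        rw [h8]
        have h9 : (2 - (0 : ℝ)) ^ 2 ≤ (2 + T) ^ 2 := pow_le_pow_left₀ (by norm_num) (by linarith) 2
        have h10 := mul_le_mul_of_nonneg_left h9 hpp.le
        have h11 : 0 ≤ Real.exp (-(T : ℝ)) * (2 + T) ^ 2 := by positivity
        linarith
    have h12 := mul_le_mul_of_nonneg_left h5 hpp.le
    have e3 : 5 / 4 * (CS.av (F.al t) * (1 - X)) * (5 / 4 * (CS.av (F.be t) * (1 - Y))) =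
        25 / 16 * (p t * ((1 - X) * (1 - Y))) := by
      simp only [hp]
      ring
    rw [e3]
    have h13 : 0 ≤ p t * (2 - Real.log (p t)) ^ 2 := mul_nonneg hpp.le (sq_nonneg _)
    linarith
  refine (sum_le_sum fun t _ => h2 t).trans ?_
  rw [← sum_mul, sum_add_distrib, sum_const, card_univ, Fintype.card_fin, nsmul_eq_mul]
  have h14 : ((2 ^ T : ℕ) : ℝ) * Real.exp (-(T : ℝ)) ≤ 1 := by
    have h15 : (2 : ℝ) ≤ Real.exp 1 := by
      have := Real.add_one_le_exp (1 : ℝ)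
      linarith
    have h16 : (2 : ℝ) ^ T ≤ Real.exp T := by
      calc (2 : ℝ) ^ T ≤ Real.exp 1 ^ T := pow_le_pow_left₀ (by norm_num) h15 T
        _ = Real.exp T := by rw [← Real.exp_nat_mul, mul_one]
    push_cast
    rw [Real.exp_neg, mul_inv_le_iff₀ (Real.exp_pos _), one_mul]
    exact h16
  have h17 : (∑ t, p t + ((2 ^ T : ℕ) : ℝ) * Real.exp (-(T : ℝ))) ≤ 2 := by linarith
  have h18 := mul_le_mul_of_nonneg_right h17 (sq_nonneg (2 + (T : ℝ)))
  rw [add_comm (T : ℝ) 2]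
  exact h18

end Pool.Agent.H.MP_dd1c2e_lc.Neg
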