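import Pool.Agent.H.MP_dd1c2e_lc.neg.Base

/-! Module 7a: leaves of a protocol; the defect lemma. -/

namespace Pool.Agent.H.MP_dd1c2e_lc.Neg

open Finset

noncomputable section

/-- Average of `f` when the coordinate `j` is set to `z`. -/
def al {J Γ : Type} [Fintype J] [DecidableEq J] [Fintype Γ] (f : (J → Γ) → ℝ) (j : J) (z : Γ) : ℝ :=
  av fun u => f (Function.update u j z)

/-- The defect of `f` at the coordinate `j`. -/
def Df {J Γ : Type} [Fintype J] [DecidableEq J] [Fintype Γ] (f : (J → Γ) → ℝ) (j : J) : ℝ :=
  av fun z => max 0 (av f - al f j z)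

theorem lookA_lv {X Y : Type} (T : ℕ) : ∀ P : DProt X Y, P.depth ≤ T →
    ∃ (f : (Fin T → Bool) → X → Bool) (g : (Fin T → Bool) → Y → Bool) (o : (Fin T → Bool) → Bool),
      ∀ x y, ∃ l, f l x = true ∧ g l y = true ∧ o l = P.run x y ∧
        ∀ l', f l' x = true → g l' y = true → l' = l := by
  induction T with
  | zero =>
    intro P hP
    cases P with
    | leaf b =>
      exact ⟨fun _ _ => true, fun _ _ => true, fun _ => b, fun x y =>
        ⟨default, rfl, rfl, rfl, fun l' _ _ => Subsingleton.elim _ _⟩⟩
    | alice f P Q => simp [DProt.depth] at hP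
    | bob f P Q => simp [DProt.depth] at hP
  | succ T ih =>
    intro P hP
    cases P with
    | leaf b =>
      refine ⟨fun l _ => decide (l = fun _ => false), fun _ _ => true, fun _ => b, fun x y =>
        ⟨fun _ => false, by simp, rfl, rfl, fun l' h _ => by simpa using h⟩⟩
    | alice h P Q =>
      have hPQ : P.depth ≤ T ∧ Q.depth ≤ T := by
        simp only [DProt.depth] at hP
        omega
      obtain ⟨f1, g1, o1, h1⟩ := ih P hPQ.1
      obtain ⟨f2, g2, o2, h2⟩ := ih Q hPQ.2
      refine ⟨fun l x => if l 0 then (h x && f1 (Fin.tail l) x) else (!h x && f2 (Fin.tail l) x),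
        fun l y => if l 0 then g1 (Fin.tail l) y else g2 (Fin.tail l) y,
        fun l => if l 0 then o1 (Fin.tail l) else o2 (Fin.tail l), fun x y => ?_⟩
      cases hx : h x with
      | true =>
        obtain ⟨l, a1, a2, a3, a4⟩ := h1 x y
        refine ⟨Fin.cons true l, by simp [hx, a1], by simp [a2], by simp [DProt.run, hx, a3], ?_⟩
        intro l' b1 b2
        have c0 : l' 0 = true := by
          by_contra hc
          simp [hx, hc] at b1
        simp only [c0, if_true, hx, Bool.true_and] at b1 b2
        have := a4 (Fin.tail l') b1 b2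
        rw [← this, ← c0, Fin.cons_self_tail]
      | false =>
        obtain ⟨l, a1, a2, a3, a4⟩ := h2 x y
        refine ⟨Fin.cons false l, by simp [hx, a1], by simp [a2], by simp [DProt.run, hx, a3], ?_⟩
        intro l' b1 b2
        have c0 : l' 0 = false := by
          by_contra hc
          simp [hx, hc] at b1
        simp only [c0, Bool.false_eq_true, if_false, hx, Bool.not_false, Bool.true_and] at b1 b2
        have := a4 (Fin.tail l') b1 b2
        rw [← this, ← c0, Fin.cons_self_tail]
    | bob h P Q =>
      have hPQ : P.depth ≤ T ∧ Q.depth ≤ T := by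
        simp only [DProt.depth] at hP
        omega
      obtain ⟨f1, g1, o1, h1⟩ := ih P hPQ.1
      obtain ⟨f2, g2, o2, h2⟩ := ih Q hPQ.2
      refine ⟨fun l x => if l 0 then f1 (Fin.tail l) x else f2 (Fin.tail l) x,
        fun l y => if l 0 then (h y && g1 (Fin.tail l) y) else (!h y && g2 (Fin.tail l) y),
        fun l => if l 0 then o1 (Fin.tail l) else o2 (Fin.tail l), fun x y => ?_⟩
      cases hy : h y with
      | true =>
        obtain ⟨l, a1, a2, a3, a4⟩ := h1 x y
        refine ⟨Fin.cons true l, by simp [a1], by simp [hy, a2], by simp [DProt.run, hy, a3], ?_⟩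
        intro l' b1 b2
        have c0 : l' 0 = true := by
          by_contra hc
          simp [hy, hc] at b2
        simp only [c0, if_true, hy, Bool.true_and] at b1 b2
        have := a4 (Fin.tail l') b1 b2
        rw [← this, ← c0, Fin.cons_self_tail]
      | false =>
        obtain ⟨l, a1, a2, a3, a4⟩ := h2 x y
        refine ⟨Fin.cons false l, by simp [a1], by simp [hy, a2], by simp [DProt.run, hy, a3], ?_⟩
        intro l' b1 b2
        have c0 : l' 0 = false := by
          by_contra hc
          simp [hy, hc] at b2
        simp only [c0, Bool.false_eq_true, if_false, hy, Bool.not_false, Bool.true_and] at b1 b2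
        have := a4 (Fin.tail l') b1 b2
        rw [← this, ← c0, Fin.cons_self_tail]

/-- leaves of a deterministic protocol as rectangles -/
theorem leaves {X Y : Type} (P : DProt X Y) (T : ℕ) (hP : P.depth ≤ T) :
    ∃ (f : Fin (2 ^ T) → X → Bool) (g : Fin (2 ^ T) → Y → Bool) (o : Fin (2 ^ T) → Bool),
      ∀ x y, ∃ l, f l x = true ∧ g l y = true ∧ o l = P.run x y ∧ ∀ l', f l' x = true → g l' y = true → l' = l := by
  obtain ⟨f, g, o, h⟩ := lookA_lv T P hP
  have e : Fin (2 ^ T) ≃ (Fin T → Bool) := by
    refine (Fintype.equivFinOfCardEq ?_).symm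
    simp
  refine ⟨fun l => f (e l), fun l => g (e l), fun l => o (e l), fun x y => ?_⟩
  obtain ⟨l, h1, h2, h3, h4⟩ := h x y
  refine ⟨e.symm l, by simpa using h1, by simpa using h2, by simpa using h3, fun l' a b => ?_⟩
  rw [← h4 (e l') a b, Equiv.symm_apply_apply]

theorem lookA_upd {J Γ : Type} [Fintype J] [DecidableEq J] [Fintype Γ] [Nonempty Γ] (F : (J → Γ) → ℝ) (j : J) :
    av (fun z : Γ => av (fun u : J → Γ => F (Function.update u j z))) = av F := by
  have e : (∑ p : Γ × (J → Γ), F (Function.update p.2 j p.1)) = ∑ p : Γ × (J → Γ), F p.2 := by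
    have hinv : Function.Involutive (fun p : Γ × (J → Γ) => (p.2 j, Function.update p.2 j p.1)) := by
      intro p
      ext <;> simp
    exact Fintype.sum_bijective _ hinv.bijective _ _ fun p => rfl
  rw [Fintype.sum_prod_type, Fintype.sum_prod_type] at e
  have hc : (Fintype.card Γ : ℝ) ≠ 0 := by
    exact_mod_cast Fintype.card_ne_zero
  simp only [av]
  rw [← Finset.sum_div, e]
  simp only [sum_const, card_univ, nsmul_eq_mul]
  rw [div_div, mul_comm (Fintype.card (J → Γ) : ℝ) (Fintype.card Γ : ℝ), mul_div_mul_left _ _ hc]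

theorem lookA_prod {J Γ : Type} [Fintype J] [DecidableEq J] [Fintype Γ] (φ : J → Γ → ℝ) :
    av (fun u : J → Γ => ∏ j, φ j (u j)) = ∏ j, av (φ j) := by
  have h : (∑ u : J → Γ, ∏ j, φ j (u j)) = ∏ j, ∑ z, φ j z := by
    rw [Finset.prod_univ_sum, Fintype.piFinset_univ]
  simp only [av]
  rw [h, Finset.prod_div_distrib]
  simp

theorem lookA_mono {α : Type} [Fintype α] {f g : α → ℝ} (h : ∀ x, f x ≤ g x) : av f ≤ av g := by
  unfold av
  gcongr with x _
  exact h x

theorem lookA_exp {y : ℝ} (h : |y| ≤ 1) : Real.exp y ≤ 1 + y + y ^ 2 := by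
  have := Real.abs_exp_sub_one_sub_id_le h
  have := (abs_le.1 this).2
  linarith

theorem defect {J Γ : Type} [Fintype J] [DecidableEq J] [Fintype Γ] [Nonempty Γ] (f : (J → Γ) → ℝ)
    (h0 : ∀ u, 0 ≤ f u) (h1 : ∀ u, f u ≤ 1) (hα : 0 < av f) :
    ∑ j, (Df f j / av f) ^ 2 ≤ 4 * Real.log (1 / av f) := by
  classical
  set α := av f with hαd
  have hc : (0 : ℝ) < Fintype.card Γ := by exact_mod_cast Fintype.card_pos
  have hcJ : (0 : ℝ) < Fintype.card (J → Γ) := by exact_mod_cast Fintype.card_pos
  -- linearity of av
  have av_add : ∀ {β : Type} [Fintype β] (a b : β → ℝ), av (fun x => a x + b x) = av a + av b := by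
    intro β _ a b
    simp only [av, sum_add_distrib, add_div]
  have av_mul : ∀ {β : Type} [Fintype β] (c : ℝ) (a : β → ℝ), av (fun x => c * a x) = c * av a := by
    intro β _ c a
    simp only [av, ← mul_sum, mul_div_assoc]
  have av_const : ∀ c : ℝ, av (fun _ : Γ => c) = c := by
    intro c
    simp only [av, sum_const, card_univ, nsmul_eq_mul]
    field_simp
  have al0 : ∀ j z, 0 ≤ al f j z := fun j z => by
    unfold al av
    exact div_nonneg (sum_nonneg fun u _ => h0 _) hcJ.le
  have hal : ∀ j, av (fun z => al f j z) = α := fun j => lookA_upd f j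
  set S : J → Γ → ℝ := fun j z => if al f j z < α then 1 else 0 with hS
  set pS : J → ℝ := fun j => av (S j) with hpS
  set g : J → Γ → ℝ := fun j z => pS j - S j z with hg
  have S01 : ∀ j z, 0 ≤ S j z ∧ S j z ≤ 1 := by
    intro j z
    simp only [hS]
    split_ifs <;> norm_num
  have pS01 : ∀ j, 0 ≤ pS j ∧ pS j ≤ 1 := by
    intro j
    constructor
    · have := lookA_mono (f := fun _ : Γ => (0 : ℝ)) (g := S j) (fun z => (S01 j z).1)
      rwa [av_const] at this
    · have := lookA_mono (f := S j) (g := fun _ : Γ => (1 : ℝ)) (fun z => (S01 j z).2)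
      rwa [av_const] at this
  have gb : ∀ j z, |g j z| ≤ 1 := by
    intro j z
    have := S01 j z
    have := pS01 j
    rw [abs_le]
    constructor <;> simp only [hg] <;> linarith
  have gmean : ∀ j, av (g j) = 0 := by
    intro j
    have : g j = fun z => pS j + (-1) * S j z := by
      funext z
      simp only [hg]
      ring
    rw [this, av_add, av_const, av_mul]
    simp only [hpS]
    ring
  -- correlation
  have hcorr : ∀ j, av (fun u => f u * g j (u j)) = Df f j := by
    intro j
    rw [← lookA_upd (fun u => f u * g j (u j)) j]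
    have e1 : (fun z => av (fun u : J → Γ => f (Function.update u j z) * g j (Function.update u j z j))) =
        fun z => pS j * al f j z + (-1) * (S j z * al f j z) := by
      funext z
      simp only [Function.update_self]
      have : (fun u : J → Γ => f (Function.update u j z) * g j z) = fun u => g j z * f (Function.update u j z) := by
        funext u
        ring
      rw [this, av_mul]
      simp only [al, hg]
      ring
    have e2 : (fun z => max 0 (av f - al f j z)) = fun z => α * S j z + (-1) * (S j z * al f j z) := by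
      funext z
      simp only [hS, ← hαd]
      split_ifs with h
      · rw [max_eq_right (by linarith)]
        ring
      · rw [max_eq_left (by linarith)]
        ring
    unfold Df
    rw [e1, e2, av_add, av_add, av_mul, av_mul (c := α), hal]
    simp only [hpS]
    ring
  have D0 : ∀ j, 0 ≤ Df f j := by
    intro j
    have := lookA_mono (f := fun _ : Γ => (0 : ℝ)) (g := fun z => max 0 (av f - al f j z)) (fun z => le_max_left _ _)
    rwa [av_const] at this
  have D1 : ∀ j, Df f j ≤ α := by
    intro j
    have := lookA_mono (f := fun z => max 0 (av f - al f j z)) (g := fun _ : Γ => α)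
      (fun z => max_le hα.le (by have := al0 j z; simp only [← hαd]; linarith))
    rwa [av_const] at this
  set τ : J → ℝ := fun j => Df f j / α with hτ
  have τ0 : ∀ j, 0 ≤ τ j := fun j => div_nonneg (D0 j) hα.le
  have τ1 : ∀ j, τ j ≤ 1 := fun j => by
    simp only [hτ]
    rw [div_le_one hα]
    exact D1 j
  set b : ℝ := (∑ j, τ j ^ 2) / 2 with hb
  set X : (J → Γ) → ℝ := fun u => ∑ j, τ j * g j (u j) / 2 with hX
  -- E f X = α b
  have av_sum : ∀ (a : J → (J → Γ) → ℝ), av (fun u => ∑ j, a j u) = ∑ j, av (a j) := by
    intro a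
    simp only [av]
    rw [sum_comm, sum_div]
  have hfX : av (fun u => f u * X u) = α * b := by
    have e : (fun u => f u * X u) = fun u => ∑ j, τ j / 2 * (f u * g j (u j)) := by
      funext u
      simp only [hX, mul_sum]
      exact sum_congr rfl fun j _ => by ring
    rw [e, av_sum]
    simp only [av_mul, hcorr, hb]
    have : ∀ j, Df f j = τ j * α := fun j => by
      simp only [hτ]
      field_simp
    simp only [this, mul_div_assoc']
    rw [mul_sum, sum_div]
    exact sum_congr rfl fun j _ => by ring
  -- lower bound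
  have low : α * Real.exp b ≤ av (fun u => f u * Real.exp (X u)) := by
    have h2 : ∀ u, f u * (Real.exp b * (1 + X u - b)) ≤ f u * Real.exp (X u) := by
      intro u
      apply mul_le_mul_of_nonneg_left _ (h0 u)
      have h3 : X u - b + 1 ≤ Real.exp (X u - b) := Real.add_one_le_exp _
      have h4 : Real.exp (X u) = Real.exp b * Real.exp (X u - b) := by
        rw [← Real.exp_add]
        congr 1
        ring
      rw [h4]
      apply mul_le_mul_of_nonneg_left _ (Real.exp_pos b).le
      linarith
    have h5 := lookA_mono h2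
    have e : (fun u => f u * (Real.exp b * (1 + X u - b))) =
        fun u => Real.exp b * (1 - b) * f u + Real.exp b * (f u * X u) := by
      funext u
      ring
    rw [e, av_add, av_mul, av_mul, hfX, ← hαd] at h5
    calc α * Real.exp b = Real.exp b * (1 - b) * α + Real.exp b * (α * b) := by ring
      _ ≤ _ := h5
  -- upper bound
  have up : av (fun u => f u * Real.exp (X u)) ≤ Real.exp (b / 2) := by
    have h2 : av (fun u => f u * Real.exp (X u)) ≤ av (fun u : J → Γ => ∏ j, Real.exp (τ j * g j (u j) / 2)) := by
      apply lookA_mono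
      intro u
      rw [← Real.exp_sum]
      exact mul_le_of_le_one_left (Real.exp_pos _).le (h1 u)
    rw [lookA_prod (fun j z => Real.exp (τ j * g j z / 2))] at h2
    refine h2.trans ?_
    have h3 : ∀ j, av (fun z => Real.exp (τ j * g j z / 2)) ≤ Real.exp (τ j ^ 2 / 4) := by
      intro j
      have h4 : ∀ z, Real.exp (τ j * g j z / 2) ≤ 1 + τ j ^ 2 / 4 + τ j / 2 * g j z := by
        intro z
        have hg1 := gb j z
        have ht : |τ j * g j z / 2| ≤ 1 := by
          rw [abs_div, abs_mul, abs_of_nonneg (τ0 j)]
          have : τ j * |g j z| ≤ 1 := by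
            calc τ j * |g j z| ≤ 1 * 1 := mul_le_mul (τ1 j) hg1 (abs_nonneg _) zero_le_one
              _ = 1 := by ring
          rw [abs_of_pos (by norm_num : (0 : ℝ) < 2)]
          linarith
        refine (lookA_exp ht).trans ?_
        have hg2 : g j z ^ 2 ≤ 1 := by
          rw [← sq_abs]
          exact pow_le_one₀ (abs_nonneg _) hg1
        have : τ j ^ 2 * g j z ^ 2 ≤ τ j ^ 2 := mul_le_of_le_one_right (sq_nonneg _) hg2
        nlinarith
      have h5 := lookA_mono h4
      have e : (fun z => 1 + τ j ^ 2 / 4 + τ j / 2 * g j z) = fun z => (1 + τ j ^ 2 / 4) + (τ j / 2) * g j z := rfl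
      rw [e, av_add, av_const, av_mul, gmean, mul_zero, add_zero] at h5
      refine h5.trans ?_
      have := Real.add_one_le_exp (τ j ^ 2 / 4)
      linarith
    calc ∏ j, av (fun z => Real.exp (τ j * g j z / 2)) ≤ ∏ j, Real.exp (τ j ^ 2 / 4) := by
          apply prod_le_prod
          · intro j _
            unfold av
            exact div_nonneg (sum_nonneg fun z _ => (Real.exp_pos _).le) hc.le
          · intro j _
            exact h3 j
      _ = Real.exp (b / 2) := by
          rw [← Real.exp_sum, ← sum_div]
          congr 1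
          simp only [hb]
          ring
  have fin : α * Real.exp b ≤ Real.exp (b / 2) := low.trans up
  have h6 : Real.log α + b ≤ b / 2 := by
    have := Real.log_le_log (by positivity) fin
    rwa [Real.log_mul hα.ne' (Real.exp_pos _).ne', Real.log_exp, Real.log_exp] at this
  have h7 : Real.log (1 / α) = - Real.log α := by
    rw [one_div, Real.log_inv]
  have h8 : ∑ j, (Df f j / α) ^ 2 = 2 * b := by
    simp only [hb, hτ]
    ring
  rw [h8, h7]
  linarith

end

end Pool.Agent.H.MP_dd1c2e_lc.Neg
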