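import Mathlib
import Pool.Agent.H.MP_dd1c2e_lc.neg.CertD

/-!
# The numerical parameters of the counterexample

For the bound `b` we take `c = b + 15` blocks of `k = 14400 c` copies of the forrelation problem with `a = 8 b + 80` bits for
an index, and a prime `P` of `O(b)` bits.
-/

namespace Pool.Agent.H.MP_dd1c2e_lc.Neg

open Finset

/-- The size of the quantity which governs the prime. -/
theorem num_size (b : ℕ) :
    2 * (6 * ((b + 15) * (14400 * (b + 15)) * (2 ^ (8 * b + 80)) ^ 2)) ≤ 2 ^ (18 * b + 208) := by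
  have h1 : b + 15 ≤ 2 ^ (b + 15) := (Nat.lt_two_pow_self).le
  have h2 : (b + 15) * (b + 15) ≤ 2 ^ (b + 15) * 2 ^ (b + 15) := Nat.mul_le_mul h1 h1
  calc 2 * (6 * ((b + 15) * (14400 * (b + 15)) * (2 ^ (8 * b + 80)) ^ 2))
      = 172800 * ((b + 15) * (b + 15)) * (2 ^ (8 * b + 80)) ^ 2 := by ring
    _ ≤ 2 ^ 18 * (2 ^ (b + 15) * 2 ^ (b + 15)) * (2 ^ (8 * b + 80)) ^ 2 := by
        apply Nat.mul_le_mul_right
        exact Nat.mul_le_mul (by norm_num) h2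
    _ = 2 ^ (18 * b + 208) := by
        rw [← pow_mul, ← pow_add, ← pow_add, ← pow_add]
        congr 1
        ring

theorem num_low (b : ℕ) :
    100 * 2 ^ (b + 15) ≤ 6 * ((b + 15) * (14400 * (b + 15)) * (2 ^ (8 * b + 80)) ^ 2) := by
  have h3 : 2 ^ (b + 15) ≤ (2 ^ (8 * b + 80)) ^ 2 := by
    rw [← pow_mul]
    exact Nat.pow_le_pow_right (by norm_num) (by omega)
  have h4 : 100 ≤ 6 * ((b + 15) * (14400 * (b + 15))) := by nlinarith
  calc 100 * 2 ^ (b + 15) ≤ (6 * ((b + 15) * (14400 * (b + 15)))) * (2 ^ (8 * b + 80)) ^ 2 := Nat.mul_le_mul h4 h3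
    _ = 6 * ((b + 15) * (14400 * (b + 15)) * (2 ^ (8 * b + 80)) ^ 2) := by ring

/-- Choice of the prime. -/
theorem num_prime (b : ℕ) : ∃ P : ℕ, P.Prime ∧ 2 * ((14400 * (b + 15)) * (2 ^ (8 * b + 80)) ^ 2) < P ∧
    6 * ((b + 15) * (14400 * (b + 15)) * (2 ^ (8 * b + 80)) ^ 2) ≤ P ∧ P ≤ 2 ^ (18 * b + 208) ∧
    100 * 2 ^ (b + 15) ≤ P := by
  have hX0 : 6 * ((b + 15) * (14400 * (b + 15)) * (2 ^ (8 * b + 80)) ^ 2) ≠ 0 := by positivity
  obtain ⟨P, hP, hlt, hle⟩ := Nat.exists_prime_lt_and_le_two_mul _ hX0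
  refine ⟨P, hP, lt_of_le_of_lt ?_ hlt, hlt.le, hle.trans (num_size b), (num_low b).trans hlt.le⟩
  calc 2 * ((14400 * (b + 15)) * (2 ^ (8 * b + 80)) ^ 2)
      = 2 * 1 * ((14400 * (b + 15)) * (2 ^ (8 * b + 80)) ^ 2) := by ring
    _ ≤ 6 * (b + 15) * ((14400 * (b + 15)) * (2 ^ (8 * b + 80)) ^ 2) := by
        apply Nat.mul_le_mul_right
        omega
    _ = 6 * ((b + 15) * (14400 * (b + 15)) * (2 ^ (8 * b + 80)) ^ 2) := by ring

/-- The number of cells is large. -/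
theorem num_cells (b : ℕ) : 10000 * (2 ^ b + 1) ≤ 2 ^ (b + 15) := by
  have h : 1 ≤ 2 ^ b := Nat.one_le_two_pow
  calc 10000 * (2 ^ b + 1) ≤ 32768 * 2 ^ b := by omega
    _ = 2 ^ (b + 15) := by rw [pow_add]; norm_num [mul_comm]

/-- One copy is hard enough. -/
theorem num_hard (b : ℕ) :
    (500 : ℝ) * (((b + 15 : ℕ) : ℝ) * ((14400 * (b + 15) : ℕ) : ℝ)) * (((2 ^ b : ℕ) : ℝ) + 2) ^ 2 ≤
      Real.sqrt (2 ^ (8 * b + 80)) := by
  have hs : Real.sqrt (2 ^ (8 * b + 80)) = 2 ^ (4 * b + 40) := by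
    have : (2 : ℝ) ^ (8 * b + 80) = (2 ^ (4 * b + 40)) ^ 2 := by rw [← pow_mul]; congr 1; ring
    rw [this, Real.sqrt_sq (by positivity)]
  rw [hs]
  have hnat : 500 * ((b + 15) * (14400 * (b + 15))) * (2 ^ b + 2) ^ 2 ≤ 2 ^ (4 * b + 40) := by
    have h1 : b + 1 ≤ 2 ^ b := Nat.lt_two_pow_self
    have h0 : 1 ≤ 2 ^ b := Nat.one_le_two_pow
    have h2 : b + 15 ≤ 15 * 2 ^ b := by omega
    have h3 : 2 ^ b + 2 ≤ 3 * 2 ^ b := by omega
    calc 500 * ((b + 15) * (14400 * (b + 15))) * (2 ^ b + 2) ^ 2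
        ≤ 500 * ((15 * 2 ^ b) * (14400 * (15 * 2 ^ b))) * (3 * 2 ^ b) ^ 2 := by gcongr
      _ = 14580000000 * 2 ^ (4 * b) := by
          rw [show 4 * b = b * 4 by ring, pow_mul]
          ring
      _ ≤ 2 ^ 40 * 2 ^ (4 * b) := Nat.mul_le_mul_right _ (by norm_num)
      _ = 2 ^ (4 * b + 40) := by rw [pow_add, mul_comm]
  have := (Nat.cast_le (α := ℝ)).mpr hnat
  push_cast at this ⊢
  exact this

/-- The cost of the quantum protocol. -/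
theorem num_cost (b : ℕ) (hb : 200000 ≤ b) :
    (b + 15) * (14400 * (b + 15)) * (8 * b + 80 + 1) + ((b + 15) + (4 + (b + 15)) * (18 * b + 208)) + 2 ≤
      200000 * b ^ 3 := by
  have h1 : b + 15 ≤ 2 * b := by omega
  nlinarith [Nat.mul_le_mul hb (le_refl b), Nat.mul_le_mul (Nat.mul_le_mul hb (le_refl b)) (le_refl b),
    sq_nonneg b]

/-- The number of bits of an input. -/
theorem num_bits (b : ℕ) (hb : 200000 ≤ b) :
    (b + 15) * (14400 * (b + 15)) * (2 ^ (8 * b + 80) + 2 ^ (8 * b + 80)) +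
      (18 * b + 208) * (((b + 15) * (14400 * (b + 15)) * (2 ^ (8 * b + 80) * 2 ^ (8 * b + 80))) *
        ((b + 15) * (14400 * (b + 15)) * (2 ^ (8 * b + 80) * 2 ^ (8 * b + 80)))) * 2 ^ (b + 15) ≤
      2 ^ (200000 * b) := by
  have h1 : b + 15 ≤ 2 ^ (b + 15) := (Nat.lt_two_pow_self).le
  have h2 : (b + 15) * (14400 * (b + 15)) ≤ 2 ^ (2 * b + 44) := by
    calc (b + 15) * (14400 * (b + 15)) ≤ 2 ^ (b + 15) * (2 ^ 14 * 2 ^ (b + 15)) := by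
          apply Nat.mul_le_mul h1 (Nat.mul_le_mul (by norm_num) h1)
      _ = 2 ^ (2 * b + 44) := by
          rw [← pow_add, ← pow_add]; congr 1; ring
  have h3 : 18 * b + 208 ≤ 2 ^ (b + 8) := by
    have h1' : b + 1 ≤ 2 ^ b := Nat.lt_two_pow_self
    rw [pow_add]
    omega
  have h5 : (b + 15) * (14400 * (b + 15)) * (2 ^ (8 * b + 80) * 2 ^ (8 * b + 80)) ≤ 2 ^ (18 * b + 204) := by
    calc (b + 15) * (14400 * (b + 15)) * (2 ^ (8 * b + 80) * 2 ^ (8 * b + 80))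
        ≤ 2 ^ (2 * b + 44) * (2 ^ (8 * b + 80) * 2 ^ (8 * b + 80)) := Nat.mul_le_mul_right _ h2
      _ = 2 ^ (18 * b + 204) := by
          rw [← pow_add, ← pow_add]; congr 1; ring
  calc (b + 15) * (14400 * (b + 15)) * (2 ^ (8 * b + 80) + 2 ^ (8 * b + 80)) +
      (18 * b + 208) * (((b + 15) * (14400 * (b + 15)) * (2 ^ (8 * b + 80) * 2 ^ (8 * b + 80))) *
        ((b + 15) * (14400 * (b + 15)) * (2 ^ (8 * b + 80) * 2 ^ (8 * b + 80)))) * 2 ^ (b + 15)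
      ≤ 2 ^ (2 * b + 44) * (2 ^ (8 * b + 80) + 2 ^ (8 * b + 80)) +
        2 ^ (b + 8) * (2 ^ (18 * b + 204) * 2 ^ (18 * b + 204)) * 2 ^ (b + 15) := by
        apply Nat.add_le_add (Nat.mul_le_mul_right _ h2)
        exact Nat.mul_le_mul_right _ (Nat.mul_le_mul h3 (Nat.mul_le_mul h5 h5))
    _ = 2 ^ (10 * b + 125) + 2 ^ (38 * b + 431) := by
        rw [← two_mul, ← pow_succ', ← pow_add, ← pow_add, ← pow_add, ← pow_add]
        congr 2 <;> ring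
    _ ≤ 2 ^ (38 * b + 431) + 2 ^ (38 * b + 431) :=
        Nat.add_le_add_right (Nat.pow_le_pow_right (by norm_num) (by omega)) _
    _ = 2 ^ (38 * b + 431 + 1) := by rw [← two_mul, ← pow_succ']
    _ ≤ 2 ^ (200000 * b) := Nat.pow_le_pow_right (by norm_num) (by omega)

/-- All parameters together. -/
theorem num_all (b : ℕ) (hb : 200000 ≤ b) : ∃ a c k P L : ℕ, P.Prime ∧ 1 ≤ c ∧ 14400 * c ≤ k ∧
    2 * (k * (2 ^ a) ^ 2) < P ∧ 6 * (c * k * (2 ^ a) ^ 2) ≤ P ∧ P ≤ 2 ^ L ∧ 10000 * (2 ^ b + 1) ≤ 2 ^ c ∧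
    (500 : ℝ) * ((c : ℝ) * (k : ℝ)) * (((2 ^ b : ℕ) : ℝ) + 2) ^ 2 ≤ Real.sqrt (2 ^ a) ∧ 100 * 2 ^ c ≤ P ∧
    c * k * (a + 1) + (c + (4 + c) * L) + 2 ≤ 200000 * b ^ 3 ∧
    c * k * (2 ^ a + 2 ^ a) + L * ((c * k * (2 ^ a * 2 ^ a)) * (c * k * (2 ^ a * 2 ^ a))) * 2 ^ c ≤
      2 ^ (200000 * b) := by
  obtain ⟨P, hP, hP1, hP2, hPL, hPc⟩ := num_prime b
  exact ⟨8 * b + 80, b + 15, 14400 * (b + 15), P, 18 * b + 208, hP, by omega, le_rfl, hP1, hP2, hPL, num_cells b,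
    num_hard b, hPc, num_cost b hb, num_bits b hb⟩

end Pool.Agent.H.MP_dd1c2e_lc.Neg
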