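import Pool.Agent.H.MP_dd1c2e_lc.lq.QA1
import Pool.Agent.H.MP_dd1c2e_lc.neg.Base

/-!
# LOGEQ, module 9: building quantum protocols without prior entanglement
-/

set_option autoImplicit false

namespace Pool.Agent.H.MP_dd1c2e_lc.Neg

open Finset Pool.Agent.H.MP_dd1c2e_lc.LQ

/-- `ψ` can be prepared with `q` qubits of communication and local isometries. -/
def RL0 (X Y : Type) (q : ℕ) (A : Type) [Fintype A] (B : Type) [Fintype B] (ψ : X → Y → A → B → ℂ) : Prop :=
  ∃ (A0 : Type) (_ : Fintype A0) (B0 : Type) (_ : Fintype B0) (ψ0 : X → Y → A0 → B0 → ℂ)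
    (V : X → A → A0 → ℂ) (W : Y → B → B0 → ℂ), Reach0 X Y q A0 B0 ψ0 ∧ (∀ x, IsIsometry (V x)) ∧
    (∀ y, IsIsometry (W y)) ∧
    ∀ x y a b, ψ x y a b = ∑ a0, V x a a0 * ∑ b0, W y b b0 * ψ0 x y a0 b0

section

variable {X Y : Type} {q : ℕ} {A : Type} [Fintype A] {B : Type} [Fintype B] {ψ : X → Y → A → B → ℂ}

theorem RL0.ofReach0 (h : Reach0 X Y q A B ψ) : RL0 X Y q A B ψ := by
  refine ⟨A, inferInstance, B, inferInstance, ψ, fun _ => pm (Equiv.refl A), fun _ => pm (Equiv.refl B), h,
    fun _ => pm_isometry _, fun _ => pm_isometry _, ?_⟩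
  intro x y a b
  rw [pm_apply, pm_apply]
  rfl

theorem RL0.start : RL0 X Y 0 Unit Unit (fun _ _ _ _ => 1) := RL0.ofReach0 Reach0.start

theorem RL0.congr {ψ' : X → Y → A → B → ℂ} (h : RL0 X Y q A B ψ) (he : ∀ x y a b, ψ' x y a b = ψ x y a b) :
    RL0 X Y q A B ψ' := by
  have : ψ' = ψ := by
    funext x y a b
    exact he x y a b
  rw [this]
  exact h

theorem RL0.locA (h : RL0 X Y q A B ψ) {A' : Type} [Fintype A'] (U : X → A' → A → ℂ) (hU : ∀ x, IsIsometry (U x)) :
    RL0 X Y q A' B (fun x y a' b => ∑ a, U x a' a * ψ x y a b) := by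
  obtain ⟨A0, i1, B0, i2, ψ0, V, W, h0, hV, hW, e⟩ := h
  refine ⟨A0, i1, B0, i2, ψ0, fun x a' a0 => ∑ a, U x a' a * V x a a0, W, h0,
    fun x => isometry_comp (hU x) (hV x), hW, ?_⟩
  intro x y a' b
  simp only [e, Finset.mul_sum, Finset.sum_mul]
  rw [Finset.sum_comm]
  refine sum_congr rfl fun a0 _ => ?_
  rw [Finset.sum_comm]
  exact sum_congr rfl fun b0 _ => sum_congr rfl fun a _ => by ring

theorem RL0.locB (h : RL0 X Y q A B ψ) {B' : Type} [Fintype B'] (U : Y → B' → B → ℂ) (hU : ∀ y, IsIsometry (U y)) :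
    RL0 X Y q A B' (fun x y a b' => ∑ b, U y b' b * ψ x y a b) := by
  obtain ⟨A0, i1, B0, i2, ψ0, V, W, h0, hV, hW, e⟩ := h
  refine ⟨A0, i1, B0, i2, ψ0, V, fun y b' b0 => ∑ b, U y b' b * W y b b0, h0,
    hV, fun y => isometry_comp (hU y) (hW y), ?_⟩
  intro x y a b'
  simp only [e, Finset.mul_sum, Finset.sum_mul]
  rw [Finset.sum_comm]
  refine sum_congr rfl fun a0 _ => ?_
  rw [Finset.sum_comm]
  exact sum_congr rfl fun b0 _ => sum_congr rfl fun a _ => by ring

theorem RL0.relA (h : RL0 X Y q A B ψ) {A' : Type} [Fintype A'] (e : A ≃ A') :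
    RL0 X Y q A' B (fun x y a' b => ψ x y (e.symm a') b) :=
  (h.locA (fun _ => pm e) (fun _ => pm_isometry e)).congr fun x y a b => (pm_apply e (fun a => ψ x y a b) a).symm

theorem RL0.relB (h : RL0 X Y q A B ψ) {B' : Type} [Fintype B'] (e : B ≃ B') :
    RL0 X Y q A B' (fun x y a b' => ψ x y a (e.symm b')) :=
  (h.locB (fun _ => pm e) (fun _ => pm_isometry e)).congr fun x y a b => (pm_apply e (ψ x y a) b).symm

theorem RL0.send1A (h : RL0 X Y q A B ψ) {A' : Type} [Fintype A'] (U : X → A' × Bool → A → ℂ)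
    (hU : ∀ x, IsIsometry (U x)) : RL0 X Y (q + 1) A' (Bool × B) (aliceSend U ψ) := by
  obtain ⟨A0, i1, B0, i2, ψ0, V, W, h0, hV, hW, e⟩ := h
  refine ⟨A', inferInstance, Bool × B0, inferInstance,
    aliceSend (fun x p a0 => ∑ a, U x p a * V x a a0) ψ0, fun _ => pm (Equiv.refl A'), fun y => tI (W y),
    h0.alice A' _ (fun x => isometry_comp (hU x) (hV x)), fun _ => pm_isometry _, fun y => tI_isometry (hW y), ?_⟩
  intro x y a' b
  rw [pm_apply, tI_apply]
  unfold aliceSend
  simp only [e]
  exact tri _ _ _ _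

theorem RL0.send1B (h : RL0 X Y q A B ψ) {B' : Type} [Fintype B'] (U : Y → B' × Bool → B → ℂ)
    (hU : ∀ y, IsIsometry (U y)) : RL0 X Y (q + 1) (Bool × A) B' (bobSend U ψ) := by
  obtain ⟨A0, i1, B0, i2, ψ0, V, W, h0, hV, hW, e⟩ := h
  refine ⟨Bool × A0, inferInstance, B', inferInstance,
    bobSend (fun y p b0 => ∑ b, U y p b * W y b b0) ψ0, fun x => tI (V x), fun _ => pm (Equiv.refl B'),
    h0.bob B' _ (fun y => isometry_comp (hU y) (hW y)), fun x => tI_isometry (hV x), fun _ => pm_isometry _, ?_⟩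
  intro x y a b'
  simp only [pm_apply]
  rw [tI_apply]
  unfold bobSend
  simp only [e]
  exact tri2 _ _ _ _

theorem sendFinA0 {X Y : Type} (k : ℕ) : ∀ {q : ℕ} {A : Type} [Fintype A] {B : Type} [Fintype B]
    {ψ : X → Y → A → B → ℂ} {A' : Type} [Fintype A'] (U : X → A' × (Fin k → Bool) → A → ℂ),
    (∀ x, IsIsometry (U x)) → RL0 X Y q A B ψ →
    RL0 X Y (q + k) A' ((Fin k → Bool) × B) (fun x y a' mb => ∑ a, U x (a', mb.1) a * ψ x y a mb.2) := by
  induction k with
  | zero =>
    intro q A _ B _ ψ A' _ U hU h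
    have h1 := (h.locA (fun x a' a => U x (a', default) a) (fun x v => by
      have h2 := hU x v
      rw [Fintype.sum_prod_type] at h2
      simp only [Fintype.sum_subsingleton _ (default : Fin 0 → Bool)] at h2
      exact h2)).relB (Equiv.uniqueProd B (Fin 0 → Bool)).symm
    refine h1.congr fun x y a b => ?_
    obtain ⟨b1, b2⟩ := b
    have e1 : b1 = default := Subsingleton.elim _ _
    subst e1
    rfl
  | succ k ih =>
    intro q A _ B _ ψ A' _ U hU h
    have h1 := h.send1A (A' := A' × (Fin k → Bool)) (fun x p a => U x (p.1.1, Fin.cons p.2 p.1.2) a) (by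
      intro x v
      have h2 := hU x v
      rw [← h2]
      let e : ((A' × (Fin k → Bool)) × Bool) ≃ (A' × (Fin (k + 1) → Bool)) :=
        { toFun := fun p => (p.1.1, Fin.cons p.2 p.1.2)
          invFun := fun p => ((p.1, Fin.tail p.2), p.2 0)
          left_inv := fun p => by
            obtain ⟨⟨a, w⟩, t⟩ := p
            simp
          right_inv := fun p => by
            obtain ⟨a, w⟩ := p
            simp }
      exact Fintype.sum_equiv e _ _ (fun p => rfl))
    have h3 := ih (A' := A') (fun _ => pm (Equiv.refl (A' × (Fin k → Bool)))) (fun _ => pm_isometry _) h1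
    have h4 := h3.relB (B' := (Fin (k + 1) → Bool) × B)
      { toFun := fun p => (Fin.cons p.2.1 p.1, p.2.2)
        invFun := fun p => (Fin.tail p.1, (p.1 0, p.2))
        left_inv := fun p => by
          obtain ⟨w, t, b⟩ := p
          simp
        right_inv := fun p => by
          obtain ⟨w, b⟩ := p
          simp }
    have e1 : q + (k + 1) = q + 1 + k := by ring
    rw [e1]
    refine h4.congr fun x y a b => ?_
    obtain ⟨w, b⟩ := b
    simp only [pm_apply, aliceSend, Equiv.coe_fn_symm_mk, Equiv.refl_symm, Equiv.refl_apply, Fin.cons_self_tail]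

theorem sendFinB0 {X Y : Type} (k : ℕ) : ∀ {q : ℕ} {A : Type} [Fintype A] {B : Type} [Fintype B]
    {ψ : X → Y → A → B → ℂ} {B' : Type} [Fintype B'] (U : Y → B' × (Fin k → Bool) → B → ℂ),
    (∀ y, IsIsometry (U y)) → RL0 X Y q A B ψ →
    RL0 X Y (q + k) ((Fin k → Bool) × A) B' (fun x y ma b' => ∑ b, U y (b', ma.1) b * ψ x y ma.2 b) := by
  induction k with
  | zero =>
    intro q A _ B _ ψ B' _ U hU h
    have h1 := (h.locB (fun y b' b => U y (b', default) b) (fun y v => by
      have h2 := hU y v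
      rw [Fintype.sum_prod_type] at h2
      simp only [Fintype.sum_subsingleton _ (default : Fin 0 → Bool)] at h2
      exact h2)).relA (Equiv.uniqueProd A (Fin 0 → Bool)).symm
    refine h1.congr fun x y a b => ?_
    obtain ⟨a1, a2⟩ := a
    have e1 : a1 = default := Subsingleton.elim _ _
    subst e1
    rfl
  | succ k ih =>
    intro q A _ B _ ψ B' _ U hU h
    have h1 := h.send1B (B' := B' × (Fin k → Bool)) (fun y p b => U y (p.1.1, Fin.cons p.2 p.1.2) b) (by
      intro y v
      have h2 := hU y v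
      rw [← h2]
      let e : ((B' × (Fin k → Bool)) × Bool) ≃ (B' × (Fin (k + 1) → Bool)) :=
        { toFun := fun p => (p.1.1, Fin.cons p.2 p.1.2)
          invFun := fun p => ((p.1, Fin.tail p.2), p.2 0)
          left_inv := fun p => by
            obtain ⟨⟨a, w⟩, t⟩ := p
            simp
          right_inv := fun p => by
            obtain ⟨a, w⟩ := p
            simp }
      exact Fintype.sum_equiv e _ _ (fun p => rfl))
    have h3 := ih (B' := B') (fun _ => pm (Equiv.refl (B' × (Fin k → Bool)))) (fun _ => pm_isometry _) h1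
    have h4 := h3.relA (A' := (Fin (k + 1) → Bool) × A)
      { toFun := fun p => (Fin.cons p.2.1 p.1, p.2.2)
        invFun := fun p => (Fin.tail p.1, (p.1 0, p.2))
        left_inv := fun p => by
          obtain ⟨w, t, b⟩ := p
          simp
        right_inv := fun p => by
          obtain ⟨w, b⟩ := p
          simp }
    have e1 : q + (k + 1) = q + 1 + k := by ring
    rw [e1]
    refine h4.congr fun x y a b => ?_
    obtain ⟨w, a⟩ := a
    simp only [pm_apply, bobSend, Equiv.coe_fn_symm_mk, Equiv.refl_symm, Equiv.refl_apply, Fin.cons_self_tail]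

/-- Alice sends a register of dimension `2 ^ k`. -/
theorem RL0.sendA (h : RL0 X Y q A B ψ) {M : Type} [Fintype M] {k : ℕ} (hM : Fintype.card M = 2 ^ k) {A' : Type}
    [Fintype A'] (U : X → A' × M → A → ℂ) (hU : ∀ x, IsIsometry (U x)) :
    RL0 X Y (q + k) A' (M × B) (fun x y a' mb => ∑ a, U x (a', mb.1) a * ψ x y a mb.2) := by
  have e : M ≃ (Fin k → Bool) := Fintype.equivOfCardEq (by rw [hM]; simp)
  have h1 := sendFinA0 k (A' := A') (fun x p a => U x (p.1, e.symm p.2) a) (by
    intro x v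
    rw [← hU x v]
    exact Fintype.sum_equiv ((Equiv.refl A').prodCongr e.symm) _ _ (fun p => rfl)) h
  have h2 := h1.relB (e.symm.prodCongr (Equiv.refl B))
  refine h2.congr fun x y a b => ?_
  obtain ⟨m, b⟩ := b
  simp

/-- Bob sends a register of dimension `2 ^ k`. -/
theorem RL0.sendB (h : RL0 X Y q A B ψ) {M : Type} [Fintype M] {k : ℕ} (hM : Fintype.card M = 2 ^ k) {B' : Type}
    [Fintype B'] (U : Y → B' × M → B → ℂ) (hU : ∀ y, IsIsometry (U y)) :
    RL0 X Y (q + k) (M × A) B' (fun x y ma b' => ∑ b, U y (b', ma.1) b * ψ x y ma.2 b) := by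
  have e : M ≃ (Fin k → Bool) := Fintype.equivOfCardEq (by rw [hM]; simp)
  have h1 := sendFinB0 k (B' := B') (fun y p b => U y (p.1, e.symm p.2) b) (by
    intro y v
    rw [← hU y v]
    exact Fintype.sum_equiv ((Equiv.refl B').prodCongr e.symm) _ _ (fun p => rfl)) h
  have h2 := h1.relA (e.symm.prodCongr (Equiv.refl A))
  refine h2.congr fun x y a b => ?_
  obtain ⟨m, a⟩ := a
  simp

/-- Alice measures at the end. -/
theorem RL0.finalA (h : RL0 X Y q A B ψ) {F : X → Y → Bool} {A' : Type} [Fintype A'] (U : X → A' × Bool → A → ℂ)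
    (hU : ∀ x, IsIsometry (U x))
    (hp : ∀ x y, 2 / 3 ≤ ∑ a', ∑ b, ‖∑ a, U x (a', F x y) a * ψ x y a b‖ ^ 2) : QuantumComputes0 F q := by
  obtain ⟨A0, i1, B0, i2, ψ0, V, W, h0, hV, hW, e⟩ := h
  refine ⟨A0, i1, B0, i2, ψ0, h0, Or.inl ⟨A', inferInstance, fun x p a0 => ∑ a, U x p a * V x a a0,
    fun x => isometry_comp (hU x) (hV x), fun x y => (hp x y).trans (le_of_eq ?_)⟩⟩
  refine sum_congr rfl fun a' _ => ?_
  have h1 := hW y (fun b0 => ∑ a0, (∑ a, U x (a', F x y) a * V x a a0) * ψ0 x y a0 b0)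
  unfold aliceSend
  rw [← h1]
  refine sum_congr rfl fun b _ => ?_
  simp only [e]
  rw [tri]

end



section

variable {X Y : Type}

theorem Reach0.comap {X' Y' : Type} {q : ℕ} {A : Type} [Fintype A] {B : Type} [Fintype B] {ψ : X → Y → A → B → ℂ}
    (h : Reach0 X Y q A B ψ) (f : X' → X) (g : Y' → Y) : Reach0 X' Y' q A B (fun x y => ψ (f x) (g y)) := by
  induction h with
  | start => exact Reach0.start
  | alice A' V hV _ ih => exact Reach0.alice A' (fun x => V (f x)) (fun x => hV (f x)) ih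
  | bob B' W hW _ ih => exact Reach0.bob B' (fun y => W (g y)) (fun y => hW (g y)) ih

theorem q_comap {X' Y' : Type} {F : X → Y → Bool} {q : ℕ} (h : QuantumComputes0 F q) (f : X' → X) (g : Y' → Y) :
    QuantumComputes0 (fun x y => F (f x) (g y)) q := by
  obtain ⟨A, i1, B, i2, ψ, h0, h1⟩ := h
  refine ⟨A, i1, B, i2, fun x y => ψ (f x) (g y), h0.comap f g, ?_⟩
  rcases h1 with ⟨A', i3, V, hV, hp⟩ | ⟨B', i3, W, hW, hp⟩
  · exact Or.inl ⟨A', i3, fun x => V (f x), fun x => hV (f x), fun x y => hp (f x) (g y)⟩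
  · exact Or.inr ⟨B', i3, fun y => W (g y), fun y => hW (g y), fun x y => hp (f x) (g y)⟩

/-- a dummy qubit -/
noncomputable def qone_d {A : Type} : A × Bool → A → ℂ := by
  classical
  exact fun p a => if p = (a, false) then 1 else 0

theorem qone_d_apply {A : Type} [Fintype A] (v : A → ℂ) (p : A × Bool) :
    ∑ a, qone_d p a * v a = if p.2 then 0 else v p.1 := by
  classical
  obtain ⟨a', t⟩ := p
  unfold qone_d
  cases t
  · simp only [Prod.mk.injEq, and_true, Bool.false_eq_true, if_false]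
    rw [Finset.sum_eq_single a']
    · simp
    · intro a _ ha
      rw [if_neg (Ne.symm ha), zero_mul]
    · intro h
      exact absurd (mem_univ _) h
  · simp

theorem qone_d_iso {A : Type} [Fintype A] : IsIsometry (qone_d (A := A)) := by
  intro v
  simp only [qone_d_apply]
  rw [Fintype.sum_prod_type]
  refine sum_congr rfl fun a _ => ?_
  simp

theorem quantumComputes0_succ {F : X → Y → Bool} {q : ℕ} (h : QuantumComputes0 F q) : QuantumComputes0 F (q + 1) := by
  obtain ⟨A, i1, B, i2, ψ, h0, h1⟩ := h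
  rcases h1 with ⟨A', i3, V, hV, hp⟩ | ⟨B', i3, W, hW, hp⟩
  · refine ⟨A, i1, Bool × B, inferInstance, _, h0.alice A (fun _ => qone_d) (fun _ => qone_d_iso),
      Or.inl ⟨A', i3, V, hV, fun x y => (hp x y).trans (le_of_eq ?_)⟩⟩
    refine sum_congr rfl fun a' _ => ?_
    rw [Fintype.sum_prod_type]
    simp only [aliceSend, qone_d_apply, Fintype.sum_bool, if_true, Bool.false_eq_true, if_false, mul_zero,
      sum_const_zero, norm_zero]
    simp
  · refine ⟨Bool × A, inferInstance, B, i2, _, h0.bob B (fun _ => qone_d) (fun _ => qone_d_iso),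
      Or.inr ⟨B', i3, W, hW, fun x y => (hp x y).trans (le_of_eq ?_)⟩⟩
    refine sum_congr rfl fun b' _ => ?_
    rw [Fintype.sum_prod_type]
    simp only [bobSend, qone_d_apply, Fintype.sum_bool, if_true, Bool.false_eq_true, if_false, mul_zero,
      sum_const_zero, norm_zero]
    simp

theorem quantumComputes0_mono {F : X → Y → Bool} {q q' : ℕ} (h : QuantumComputes0 F q) (hq : q ≤ q') :
    QuantumComputes0 F q' := by
  induction hq with
  | refl => exact h
  | step _ ih => exact quantumComputes0_succ ih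

/-- the final map of Alice: she computes the output from the message -/
noncomputable def qone_f {X C : Type} (out : X → C → Bool) (x : X) : C × Bool → C → ℂ := by
  classical
  exact fun p c => if p = (c, out x c) then 1 else 0

theorem qone_f_apply {X C : Type} [Fintype C] (out : X → C → Bool) (x : X) (v : C → ℂ) (p : C × Bool) :
    ∑ c, qone_f out x p c * v c = if out x p.1 = p.2 then v p.1 else 0 := by
  classical
  obtain ⟨c', t⟩ := p
  unfold qone_f
  rw [Finset.sum_eq_single c']
  · by_cases h : out x c' = t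
    · subst h
      simp
    · have h' : ¬ t = out x c' := fun e => h e.symm
      simp [h, h']
  · intro c _ hc
    have : ¬ (c', t) = (c, out x c) := by
      intro e
      exact hc (Prod.mk.inj e).1.symm
    rw [if_neg this, zero_mul]
  · intro h
    exact absurd (mem_univ _) h

theorem qone_f_iso {X C : Type} [Fintype C] (out : X → C → Bool) (x : X) : IsIsometry (qone_f out x) := by
  intro v
  simp only [qone_f_apply]
  rw [Fintype.sum_prod_type]
  refine sum_congr rfl fun c _ => ?_
  rw [Fintype.sum_bool]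
  cases out x c <;> simp

/-- the map of Bob: he chooses `r`, measures, and writes the message -/
noncomputable def qone_b {Y S M R C : Type} [Fintype R] (U : Y → M → S → ℂ) (msg : Y → R → M → C) (y : Y) :
    (R × M) × C → S × Unit → ℂ := by
  classical
  exact fun p s => if p.2 = msg y p.1.1 p.1.2 then
    ((1 / Real.sqrt (Fintype.card R) : ℝ) : ℂ) * U y p.1.2 s.1 else 0

theorem qone_b_apply {Y S M R C : Type} [Fintype S] [Fintype R] (U : Y → M → S → ℂ) (msg : Y → R → M → C) (y : Y)
    [DecidableEq C] (v : S × Unit → ℂ) (p : (R × M) × C) :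
    ∑ s, qone_b U msg y p s * v s = if p.2 = msg y p.1.1 p.1.2 then
      ((1 / Real.sqrt (Fintype.card R) : ℝ) : ℂ) * ∑ s, U y p.1.2 s * v (s, ()) else 0 := by
  unfold qone_b
  rw [Fintype.sum_prod_type]
  by_cases h : p.2 = msg y p.1.1 p.1.2
  · simp only [if_pos h]
    rw [Finset.mul_sum]
    refine sum_congr rfl fun s _ => ?_
    simp [mul_assoc]
  · simp only [if_neg h]
    simp

theorem qone_b_iso {Y S M R C : Type} [Fintype S] [Fintype M] [Fintype R] [Nonempty R] [Fintype C]
    (U : Y → M → S → ℂ) (hU : ∀ y, IsIsometry (U y)) (msg : Y → R → M → C) (y : Y) :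
    IsIsometry (qone_b U msg y) := by
  classical
  intro v
  have hR : (0 : ℝ) < Fintype.card R := by exact_mod_cast Fintype.card_pos
  simp only [qone_b_apply]
  rw [Fintype.sum_prod_type, Fintype.sum_prod_type]
  have h1 : ∀ (r : R) (m : M), ∑ c : C, ‖if c = msg y r m then
      ((1 / Real.sqrt (Fintype.card R) : ℝ) : ℂ) * ∑ s, U y m s * v (s, ()) else 0‖ ^ 2 =
      1 / (Fintype.card R : ℝ) * ‖∑ s, U y m s * v (s, ())‖ ^ 2 := by
    intro r m
    rw [Finset.sum_eq_single (msg y r m)]
    · rw [if_pos rfl, norm_mul, mul_pow, Complex.norm_real, Real.norm_eq_abs, sq_abs, div_pow, Real.sq_sqrt hR.le,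
        one_pow]
    · intro c _ hc
      rw [if_neg hc, norm_zero]
      norm_num
    · intro h
      exact absurd (mem_univ _) h
  simp only [h1]
  simp only [← Finset.mul_sum]
  have h2 := hU y (fun s => v (s, ()))
  rw [h2, sum_const, card_univ, nsmul_eq_mul, Fintype.sum_prod_type]
  simp only [Fintype.sum_unique]
  field_simp

theorem q_one_round {X Y S M R : Type} [Fintype S] [Fintype M] [Fintype R] [Nonempty R] (k1 k2 : ℕ)
    (e : S ≃ (Fin k1 → Bool)) (φ : X → S → ℂ) (hφ : ∀ x, ∑ s, ‖φ x s‖ ^ 2 = 1) (U : Y → M → S → ℂ)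
    (hU : ∀ y, IsIsometry (U y)) (msg : Y → R → M → Fin k2 → Bool) (out : X → (Fin k2 → Bool) → Bool)
    (F : X → Y → Bool)
    (h : ∀ x y, 2 / 3 ≤ av (fun r : R => ∑ m, if out x (msg y r m) = F x y then ‖∑ s, U y m s * φ x s‖ ^ 2 else 0)) :
    QuantumComputes0 F (k1 + k2 + 2) := by
  classical
  have hR : (0 : ℝ) < Fintype.card R := by exact_mod_cast Fintype.card_pos
  have hS : Fintype.card S = 2 ^ k1 := by
    rw [Fintype.card_congr e]
    simp
  refine quantumComputes0_mono (q := 0 + k1 + k2) ?_ (by omega)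
  have s1 := (RL0.start (X := X) (Y := Y)).sendA (M := S) (k := k1) hS (A' := Unit)
    (fun x p _ => φ x p.2) (by
      intro x v
      rw [Fintype.sum_prod_type]
      simp only [Fintype.sum_unique, norm_mul, mul_pow]
      rw [← Finset.sum_mul, hφ, one_mul])
  have s2 := s1.sendB (M := Fin k2 → Bool) (k := k2) (by simp) (B' := R × M) (qone_b U msg)
    (fun y => qone_b_iso U hU msg y)
  refine s2.finalA (A' := (Fin k2 → Bool) × Unit) (qone_f (fun x c => out x c.1)) (fun x => qone_f_iso _ x) ?_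
  intro x y
  refine (h x y).trans (le_of_eq ?_)
  simp only [qone_f_apply, qone_b_apply]
  rw [Fintype.sum_prod_type]
  simp only [Fintype.sum_unique, mul_one]
  rw [Finset.sum_comm, Fintype.sum_prod_type]
  unfold av
  rw [Finset.sum_div]
  refine sum_congr rfl fun r _ => ?_
  rw [Finset.sum_div]
  refine sum_congr rfl fun m _ => ?_
  rw [Finset.sum_eq_single (msg y r m)]
  · by_cases h1 : out x (msg y r m) = F x y
    · simp only [if_pos h1, if_true]
      rw [norm_mul, mul_pow, Complex.norm_real, Real.norm_eq_abs, sq_abs, div_pow, Real.sq_sqrt hR.le, one_pow]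
      ring
    · simp [if_neg h1]
  · intro c _ hc
    simp [hc]
  · intro h
    exact absurd (mem_univ _) h

end

end Pool.Agent.H.MP_dd1c2e_lc.Neg
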