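import Mathlib
import Pool.Agent.H.MP_dd1c2e_lc.neg.CertD
import Pool.Agent.H.MP_dd1c2e_lc.neg.Num
import Pool.Agent.H.MP_dd1c2e_lc.neg.QOne
import Pool.Agent.H.MP_dd1c2e_lc.lx.Both0

/-!
# The main theorem from the upper and the lower bound for the lookup function
-/

namespace Pool.Agent.H.MP_dd1c2e_lc.Neg

open Finset LX

/-- The inputs of one party in the lookup function. -/
abbrev LIn (a c k P : ℕ) :=
  (Fin c × Fin k → (Fin a → Bool) ⊕ (Fin a → Bool) → Bool) ×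
    ((Fin c → Bool) → QI c k (Fin a → Bool) → QI c k (Fin a → Bool) → ZMod P)

/-- The number of inputs of one party. -/
theorem card_LIn (a c k P : ℕ) [NeZero P] : Nat.card (LIn a c k P) =
    2 ^ (c * k * (2 ^ a + 2 ^ a)) * P ^ (((c * k * (2 ^ a * 2 ^ a)) * (c * k * (2 ^ a * 2 ^ a))) * 2 ^ c) := by
  have e1 : Nat.card (Fin c × Fin k → (Fin a → Bool) ⊕ (Fin a → Bool) → Bool) = 2 ^ (c * k * (2 ^ a + 2 ^ a)) := by
    rw [Nat.card_fun, Nat.card_fun, Nat.card_sum, Nat.card_fun, Nat.card_prod]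
    simp only [Nat.card_eq_fintype_card, Fintype.card_fin, Fintype.card_bool]
    rw [← pow_mul, mul_comm]
  have e2 : Nat.card (QI c k (Fin a → Bool)) = c * k * (2 ^ a * 2 ^ a) := by
    rw [QI, Nat.card_prod, Nat.card_prod, Nat.card_prod, Nat.card_fun]
    simp only [Nat.card_eq_fintype_card, Fintype.card_fin, Fintype.card_bool]
  have e3 : Nat.card ((Fin c → Bool) → QI c k (Fin a → Bool) → QI c k (Fin a → Bool) → ZMod P) =
      P ^ (((c * k * (2 ^ a * 2 ^ a)) * (c * k * (2 ^ a * 2 ^ a))) * 2 ^ c) := by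
    rw [Nat.card_fun, Nat.card_fun, Nat.card_fun, e2, Nat.card_zmod, Nat.card_fun]
    simp only [Nat.card_eq_fintype_card, Fintype.card_fin, Fintype.card_bool]
    rw [← pow_mul, ← pow_mul]
    simp only [mul_assoc]
  rw [LIn, Nat.card_prod, e1, e3]

theorem card_LIn_le (a c k P L : ℕ) [NeZero P] (hPL : P ≤ 2 ^ L) : Nat.card (LIn a c k P) ≤
    2 ^ (c * k * (2 ^ a + 2 ^ a) + L * ((c * k * (2 ^ a * 2 ^ a)) * (c * k * (2 ^ a * 2 ^ a))) * 2 ^ c) := by
  rw [card_LIn, pow_add 2]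
  refine Nat.mul_le_mul_left _ ((Nat.pow_le_pow_left hPL _).trans (le_of_eq ?_))
  rw [← pow_mul]
  simp only [mul_assoc]

/-- The main theorem follows from the upper bound `hU` and the lower bound `hL` for the lookup function. -/
theorem main_of
    (hU : ∀ (a c k P L : ℕ) [Fact P.Prime], 1 ≤ c → 14400 * c ≤ k → 2 * (k * (2 ^ a) ^ 2) < P →
      6 * (c * k * (2 ^ a) ^ 2) ≤ P → P ≤ 2 ^ L →
      QuantumComputes0 (LF (A := Fin c × Fin k → (Fin a → Bool) ⊕ (Fin a → Bool) → Bool)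
        (B := Fin c × Fin k → (Fin a → Bool) ⊕ (Fin a → Bool) → Bool) (J := Fin c → Bool) (cert P) (Adr hs))
        (c * k * (a + 1) + (c + (4 + c) * L) + 2))
    (hL : ∀ (a c k P T : ℕ) [Fact P.Prime], 1 ≤ c → 14400 * c ≤ k → 10000 * (T + 1) ≤ 2 ^ c →
      (500 : ℝ) * (c * k) * ((T : ℝ) + 2) ^ 2 ≤ Real.sqrt (2 ^ a) → 100 * 2 ^ c ≤ P →
      ¬ RGen (LF (A := Fin c × Fin k → (Fin a → Bool) ⊕ (Fin a → Bool) → Bool)
        (B := Fin c × Fin k → (Fin a → Bool) ⊕ (Fin a → Bool) → Bool) (J := Fin c → Bool) (cert P) (Adr hs)) T) :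
    ∃ K : ℕ, ∀ b : ℕ, K ≤ b → ∃ n : ℕ, n ≤ 2 ^ (K * b) ∧ ∃ F : (Fin n → Bool) → (Fin n → Bool) → Bool,
      QuantumComputes0 F (K * b ^ 3) ∧ ¬ RGen F (2 ^ b) := by
  refine ⟨200000, fun b hb => ?_⟩
  obtain ⟨a, c, k, P, L, hP, hc, hk, hP1, hP2, hPL, hcells, hhard, hPc, hcost, hbits⟩ := num_all b hb
  have : Fact P.Prime := ⟨hP⟩
  have : NeZero P := ⟨hP.ne_zero⟩
  have hU' := hU a c k P L hc hk hP1 hP2 hPL
  have hL' := hL a c k P (2 ^ b) hc hk hcells hhard hPc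
  refine ⟨_, hbits, ?_⟩
  have hfin : Finite (ZMod P) := Finite.of_fintype (ZMod P)
  have f1 : Finite (Fin c × Fin k → (Fin a → Bool) ⊕ (Fin a → Bool) → Bool) := inferInstance
  have f2 : Finite ((Fin c → Bool) → QI c k (Fin a → Bool) → QI c k (Fin a → Bool) → ZMod P) := inferInstance
  have f3 : Finite (LIn a c k P) := Finite.instProd
  obtain ⟨d, s, hds⟩ := exists_decode (X := LIn a c k P) _ (card_LIn_le a c k P L hPL)
  refine ⟨_, quantumComputes0_mono (q_comap hU' d d) hcost, fun h => hL' ?_⟩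
  have h2 := h.comap s s
  simp only [hds] at h2
  exact h2

end Pool.Agent.H.MP_dd1c2e_lc.Neg
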