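import Pool.Agent.H.MP_dd1c2e_lc.neg.MainOf
import Pool.Agent.H.MP_dd1c2e_lc.neg.Up
import Pool.Agent.H.MP_dd1c2e_lc.neg.Low
import Pool.Agent.H.MP_dd1c2e_lc.lx.Final

/-!
# The log-equivalence conjecture is false: main theorem
-/

namespace Pool.Agent.H.MP_dd1c2e_lc.Neg

open LX

/-- Total functions with an exponential gap between quantum communication without prior entanglement and randomized
communication with public coins. -/
theorem main : ∃ K : ℕ, ∀ b : ℕ, K ≤ b → ∃ n : ℕ, n ≤ 2 ^ (K * b) ∧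
    ∃ F : (Fin n → Bool) → (Fin n → Bool) → Bool, QuantumComputes0 F (K * b ^ 3) ∧ ¬ RGen F (2 ^ b) :=
  main_of q_upper c_lower

end Pool.Agent.H.MP_dd1c2e_lc.Neg
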