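import Pool.Agent.H.MP_dd1c2e_lc.neg.Base

/-!
# One step of the walk anywhere, by fixing coordinates one at a time
-/

namespace Pool.Agent.H.MP_dd1c2e_lc.Neg

open Finset

noncomputable section

theorem mix_upd {S : Type} [Fintype S] [DecidableEq S] (s : S) (F : (S → Bool) → ℝ) :
    ∑ z : S → Bool, ∑ r : Bool, F (Function.update z s r) = 2 * ∑ z, F z := by
  let e : (S → Bool) × Bool ≃ (S → Bool) × Bool :=
    { toFun := fun p => (Function.update p.1 s p.2, p.1 s)
      invFun := fun p => (Function.update p.1 s p.2, p.1 s)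
      left_inv := fun p => by simp
      right_inv := fun p => by simp }
  have h := Equiv.sum_comp e (fun p : (S → Bool) × Bool => F p.1)
  rw [Fintype.sum_prod_type, Fintype.sum_prod_type] at h
  have h2 : ∀ z : S → Bool, ∑ r : Bool, F (e (z, r)).1 = ∑ r : Bool, F (Function.update z s r) :=
    fun z => rfl
  rw [Finset.sum_congr rfl fun z _ => h2 z] at h
  rw [h, Finset.mul_sum]
  refine Finset.sum_congr rfl fun z _ => ?_
  simp

theorem mix_av_upd {S : Type} [Fintype S] [DecidableEq S] (s : S) (F : (S → Bool) → ℝ) :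
    ∑ r : Bool, av (fun x : S → Bool => F (Function.update x s r)) = 2 * av F := by
  unfold av
  rw [← Finset.sum_div, Finset.sum_comm, mix_upd s F, mul_div_assoc]

/-- the factors of the coordinates other than `s` -/
def mixPi {S : Type} [Fintype S] [DecidableEq S] (w : S → ℝ) (s : S) (z : S → Bool) : ℝ :=
  ∏ s' ∈ univ.erase s, (1 + w s' * sg (z s')) / 2

theorem mix_pw {S : Type} [Fintype S] [DecidableEq S] (w : S → ℝ) (s : S) (t : ℝ) (z : S → Bool) :
    pw (Function.update w s t) z = (1 + t * sg (z s)) / 2 * mixPi w s z := by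
  unfold pw mixPi
  rw [← Finset.mul_prod_erase univ _ (mem_univ s), Function.update_self]
  congr 1
  refine Finset.prod_congr rfl fun s' hs' => ?_
  rw [Function.update_of_ne (Finset.ne_of_mem_erase hs')]

theorem mix_pi_upd {S : Type} [Fintype S] [DecidableEq S] (w : S → ℝ) (s : S) (z : S → Bool) (c : Bool) :
    mixPi w s (Function.update z s c) = mixPi w s z := by
  unfold mixPi
  refine Finset.prod_congr rfl fun s' hs' => ?_
  rw [Function.update_of_ne (Finset.ne_of_mem_erase hs')]

/-- `Ht` is affine in each coordinate -/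
theorem mix_affine {S : Type} [Fintype S] [DecidableEq S] (C : (S → Bool) → (S → Bool) → ℝ) (w : S → ℝ)
    (s : S) (a p q : ℝ) :
    Ht C (Function.update w s (a * p + (1 - a) * q)) =
      a * Ht C (Function.update w s p) + (1 - a) * Ht C (Function.update w s q) := by
  unfold Ht
  rw [Finset.mul_sum, Finset.mul_sum, ← Finset.sum_add_distrib]
  refine Finset.sum_congr rfl fun z _ => ?_
  rw [mix_pw, mix_pw, mix_pw]
  ring

/-- the inputs with the coordinate `s` fixed -/
def mixC {S : Type} [DecidableEq S] (C : (S → Bool) → (S → Bool) → ℝ) (s : S) (c r : Bool)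
    (x y : S → Bool) : ℝ :=
  C (Function.update x s r) (Function.update y s (xor r c))

theorem mix_class {S : Type} [DecidableEq S] {n : ℕ} {C : (S → Bool) → (S → Bool) → ℝ}
    (hC : SumProd _ _ n C) (s : S) (c r : Bool) : SumProd _ _ n (mixC C s c r) := by
  obtain ⟨f, g, hf, hg, h1, h2⟩ := hC
  exact ⟨fun l x => f l (Function.update x s r), fun l y => g l (Function.update y s (xor r c)),
    fun l x => hf l _, fun l y => hg l _, fun x y => h1 _ _, fun x y => h2 _ _⟩

theorem mix_xor {S : Type} [DecidableEq S] (x z : S → Bool) (s : S) (r c : Bool) :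
    Function.update (fun s' => xor (x s') (z s')) s (xor r c) =
      fun s' => xor (Function.update x s r s') (Function.update z s c s') := by
  funext s'
  by_cases h : s' = s
  · subst h
    simp
  · simp [Function.update_of_ne h]

/-- fixing the coordinate `s` -/
theorem mix_fix {S : Type} [Fintype S] [DecidableEq S] (C : (S → Bool) → (S → Bool) → ℝ) (w : S → ℝ)
    (s : S) (c : Bool) (t : ℝ) :
    2 * Ht C (Function.update w s (sg c)) = ∑ r : Bool, Ht (mixC C s c r) (Function.update w s t) := by
  set G : (S → Bool) → ℝ := fun z => av (fun x : S → Bool => C x (fun s => xor (x s) (z s))) with hG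
  have hmul : ∀ a b : ℝ, 2 * a = 2 * b → a = b := fun a b h => by linarith
  -- the left side
  have hL : 2 * Ht C (Function.update w s (sg c)) = ∑ z : S → Bool, mixPi w s z * G (Function.update z s c) := by
    unfold Ht
    rw [← mix_upd s]
    refine Finset.sum_congr rfl fun z _ => ?_
    simp only [mix_pw, mix_pi_upd, Function.update_self]
    rw [Fintype.sum_bool]
    cases c
    · simp only [sg]
      simp [hG]
    · simp only [sg]
      simp [hG]
  -- the right side
  have hR : ∀ r : Bool, 2 * Ht (mixC C s c r) (Function.update w s t) =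
      ∑ z : S → Bool, mixPi w s z *
        av (fun x : S → Bool => C (Function.update x s r)
          (fun s' => xor (Function.update x s r s') (Function.update z s c s'))) := by
    intro r
    have e1 : ∀ z : S → Bool, av (fun x : S → Bool => mixC C s c r x (fun s => xor (x s) (z s))) =
        av (fun x : S → Bool => C (Function.update x s r)
          (fun s' => xor (Function.update x s r s') (Function.update z s c s'))) := by
      intro z
      congr 1
      funext x
      unfold mixC
      rw [mix_xor]
    unfold Ht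
    rw [← mix_upd s]
    refine Finset.sum_congr rfl fun z _ => ?_
    simp only [e1, mix_pw, mix_pi_upd, Function.update_self, Function.update_idem]
    rw [Fintype.sum_bool]
    simp only [sg]
    simp
    ring
  apply hmul
  rw [hL, Finset.mul_sum, Finset.mul_sum, Finset.sum_congr rfl fun r _ => hR r, Finset.sum_comm]
  refine Finset.sum_congr rfl fun z _ => ?_
  rw [← Finset.mul_sum, mix_av_upd s (fun x : S → Bool => C x (fun s' => xor (x s') (Function.update z s c s')))]
  rw [hG]
  ring

theorem mix_av_lin {α : Type} [Fintype α] (a b : ℝ) (f g : α → ℝ) :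
    av (fun u => a * f u + b * g u) = a * av f + b * av g := by
  unfold av
  rw [Finset.sum_add_distrib, ← Finset.mul_sum, ← Finset.mul_sum]
  ring

theorem mix_main {I : Type} [Fintype I] [Nonempty I] [DecidableEq I] {H : I → I → ℝ} (δ b : ℝ) (n : ℕ)
    (h0 : ∀ C : (I ⊕ I → Bool) → (I ⊕ I → Bool) → ℝ, SumProd _ _ n C → ∀ η : I ⊕ I → ℝ, (∀ s, 0 ≤ η s ∧ η s ≤ 2 * δ) →
      |av (fun u : I → Bool => Ht C (fun s => η s * xi H u s)) - Ht C 0| ≤ b) (η : I ⊕ I → ℝ)
    (hη : ∀ s, 0 ≤ η s ∧ η s ≤ 2 * δ) :
    ∀ (k : ℕ) (v : I ⊕ I → ℝ), (∀ s, |v s| ≤ 1) → (univ.filter (fun s => v s ≠ 0)).card = k →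
      ∀ C : (I ⊕ I → Bool) → (I ⊕ I → Bool) → ℝ, SumProd _ _ n C →
      |av (fun u : I → Bool => Ht C (fun s => v s + (1 - |v s|) * (η s * xi H u s))) - Ht C v| ≤ b := by
  intro k
  induction k with
  | zero =>
    intro v _ hk C hC
    rw [Finset.card_eq_zero, Finset.filter_eq_empty_iff] at hk
    have hv : v = 0 := by
      funext s
      have := hk (mem_univ s)
      push Not at this
      exact this
    subst hv
    have h := h0 C hC η hη
    simpa using h
  | succ k ih =>
    intro v hv hk C hC
    have hne : (univ.filter (fun s => v s ≠ 0)).Nonempty := by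
      rw [← Finset.card_pos]
      omega
    obtain ⟨s0, hs0⟩ := hne
    rw [mem_filter] at hs0
    obtain ⟨V, hV⟩ : ∃ V, V = Function.update v s0 0 := ⟨_, rfl⟩
    have hVs : V s0 = 0 := by rw [hV, Function.update_self]
    have hVn : ∀ s, s ≠ s0 → V s = v s := fun s hs => by rw [hV, Function.update_of_ne hs]
    have hV1 : ∀ s, |V s| ≤ 1 := by
      intro s
      by_cases h : s = s0
      · rw [h, hVs]
        simp
      · rw [hVn s h]
        exact hv s
    have hVk : (univ.filter (fun s => V s ≠ 0)).card = k := by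
      have e : univ.filter (fun s => V s ≠ 0) = (univ.filter (fun s => v s ≠ 0)).erase s0 := by
        ext s
        rw [mem_filter, mem_erase, mem_filter]
        by_cases h : s = s0
        · rw [h, hVs]
          simp
        · rw [hVn s h]
          simp [h]
      rw [e, Finset.card_erase_of_mem (mem_filter.2 hs0)]
      omega
    obtain ⟨a, ha⟩ : ∃ a, a = |v s0| := ⟨_, rfl⟩
    have ha0 : 0 ≤ a := by rw [ha]; exact abs_nonneg _
    have ha1 : a ≤ 1 := by rw [ha]; exact hv s0
    obtain ⟨c, hc⟩ : ∃ c : Bool, v s0 = a * sg c := by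
      rcases le_total 0 (v s0) with h | h
      · exact ⟨false, by rw [ha, abs_of_nonneg h]; simp [sg]⟩
      · exact ⟨true, by rw [ha, abs_of_nonpos h]; simp [sg]⟩
    -- the two vectors
    obtain ⟨W, hW⟩ : ∃ W : (I → Bool) → I ⊕ I → ℝ, W = fun u s => V s + (1 - |V s|) * (η s * xi H u s) :=
      ⟨_, rfl⟩
    have hWs : ∀ u, W u s0 = η s0 * xi H u s0 := fun u => by
      rw [hW]
      simp [hVs]
    have e1 : ∀ u : I → Bool, (fun s => v s + (1 - |v s|) * (η s * xi H u s)) =
        Function.update (W u) s0 (a * sg c + (1 - a) * (η s0 * xi H u s0)) := by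
      intro u
      funext s
      by_cases h : s = s0
      · subst h
        rw [Function.update_self, ← hc, ha]
      · rw [Function.update_of_ne h, hW]
        simp only
        rw [hVn s h]
    have e2 : v = Function.update V s0 (a * sg c + (1 - a) * 0) := by
      funext s
      by_cases h : s = s0
      · subst h
        rw [Function.update_self, ← hc]
        ring
      · rw [Function.update_of_ne h, hVn s h]
    have e3 : ∀ u : I → Bool, Function.update (W u) s0 (η s0 * xi H u s0) = W u := fun u => by
      rw [← hWs u, Function.update_eq_self]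
    have e4 : Function.update V s0 0 = V := by
      rw [← hVs, Function.update_eq_self]
    have f1 : ∀ u : I → Bool, Ht C (fun s => v s + (1 - |v s|) * (η s * xi H u s)) =
        (a / 2) * (∑ r : Bool, Ht (mixC C s0 c r) (W u)) + (1 - a) * Ht C (W u) := by
      intro u
      rw [e1 u, mix_affine, e3 u]
      have h := mix_fix C (W u) s0 c (η s0 * xi H u s0)
      rw [e3 u] at h
      rw [← h]
      ring
    have f2 : Ht C v = (a / 2) * (∑ r : Bool, Ht (mixC C s0 c r) V) + (1 - a) * Ht C V := by
      rw [e2, mix_affine, e4]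
      have h := mix_fix C V s0 c 0
      rw [e4] at h
      rw [← h]
      ring
    have g1 : av (fun u : I → Bool => Ht C (fun s => v s + (1 - |v s|) * (η s * xi H u s))) =
        (a / 2) * (∑ r : Bool, av (fun u : I → Bool => Ht (mixC C s0 c r) (W u))) +
          (1 - a) * av (fun u : I → Bool => Ht C (W u)) := by
      have h : (fun u : I → Bool => Ht C (fun s => v s + (1 - |v s|) * (η s * xi H u s))) =
          fun u : I → Bool => (a / 2) * (∑ r : Bool, Ht (mixC C s0 c r) (W u)) + (1 - a) * Ht C (W u) :=
        funext f1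
      rw [h, mix_av_lin]
      congr 2
      unfold av
      rw [Finset.sum_comm, Finset.sum_div]
    have k0 := ih V hV1 hVk C hC
    have k1 := fun r => ih V hV1 hVk (mixC C s0 c r) (mix_class hC s0 c r)
    have hWu : ∀ u : I → Bool, (fun s => V s + (1 - |V s|) * (η s * xi H u s)) = W u := fun u => by
      rw [hW]
    simp only [hWu] at k0 k1
    have k1t := abs_le.1 (k1 true)
    have k1f := abs_le.1 (k1 false)
    have k0' := abs_le.1 k0
    rw [g1, f2, Fintype.sum_bool, Fintype.sum_bool]
    have h1a : 0 ≤ 1 - a := by linarith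
    have h2a : 0 ≤ a / 2 := by linarith
    have p1 := mul_le_mul_of_nonneg_left k1t.2 h2a
    have p2 := mul_le_mul_of_nonneg_left k1f.2 h2a
    have p3 := mul_le_mul_of_nonneg_left k0'.2 h1a
    have q1 := mul_le_mul_of_nonneg_left k1t.1 h2a
    have q2 := mul_le_mul_of_nonneg_left k1f.1 h2a
    have q3 := mul_le_mul_of_nonneg_left k0'.1 h1a
    rw [abs_le]
    constructor <;> linarith

theorem step_any {I : Type} [Fintype I] [Nonempty I] [DecidableEq I] {H : I → I → ℝ} (δ b : ℝ) (n : ℕ)
    (h0 : ∀ C : (I ⊕ I → Bool) → (I ⊕ I → Bool) → ℝ, SumProd _ _ n C → ∀ η : I ⊕ I → ℝ, (∀ s, 0 ≤ η s ∧ η s ≤ 2 * δ) →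
      |av (fun u : I → Bool => Ht C (fun s => η s * xi H u s)) - Ht C 0| ≤ b) (hδ : 0 ≤ δ)
    {C : (I ⊕ I → Bool) → (I ⊕ I → Bool) → ℝ} (hC : SumProd _ _ n C) (v : I ⊕ I → ℝ) (hv : ∀ s, |v s| ≤ 1) :
    |av (fun u : I → Bool => Ht C (stp H δ v u)) - Ht C v| ≤ b := by
  have h := mix_main δ b n h0 (fun s => δ * (1 + |v s|)) (fun s => ⟨by positivity, by
    have := hv s
    nlinarith⟩) _ v hv rfl C hC
  have e : ∀ u : I → Bool, (fun s => v s + (1 - |v s|) * (δ * (1 + |v s|) * xi H u s)) = stp H δ v u := by
    intro u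
    funext s
    unfold stp
    rw [← sq_abs (v s)]
    ring
  simpa only [e] using h

end

end Pool.Agent.H.MP_dd1c2e_lc.Neg
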