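import Pool.Agent.H.MP_dd1c2e_lc.neg.Base
import Pool.Agent.H.MP_dd1c2e_lc.neg.Lev2

/-!
# LOGEQ, module 2: one step of the walk at zero (helper55)
-/

namespace Pool.Agent.H.MP_dd1c2e_lc.Neg

open Finset

noncomputable section

theorem step0_prod {S : Type} [DecidableEq S] (t : S → ℝ) (U : Finset S) (h : ∑ s ∈ U, |t s| ≤ 1) :
    |∏ s ∈ U, (1 + t s) - 1| ≤ 2 * ∑ s ∈ U, |t s| ∧
    |∏ s ∈ U, (1 + t s) - (1 + ∑ s ∈ U, t s)| ≤ (∑ s ∈ U, |t s|) ^ 2 ∧
    |∏ s ∈ U, (1 + t s) - (1 + ∑ s ∈ U, t s + ((∑ s ∈ U, t s) ^ 2 - ∑ s ∈ U, t s ^ 2) / 2)| ≤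
      (∑ s ∈ U, |t s|) ^ 3 := by
  induction U using Finset.induction_on with
  | empty => simp
  | insert s U hs ih =>
    rw [sum_insert hs] at h
    obtain ⟨a, ha⟩ : ∃ a, a = ∑ s ∈ U, |t s| := ⟨_, rfl⟩
    have ha0 : 0 ≤ a := by
      rw [ha]
      exact sum_nonneg fun _ _ => abs_nonneg _
    have hb0 : 0 ≤ |t s| := abs_nonneg _
    rw [← ha] at h ih
    obtain ⟨h0, h1, h2⟩ := ih (by linarith)
    rw [prod_insert hs, sum_insert hs, sum_insert hs, sum_insert hs, ← ha]
    obtain ⟨P, hP⟩ : ∃ P, P = ∏ s ∈ U, (1 + t s) := ⟨_, rfl⟩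
    obtain ⟨M, hM⟩ : ∃ M, M = ∑ s ∈ U, t s := ⟨_, rfl⟩
    obtain ⟨Q, hQ⟩ : ∃ Q, Q = ∑ s ∈ U, t s ^ 2 := ⟨_, rfl⟩
    rw [← hP] at h0 h1 h2 ⊢
    rw [← hM] at h1 h2 ⊢
    rw [← hQ] at h2 ⊢
    obtain ⟨x, hx⟩ : ∃ x, x = t s := ⟨_, rfl⟩
    rw [← hx] at h hb0 ⊢
    obtain ⟨b, hb⟩ : ∃ b, b = |x| := ⟨_, rfl⟩
    rw [← hb] at h hb0 ⊢
    have ha1 : a ≤ 1 := by linarith
    have e1 : |x * (P - 1)| ≤ b * (2 * a) := by
      rw [abs_mul, ← hb]
      exact mul_le_mul_of_nonneg_left h0 hb0
    have e2 : |x * (P - (1 + M))| ≤ b * a ^ 2 := by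
      rw [abs_mul, ← hb]
      exact mul_le_mul_of_nonneg_left h1 hb0
    have e3 : |x * P| ≤ b * (1 + 2 * a) := by
      rw [abs_mul, ← hb]
      refine mul_le_mul_of_nonneg_left ?_ hb0
      calc |P| = |(P - 1) + 1| := by ring_nf
        _ ≤ |P - 1| + |(1 : ℝ)| := abs_add_le _ _
        _ ≤ 1 + 2 * a := by
            rw [abs_one]
            linarith
    have hMa : |M| ≤ a := by
      rw [hM, ha]
      exact abs_sum_le_sum_abs _ _
    refine ⟨?_, ?_, ?_⟩
    · have e4 : (1 + x) * P - 1 = ((P - (1 + M)) + M) + (x * (P - 1) + x) := by ring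
      have hxb : |x| = b := hb.symm
      rw [e4]
      calc |((P - (1 + M)) + M) + (x * (P - 1) + x)| ≤
            |(P - (1 + M)) + M| + |x * (P - 1) + x| := abs_add_le _ _
        _ ≤ (|P - (1 + M)| + |M|) + (|x * (P - 1)| + |x|) :=
            add_le_add (abs_add_le _ _) (abs_add_le _ _)
        _ ≤ (a ^ 2 + a) + (b * (2 * a) + b) := by
            rw [hxb]
            exact add_le_add (add_le_add h1 hMa) (add_le_add e1 le_rfl)
        _ ≤ 2 * (b + a) := by nlinarith
    · have e4 : (1 + x) * P - (1 + (x + M)) = (P - (1 + M)) + x * (P - 1) := by ring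
      rw [e4]
      calc |(P - (1 + M)) + x * (P - 1)| ≤ |P - (1 + M)| + |x * (P - 1)| := abs_add_le _ _
        _ ≤ a ^ 2 + b * (2 * a) := add_le_add h1 e1
        _ ≤ (b + a) ^ 2 := by nlinarith [sq_nonneg b]
    · have e4 : (1 + x) * P - (1 + (x + M) + ((x + M) ^ 2 - (x ^ 2 + Q)) / 2) =
          (P - (1 + M + (M ^ 2 - Q) / 2)) + x * (P - (1 + M)) := by ring
      rw [e4]
      calc |(P - (1 + M + (M ^ 2 - Q) / 2)) + x * (P - (1 + M))| ≤
            |P - (1 + M + (M ^ 2 - Q) / 2)| + |x * (P - (1 + M))| := abs_add_le _ _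
        _ ≤ a ^ 3 + b * a ^ 2 := add_le_add h2 e2
        _ ≤ (b + a) ^ 3 := by
            have h3 : 0 ≤ b * a ^ 2 := by positivity
            have h4 : 0 ≤ b ^ 2 * a := by positivity
            have h5 : 0 ≤ b ^ 3 := by positivity
            have h6 : (b + a) ^ 3 = a ^ 3 + 3 * (b * a ^ 2) + 3 * (b ^ 2 * a) + b ^ 3 := by ring
            linarith

theorem prod_rem {S : Type} [Fintype S] [DecidableEq S] (t : S → ℝ) {τ : ℝ} (hτ : ∑ s, |t s| ≤ τ) (hτ1 : τ ≤ 1) :
    |∏ s, (1 + t s) - (1 + ∑ s, t s + ((∑ s, t s) ^ 2 - ∑ s, t s ^ 2) / 2)| ≤ τ ^ 3 :=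
  (step0_prod t univ (hτ.trans hτ1)).2.2.trans
    (pow_le_pow_left₀ (sum_nonneg fun _ _ => abs_nonneg _) hτ 3)

/-! ### averages -/

theorem step0_av_sum {α β : Type} [Fintype α] (U : Finset β) (f : β → α → ℝ) :
    av (fun x => ∑ b ∈ U, f b x) = ∑ b ∈ U, av (f b) := by
  unfold av
  rw [sum_comm, sum_div]

theorem step0_av_mul {α : Type} [Fintype α] (c : ℝ) (f : α → ℝ) :
    av (fun x => c * f x) = c * av f := by
  unfold av
  rw [← mul_sum, mul_div_assoc]

theorem step0_av_add {α : Type} [Fintype α] (f g : α → ℝ) :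
    av (fun x => f x + g x) = av f + av g := by
  unfold av
  rw [sum_add_distrib, add_div]

theorem step0_av_sub {α : Type} [Fintype α] (f g : α → ℝ) :
    av (fun x => f x - g x) = av f - av g := by
  unfold av
  rw [sum_sub_distrib, sub_div]

theorem step0_av_const {α : Type} [Fintype α] [Nonempty α] (c : ℝ) : av (fun _ : α => c) = c := by
  unfold av
  rw [sum_const, card_univ, nsmul_eq_mul]
  have : (Fintype.card α : ℝ) ≠ 0 := by
    exact_mod_cast Fintype.card_ne_zero
  field_simp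

theorem step0_av_mono {α : Type} [Fintype α] {f g : α → ℝ} (h : ∀ x, f x ≤ g x) : av f ≤ av g := by
  unfold av
  exact div_le_div_of_nonneg_right (sum_le_sum fun x _ => h x) (Nat.cast_nonneg _)

theorem step0_abs_av {α : Type} [Fintype α] (f : α → ℝ) : |av f| ≤ av (fun x => |f x|) := by
  unfold av
  rw [abs_div, Nat.abs_cast]
  exact div_le_div_of_nonneg_right (abs_sum_le_sum_abs _ _) (Nat.cast_nonneg _)

theorem step0_av_comm {α β : Type} [Fintype α] [Fintype β] (f : α → β → ℝ) :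
    av (fun x => av (fun y => f x y)) = av (fun y => av (fun x => f x y)) := by
  unfold av
  rw [← sum_div, ← sum_div, sum_comm, div_div, div_div, mul_comm]

theorem step0_sg_sq (b : Bool) : sg b * sg b = 1 := by
  unfold sg
  cases b <;> norm_num

theorem step0_abs_sg (b : Bool) : |sg b| = 1 := by
  unfold sg
  cases b <;> norm_num

theorem step0_sg_not (b : Bool) : sg (!b) = -sg b := by
  unfold sg
  cases b <;> norm_num

/-- flip a coordinate -/
def step0_flip {I : Type} [DecidableEq I] (i : I) : (I → Bool) ≃ (I → Bool) :=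
  Equiv.piCongrRight fun k => if k = i then Equiv.boolNot else Equiv.refl Bool

theorem step0_flip_same {I : Type} [DecidableEq I] (i : I) (u : I → Bool) :
    step0_flip i u i = !(u i) := by
  simp [step0_flip]

theorem step0_flip_ne {I : Type} [DecidableEq I] {i k : I} (h : k ≠ i) (u : I → Bool) :
    step0_flip i u k = u k := by
  simp [step0_flip, h]

theorem step0_mean {I : Type} [Fintype I] [DecidableEq I] (i : I) :
    av (fun u : I → Bool => sg (u i)) = 0 := by
  unfold av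
  have h1 : ∑ u : I → Bool, sg (u i) = ∑ u : I → Bool, sg (step0_flip i u i) :=
    (Equiv.sum_comp (step0_flip i) (fun u : I → Bool => sg (u i))).symm
  simp only [step0_flip_same, step0_sg_not, sum_neg_distrib] at h1
  have h2 : ∑ u : I → Bool, sg (u i) = 0 := by linarith
  rw [h2, zero_div]

theorem step0_cov {I : Type} [Fintype I] [DecidableEq I] (i i' : I) :
    av (fun u : I → Bool => sg (u i) * sg (u i')) = if i = i' then 1 else 0 := by
  by_cases h : i = i'
  · subst h
    rw [if_pos rfl]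
    simp only [step0_sg_sq]
    exact step0_av_const 1
  · rw [if_neg h]
    unfold av
    have h1 : ∑ u : I → Bool, sg (u i) * sg (u i') =
        ∑ u : I → Bool, sg (step0_flip i u i) * sg (step0_flip i u i') :=
      (Equiv.sum_comp (step0_flip i) (fun u : I → Bool => sg (u i) * sg (u i'))).symm
    simp only [step0_flip_same, step0_flip_ne (Ne.symm h), step0_sg_not, neg_mul,
      sum_neg_distrib] at h1
    have h2 : ∑ u : I → Bool, sg (u i) * sg (u i') = 0 := by linarith
    rw [h2, zero_div]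

/-! ### moments of the increments -/

theorem step0_xi_mean {I : Type} [Fintype I] [DecidableEq I] (H : I → I → ℝ) (s : I ⊕ I) :
    av (fun u : I → Bool => xi H u s) = 0 := by
  rcases s with i | j
  · exact step0_mean i
  · have h : (fun u : I → Bool => xi H u (Sum.inr j)) =
        fun u => ∑ i, H j i * sg (u i) := rfl
    rw [h, step0_av_sum]
    refine sum_eq_zero fun i _ => ?_
    rw [step0_av_mul, step0_mean, mul_zero]

theorem step0_xi_ll {I : Type} [Fintype I] [DecidableEq I] (H : I → I → ℝ) (i i' : I) :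
    av (fun u : I → Bool => xi H u (Sum.inl i) * xi H u (Sum.inl i')) = if i = i' then 1 else 0 :=
  step0_cov i i'

theorem step0_xi_lr {I : Type} [Fintype I] [DecidableEq I] (H : I → I → ℝ) (i j : I) :
    av (fun u : I → Bool => xi H u (Sum.inl i) * xi H u (Sum.inr j)) = H j i := by
  have h : (fun u : I → Bool => xi H u (Sum.inl i) * xi H u (Sum.inr j)) =
      fun u => ∑ k, H j k * (sg (u i) * sg (u k)) := by
    funext u
    have h1 : xi H u (Sum.inl i) = sg (u i) := rfl
    have h2 : xi H u (Sum.inr j) = ∑ k, H j k * sg (u k) := rfl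
    rw [h1, h2, mul_sum]
    exact sum_congr rfl fun k _ => by ring
  rw [h, step0_av_sum]
  simp only [step0_av_mul, step0_cov, mul_ite, mul_one, mul_zero]
  rw [sum_ite_eq]
  simp

theorem step0_xi_rr {I : Type} [Fintype I] [DecidableEq I] {H : I → I → ℝ} (hH : Had I H) (j j' : I) :
    av (fun u : I → Bool => xi H u (Sum.inr j) * xi H u (Sum.inr j')) = if j = j' then 1 else 0 := by
  have h : (fun u : I → Bool => xi H u (Sum.inr j) * xi H u (Sum.inr j')) =
      fun u => ∑ i, H j i * (xi H u (Sum.inl i) * xi H u (Sum.inr j')) := by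
    funext u
    have h1 : ∀ i, xi H u (Sum.inl i) = sg (u i) := fun _ => rfl
    have h2 : xi H u (Sum.inr j) = ∑ k, H j k * sg (u k) := rfl
    rw [h2, sum_mul]
    exact sum_congr rfl fun k _ => by rw [h1]; ring
  rw [h, step0_av_sum]
  simp only [step0_av_mul, step0_xi_lr]
  exact hH.row j j'

/-- the quadratic part -/
theorem step0_quad {I : Type} [Fintype I] [DecidableEq I] {H : I → I → ℝ} (hH : Had I H)
    (c : I ⊕ I → ℝ) :
    av (fun u : I → Bool => ((∑ s, c s * xi H u s) ^ 2 - ∑ s, (c s * xi H u s) ^ 2) / 2) =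
      ∑ i, ∑ j, c (Sum.inl i) * c (Sum.inr j) * H j i := by
  have e1 : (fun u : I → Bool => ((∑ s, c s * xi H u s) ^ 2 - ∑ s, (c s * xi H u s) ^ 2) / 2) =
      fun u => (1 / 2) * ((∑ s, ∑ s', (c s * c s') * (xi H u s * xi H u s')) -
        ∑ s, (c s * c s) * (xi H u s * xi H u s)) := by
    funext u
    rw [sq, sum_mul_sum]
    have e2 : ∑ s, ∑ s', c s * xi H u s * (c s' * xi H u s') =
        ∑ s, ∑ s', (c s * c s') * (xi H u s * xi H u s') :=
      sum_congr rfl fun s _ => sum_congr rfl fun s' _ => by ring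
    have e3 : ∑ s, (c s * xi H u s) ^ 2 = ∑ s, (c s * c s) * (xi H u s * xi H u s) :=
      sum_congr rfl fun s _ => by ring
    rw [e2, e3]
    ring
  rw [e1, step0_av_mul, step0_av_sub, step0_av_sum, step0_av_sum]
  simp only [step0_av_sum, step0_av_mul]
  simp only [Fintype.sum_sum_type, step0_xi_ll, step0_xi_lr, step0_xi_rr hH]
  have e4 : ∀ i j, av (fun u : I → Bool => xi H u (Sum.inr j) * xi H u (Sum.inl i)) = H j i := by
    intro i j
    rw [← step0_xi_lr H i j]
    congr 1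
    funext u
    ring
  simp only [e4, mul_ite, mul_one, mul_zero, sum_ite_eq, mem_univ, if_true, if_pos rfl]
  simp only [sum_add_distrib]
  have e5 : ∑ x : I, ∑ x_1 : I, c (Sum.inr x) * c (Sum.inl x_1) * H x x_1 =
      ∑ i, ∑ j, c (Sum.inl i) * c (Sum.inr j) * H j i := by
    rw [sum_comm]
    exact sum_congr rfl fun i _ => sum_congr rfl fun j _ => by ring
  rw [e5]
  ring

/-! ### the size of the increments -/

theorem step0_H_abs {I : Type} [Fintype I] [DecidableEq I] {H : I → I → ℝ}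
    (hH : Had I H) (j i : I) : |H j i| = 1 / Real.sqrt (Fintype.card I) := by
  rw [← Real.sqrt_sq_eq_abs, hH.sq, Real.sqrt_div' _ (Nat.cast_nonneg _), Real.sqrt_one]

theorem step0_xi_sum {I : Type} [Fintype I] [Nonempty I] [DecidableEq I] {H : I → I → ℝ}
    (hH : Had I H) (u : I → Bool) : ∑ s, |xi H u s| ≤ 2 * (Fintype.card I : ℝ) ^ 2 := by
  have hN : (1 : ℝ) ≤ Fintype.card I := by
    exact_mod_cast Fintype.card_pos
  have hs : 1 ≤ Real.sqrt (Fintype.card I) := by
    rw [Real.one_le_sqrt]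
    exact hN
  have h1 : ∀ i, |xi H u (Sum.inl i)| = 1 := fun i => step0_abs_sg _
  have h2 : ∀ j, |xi H u (Sum.inr j)| ≤ Fintype.card I := by
    intro j
    have h3 : xi H u (Sum.inr j) = ∑ i, H j i * sg (u i) := rfl
    rw [h3]
    refine (abs_sum_le_sum_abs _ _).trans ?_
    calc ∑ i, |H j i * sg (u i)| ≤ ∑ i : I, (1 : ℝ) := by
          refine sum_le_sum fun i _ => ?_
          rw [abs_mul, step0_abs_sg, mul_one, step0_H_abs hH, div_le_one (by linarith)]
          exact hs
      _ = Fintype.card I := by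
          rw [sum_const, card_univ, nsmul_eq_mul, mul_one]
  rw [Fintype.sum_sum_type]
  calc ∑ i, |xi H u (Sum.inl i)| + ∑ j, |xi H u (Sum.inr j)| ≤
        ∑ i : I, (1 : ℝ) + ∑ j : I, (Fintype.card I : ℝ) :=
        add_le_add (sum_le_sum fun i _ => (h1 i).le) (sum_le_sum fun j _ => h2 j)
    _ = Fintype.card I + Fintype.card I * Fintype.card I := by
        rw [sum_const, sum_const, card_univ, nsmul_eq_mul, nsmul_eq_mul, mul_one]
    _ ≤ 2 * (Fintype.card I : ℝ) ^ 2 := by nlinarith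

/-! ### the multilinear extension as an average -/

theorem step0_Ht {S : Type} [Fintype S] [DecidableEq S] (C : (S → Bool) → (S → Bool) → ℝ)
    (v : S → ℝ) :
    Ht C v = av (fun z : S → Bool => (∏ s, (1 + v s * sg (z s))) *
      av (fun x : S → Bool => C x (fun s => xor (x s) (z s)))) := by
  unfold Ht
  have h1 : ∀ z : S → Bool, pw v z = (∏ s, (1 + v s * sg (z s))) / (Fintype.card (S → Bool) : ℝ) := by
    intro z
    unfold pw
    rw [prod_div_distrib, prod_const, card_univ, Fintype.card_fun, Fintype.card_bool]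
    push_cast
    rfl
  have h2 : ∀ F : (S → Bool) → ℝ, av F = ∑ z, F z / (Fintype.card (S → Bool) : ℝ) := by
    intro F
    unfold av
    rw [sum_div]
  rw [h2 (fun z : S → Bool => (∏ s, (1 + v s * sg (z s))) *
      av (fun x : S → Bool => C x (fun s => xor (x s) (z s))))]
  refine sum_congr rfl fun z _ => ?_
  rw [h1 z]
  ring

theorem step_zero {I : Type} [Fintype I] [Nonempty I] [DecidableEq I] {H : I → I → ℝ} (hH : Had I H) (T : ℕ)
    {C : (I ⊕ I → Bool) → (I ⊕ I → Bool) → ℝ} (hC : SumProd _ _ (2 ^ T) C) {δ : ℝ} (hδ0 : 0 ≤ δ)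
    (hδ : 4 * δ * (Fintype.card I : ℝ) ^ 2 ≤ 1) (η : I ⊕ I → ℝ) (hη : ∀ s, 0 ≤ η s ∧ η s ≤ 2 * δ) :
    |av (fun u : I → Bool => Ht C (fun s => η s * xi H u s)) - Ht C 0| ≤
      8 * δ ^ 2 * ((T : ℝ) + 2) ^ 2 / Real.sqrt (Fintype.card I) + (4 * δ * (Fintype.card I : ℝ) ^ 2) ^ 3 := by
  -- the function `A`
  obtain ⟨A, hA⟩ : ∃ A : (I ⊕ I → Bool) → ℝ,
      A = fun z => av (fun x : I ⊕ I → Bool => C x (fun s => xor (x s) (z s))) := ⟨_, rfl⟩
  have hC01 : ∀ x y, 0 ≤ C x y ∧ C x y ≤ 1 := by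
    obtain ⟨f, g, hf, hg, h1, h2⟩ := hC
    intro x y
    rw [h2]
    exact ⟨sum_nonneg fun l _ => mul_nonneg (hf l x).1 (hg l y).1, h1 x y⟩
  have hA01 : ∀ z, 0 ≤ A z ∧ A z ≤ 1 := by
    intro z
    rw [hA]
    constructor
    · have := step0_av_mono (f := fun _ : I ⊕ I → Bool => (0 : ℝ))
        (g := fun x : I ⊕ I → Bool => C x (fun s => xor (x s) (z s))) (fun x => (hC01 _ _).1)
      rwa [step0_av_const] at this
    · have := step0_av_mono (f := fun x : I ⊕ I → Bool => C x (fun s => xor (x s) (z s)))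
        (g := fun _ : I ⊕ I → Bool => (1 : ℝ)) (fun x => (hC01 _ _).2)
      rwa [step0_av_const] at this
  obtain ⟨τ, hτ⟩ : ∃ τ : ℝ, τ = 4 * δ * (Fintype.card I : ℝ) ^ 2 := ⟨_, rfl⟩
  rw [← hτ] at hδ ⊢
  have hτ0 : 0 ≤ τ := by
    rw [hτ]
    positivity
  -- the remainder
  obtain ⟨Rm, hRm⟩ : ∃ Rm : (I ⊕ I → Bool) → (I → Bool) → ℝ, Rm = fun z u =>
      ∏ s, (1 + (η s * sg (z s)) * xi H u s) - (1 + ∑ s, (η s * sg (z s)) * xi H u s +
        ((∑ s, (η s * sg (z s)) * xi H u s) ^ 2 -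
          ∑ s, ((η s * sg (z s)) * xi H u s) ^ 2) / 2) := ⟨_, rfl⟩
  have hRm1 : ∀ z u, |Rm z u| ≤ τ ^ 3 := by
    intro z u
    rw [hRm]
    refine prod_rem (fun s => (η s * sg (z s)) * xi H u s) ?_ hδ
    calc ∑ s, |(η s * sg (z s)) * xi H u s| ≤ ∑ s, 2 * δ * |xi H u s| := by
          refine sum_le_sum fun s _ => ?_
          rw [abs_mul, abs_mul, step0_abs_sg, mul_one, abs_of_nonneg (hη s).1]
          exact mul_le_mul_of_nonneg_right (hη s).2 (abs_nonneg _)
      _ = 2 * δ * ∑ s, |xi H u s| := by rw [mul_sum]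
      _ ≤ 2 * δ * (2 * (Fintype.card I : ℝ) ^ 2) :=
          mul_le_mul_of_nonneg_left (step0_xi_sum hH u) (by positivity)
      _ = τ := by
          rw [hτ]
          ring
  -- the average over `u`
  have hG : ∀ z : I ⊕ I → Bool, av (fun u : I → Bool => ∏ s, (1 + η s * xi H u s * sg (z s))) - 1 =
      ∑ i, ∑ j, (η (Sum.inl i) * η (Sum.inr j) * H j i) * (sg (z (Sum.inl i)) * sg (z (Sum.inr j))) +
        av (fun u => Rm z u) := by
    intro z
    have e1 : (fun u : I → Bool => ∏ s, (1 + η s * xi H u s * sg (z s))) = fun u =>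
        ((1 + ∑ s, (η s * sg (z s)) * xi H u s) +
        ((∑ s, (η s * sg (z s)) * xi H u s) ^ 2 -
          ∑ s, ((η s * sg (z s)) * xi H u s) ^ 2) / 2) + Rm z u := by
      funext u
      have e2 : ∏ s, (1 + η s * xi H u s * sg (z s)) =
          ∏ s, (1 + (η s * sg (z s)) * xi H u s) :=
        prod_congr rfl fun s _ => by ring
      rw [e2, hRm]
      ring
    rw [e1, step0_av_add, step0_av_add, step0_quad hH, step0_av_add, step0_av_const, step0_av_sum]
    simp only [step0_av_mul, step0_xi_mean, mul_zero, sum_const_zero]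
    have e3 : ∑ i, ∑ j, η (Sum.inl i) * sg (z (Sum.inl i)) * (η (Sum.inr j) * sg (z (Sum.inr j))) *
        H j i = ∑ i, ∑ j, (η (Sum.inl i) * η (Sum.inr j) * H j i) *
          (sg (z (Sum.inl i)) * sg (z (Sum.inr j))) :=
      sum_congr rfl fun i _ => sum_congr rfl fun j _ => by ring
    rw [e3]
    ring
  -- the difference
  have hmain : av (fun u : I → Bool => Ht C (fun s => η s * xi H u s)) - Ht C 0 =
      ∑ i, ∑ j, (η (Sum.inl i) * η (Sum.inr j) * H j i) *
        av (fun z : I ⊕ I → Bool => sg (z (Sum.inl i)) * sg (z (Sum.inr j)) * A z) +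
      av (fun z : I ⊕ I → Bool => av (fun u => Rm z u) * A z) := by
    have e1 : av (fun u : I → Bool => Ht C (fun s => η s * xi H u s)) =
        av (fun z : I ⊕ I → Bool =>
          av (fun u : I → Bool => ∏ s, (1 + η s * xi H u s * sg (z s))) * A z) := by
      have e2 : (fun u : I → Bool => Ht C (fun s => η s * xi H u s)) = fun u =>
          av (fun z : I ⊕ I → Bool => (∏ s, (1 + η s * xi H u s * sg (z s))) * A z) := by
        funext u
        rw [step0_Ht, hA]
      rw [e2, step0_av_comm]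
      congr 1
      funext z
      have e3 : (fun u : I → Bool => (∏ s, (1 + η s * xi H u s * sg (z s))) * A z) =
          fun u => A z * ∏ s, (1 + η s * xi H u s * sg (z s)) := by
        funext u
        ring
      rw [e3, step0_av_mul, mul_comm]
    have e4 : Ht C 0 = av (fun z : I ⊕ I → Bool => A z) := by
      rw [step0_Ht, hA]
      congr 1
      funext z
      simp
    rw [e1, e4, ← step0_av_sub]
    have e5 : (fun z : I ⊕ I → Bool =>
        av (fun u : I → Bool => ∏ s, (1 + η s * xi H u s * sg (z s))) * A z - A z) =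
        fun z => (∑ i, ∑ j, (η (Sum.inl i) * η (Sum.inr j) * H j i) *
          (sg (z (Sum.inl i)) * sg (z (Sum.inr j)) * A z)) + av (fun u => Rm z u) * A z := by
      funext z
      have e6 := hG z
      have e7 : av (fun u : I → Bool => ∏ s, (1 + η s * xi H u s * sg (z s))) * A z - A z =
          (av (fun u : I → Bool => ∏ s, (1 + η s * xi H u s * sg (z s))) - 1) * A z := by ring
      rw [e7, e6, add_mul, sum_mul]
      congr 1
      refine sum_congr rfl fun i _ => ?_
      rw [sum_mul]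
      exact sum_congr rfl fun j _ => by ring
    rw [e5, step0_av_add, step0_av_sum]
    congr 1
    refine sum_congr rfl fun i _ => ?_
    rw [step0_av_sum]
    exact sum_congr rfl fun j _ => step0_av_mul _ _
  rw [hmain]
  have hN : (0 : ℝ) < Fintype.card I := by
    exact_mod_cast Fintype.card_pos
  have hsq : 0 < Real.sqrt (Fintype.card I) := Real.sqrt_pos.2 hN
  refine (abs_add_le _ _).trans (add_le_add ?_ ?_)
  · have hl := level2_sum T hC
    have h1 : ∀ i j, |(η (Sum.inl i) * η (Sum.inr j) * H j i) *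
        av (fun z : I ⊕ I → Bool => sg (z (Sum.inl i)) * sg (z (Sum.inr j)) * A z)| ≤
        (4 * δ ^ 2 / Real.sqrt (Fintype.card I)) *
        |av (fun z : I ⊕ I → Bool => sg (z (Sum.inl i)) * sg (z (Sum.inr j)) * A z)| := by
      intro i j
      rw [abs_mul]
      refine mul_le_mul_of_nonneg_right ?_ (abs_nonneg _)
      rw [abs_mul, step0_H_abs hH, abs_mul, abs_of_nonneg (hη _).1, abs_of_nonneg (hη _).1]
      have h2 : η (Sum.inl i) * η (Sum.inr j) ≤ (2 * δ) * (2 * δ) :=
        mul_le_mul (hη _).2 (hη _).2 (hη _).1 (by linarith)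
      calc η (Sum.inl i) * η (Sum.inr j) * (1 / Real.sqrt (Fintype.card I)) ≤
            (2 * δ) * (2 * δ) * (1 / Real.sqrt (Fintype.card I)) :=
            mul_le_mul_of_nonneg_right h2 (by positivity)
        _ = _ := by ring
    calc |∑ i, ∑ j, (η (Sum.inl i) * η (Sum.inr j) * H j i) *
        av (fun z : I ⊕ I → Bool => sg (z (Sum.inl i)) * sg (z (Sum.inr j)) * A z)| ≤
        ∑ i, ∑ j, |(η (Sum.inl i) * η (Sum.inr j) * H j i) *
        av (fun z : I ⊕ I → Bool => sg (z (Sum.inl i)) * sg (z (Sum.inr j)) * A z)| :=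
          (abs_sum_le_sum_abs _ _).trans (sum_le_sum fun i _ => abs_sum_le_sum_abs _ _)
      _ ≤ ∑ i, ∑ j, (4 * δ ^ 2 / Real.sqrt (Fintype.card I)) *
        |av (fun z : I ⊕ I → Bool => sg (z (Sum.inl i)) * sg (z (Sum.inr j)) * A z)| :=
          sum_le_sum fun i _ => sum_le_sum fun j _ => h1 i j
      _ = (4 * δ ^ 2 / Real.sqrt (Fintype.card I)) * ∑ i, ∑ j,
        |av (fun z : I ⊕ I → Bool => sg (z (Sum.inl i)) * sg (z (Sum.inr j)) * A z)| := by
          rw [mul_sum]
          exact sum_congr rfl fun i _ => by rw [mul_sum]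
      _ ≤ (4 * δ ^ 2 / Real.sqrt (Fintype.card I)) * (2 * ((T : ℝ) + 2) ^ 2) := by
          refine mul_le_mul_of_nonneg_left ?_ (by positivity)
          rw [hA]
          exact hl
      _ = 8 * δ ^ 2 * ((T : ℝ) + 2) ^ 2 / Real.sqrt (Fintype.card I) := by ring
  · refine (step0_abs_av _).trans ?_
    have h1 : ∀ z : I ⊕ I → Bool, |av (fun u => Rm z u) * A z| ≤ τ ^ 3 := by
      intro z
      rw [abs_mul, abs_of_nonneg (hA01 z).1]
      have h2 : |av (fun u => Rm z u)| ≤ τ ^ 3 := by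
        refine (step0_abs_av _).trans ((step0_av_mono (hRm1 z)).trans ?_)
        rw [step0_av_const]
      calc |av (fun u => Rm z u)| * A z ≤ τ ^ 3 * 1 :=
            mul_le_mul h2 (hA01 z).2 (hA01 z).1 (by positivity)
        _ = τ ^ 3 := mul_one _
    refine (step0_av_mono h1).trans ?_
    rw [step0_av_const]

end

end Pool.Agent.H.MP_dd1c2e_lc.Neg
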