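import Mathlib
import Pool.Agent.H.MP_dd1c2e_lc.neg.Base

/-!
# The walk and the law `d1`
-/

namespace Pool.Agent.H.MP_dd1c2e_lc.Neg

open Finset

noncomputable section

/-! ### averages -/

theorem walk_av_const {α : Type} [Fintype α] [Nonempty α] (c : ℝ) : av (fun _ : α => c) = c := by
  unfold av
  rw [Finset.sum_const, Finset.card_univ, nsmul_eq_mul]
  field_simp

theorem walk_av_add {α : Type} [Fintype α] (f g : α → ℝ) : av (fun x => f x + g x) = av f + av g := by
  unfold av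
  rw [Finset.sum_add_distrib, add_div]

theorem walk_av_mul {α : Type} [Fintype α] (c : ℝ) (f : α → ℝ) : av (fun x => c * f x) = c * av f := by
  unfold av
  rw [← Finset.mul_sum, mul_div_assoc]

theorem walk_av_sum {α ι : Type} [Fintype α] (s : Finset ι) (f : ι → α → ℝ) :
    av (fun x => ∑ i ∈ s, f i x) = ∑ i ∈ s, av (f i) := by
  unfold av
  rw [Finset.sum_comm, Finset.sum_div]

theorem walk_av_mono {α : Type} [Fintype α] {f g : α → ℝ} (h : ∀ x, f x ≤ g x) : av f ≤ av g := by
  unfold av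
  exact div_le_div_of_nonneg_right (Finset.sum_le_sum fun x _ => h x) (Nat.cast_nonneg _)

theorem walk_av_prod {α : Type} [Fintype α] [Nonempty α] (a b c d : ℝ) (X Y : α → ℝ) :
    av (fun u => (a + b * X u) * (c + d * Y u)) =
      a * c + a * d * av Y + b * c * av X + b * d * av (fun u => X u * Y u) := by
  have h : (fun u => (a + b * X u) * (c + d * Y u)) =
      fun u => ((a * c + a * d * Y u) + b * c * X u) + b * d * (X u * Y u) := by
    funext u; ring
  rw [h, walk_av_add, walk_av_add, walk_av_add, walk_av_const, walk_av_mul, walk_av_mul, walk_av_mul]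

theorem walk_av_flip {I : Type} [Fintype I] [DecidableEq I] (i : I) (f : (I → Bool) → ℝ)
    (hf : ∀ u, f (Function.update u i (!(u i))) = - f u) : av f = 0 := by
  have hinv : Function.Involutive (fun u : I → Bool => Function.update u i (!(u i))) := by
    intro u
    funext k
    by_cases hk : k = i
    · subst hk; simp
    · simp [Function.update_of_ne hk]
  have h1 : ∑ u, f u = ∑ u, f ((hinv.toPerm _) u) := (Equiv.sum_comp (hinv.toPerm _) f).symm
  have h2 : ∑ u, f ((hinv.toPerm _) u) = - ∑ u, f u := by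
    rw [← Finset.sum_neg_distrib]
    exact Finset.sum_congr rfl fun u _ => hf u
  unfold av
  have h3 : ∑ u, f u = 0 := by linarith
  rw [h3, zero_div]

theorem walk_sg_not (b : Bool) : sg (!b) = - sg b := by
  cases b <;> simp [sg]

theorem walk_sg_sq (b : Bool) : sg b * sg b = 1 := by
  cases b <;> simp [sg]

theorem walk_sg_abs (b : Bool) : |sg b| = 1 := by
  cases b <;> simp [sg]

theorem walk_av_sg {I : Type} [Fintype I] [DecidableEq I] (i : I) :
    av (fun u : I → Bool => sg (u i)) = 0 :=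
  walk_av_flip i _ fun u => by simp [walk_sg_not]

theorem walk_av_sg2 {I : Type} [Fintype I] [DecidableEq I] (i j : I) :
    av (fun u : I → Bool => sg (u i) * sg (u j)) = if i = j then 1 else 0 := by
  by_cases h : i = j
  · subst h
    rw [if_pos rfl]
    have : (fun u : I → Bool => sg (u i) * sg (u i)) = fun _ => (1 : ℝ) := by
      funext u; exact walk_sg_sq _
    rw [this, walk_av_const]
  · rw [if_neg h]
    refine walk_av_flip i _ fun u => ?_
    rw [Function.update_self, Function.update_of_ne (Ne.symm h), walk_sg_not]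
    ring

/-! ### moments of the increment -/

theorem walk_av_xi {I : Type} [Fintype I] [DecidableEq I] (H : I → I → ℝ) (s : I ⊕ I) :
    av (fun u : I → Bool => xi H u s) = 0 := by
  cases s with
  | inl i => simpa [xi] using walk_av_sg i
  | inr j =>
    have : (fun u : I → Bool => xi H u (Sum.inr j)) = fun u => ∑ i, H j i * sg (u i) := rfl
    rw [this, walk_av_sum]
    refine Finset.sum_eq_zero fun i _ => ?_
    rw [walk_av_mul, walk_av_sg, mul_zero]

theorem walk_av_xi2 {I : Type} [Fintype I] [DecidableEq I] (H : I → I → ℝ) (i j : I) :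
    av (fun u : I → Bool => xi H u (Sum.inl i) * xi H u (Sum.inr j)) = H j i := by
  have : (fun u : I → Bool => xi H u (Sum.inl i) * xi H u (Sum.inr j)) =
      fun u => ∑ i', H j i' * (sg (u i) * sg (u i')) := by
    funext u
    simp only [xi, Sum.elim_inl, Sum.elim_inr, Finset.mul_sum]
    exact Finset.sum_congr rfl fun i' _ => by ring
  rw [this, walk_av_sum]
  simp only [walk_av_mul, walk_av_sg2]
  simp

theorem walk_av_xi_sq {I : Type} [Fintype I] [DecidableEq I] {H : I → I → ℝ} (hH : Had I H) (s : I ⊕ I) :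
    av (fun u : I → Bool => xi H u s * xi H u s) = 1 := by
  cases s with
  | inl i => simpa [xi] using walk_av_sg2 i i
  | inr j =>
    have : (fun u : I → Bool => xi H u (Sum.inr j) * xi H u (Sum.inr j)) =
        fun u => ∑ i, ∑ i', H j i * H j i' * (sg (u i) * sg (u i')) := by
      funext u
      simp only [xi, Sum.elim_inr, Finset.sum_mul_sum]
      exact Finset.sum_congr rfl fun i _ => Finset.sum_congr rfl fun i' _ => by ring
    rw [this, walk_av_sum]
    have h2 : ∀ i, av (fun u : I → Bool => ∑ i', H j i * H j i' * (sg (u i) * sg (u i'))) = H j i * H j i := by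
      intro i
      rw [walk_av_sum]
      simp only [walk_av_mul, walk_av_sg2]
      simp
    rw [Finset.sum_congr rfl fun i _ => h2 i, hH.row j j, if_pos rfl]

theorem walk_H_abs {I : Type} [Fintype I] [Nonempty I] [DecidableEq I] {H : I → I → ℝ} (hH : Had I H) (j i : I) :
    |H j i| ≤ 1 := by
  have h1 := hH.sq j i
  have hN : (1 : ℝ) ≤ Fintype.card I := by exact_mod_cast Fintype.card_pos
  have h2 : H j i ^ 2 ≤ 1 := by
    rw [h1, div_le_one (by linarith)]
    exact hN
  exact (sq_le_one_iff_abs_le_one (H j i)).mp h2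

theorem walk_xi_abs {I : Type} [Fintype I] [Nonempty I] [DecidableEq I] {H : I → I → ℝ} (hH : Had I H)
    (u : I → Bool) (s : I ⊕ I) : |xi H u s| ≤ Fintype.card I := by
  have hN : (1 : ℝ) ≤ Fintype.card I := by exact_mod_cast Fintype.card_pos
  cases s with
  | inl i => simpa [xi, walk_sg_abs] using hN
  | inr j =>
    calc |xi H u (Sum.inr j)| = |∑ i, H j i * sg (u i)| := rfl
      _ ≤ ∑ i, |H j i * sg (u i)| := Finset.abs_sum_le_sum_abs _ _
      _ ≤ ∑ _i : I, (1 : ℝ) := Finset.sum_le_sum fun i _ => by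
        rw [abs_mul, walk_sg_abs, mul_one]
        exact walk_H_abs hH j i
      _ = Fintype.card I := by simp

theorem stp_dom {I : Type} [Fintype I] [Nonempty I] [DecidableEq I] {H : I → I → ℝ} (hH : Had I H) {δ : ℝ} (hδ0 : 0 ≤ δ)
    (hδ : 2 * δ * (Fintype.card I : ℝ) ≤ 1) (v : I ⊕ I → ℝ) (hv : ∀ s, |v s| ≤ 1) (u : I → Bool) (s : I ⊕ I) :
    |stp H δ v u s| ≤ 1 := by
  have hx := walk_xi_abs hH u s
  have hvs := hv s
  have h0 := abs_nonneg (v s)
  have hsq : v s ^ 2 = |v s| ^ 2 := (sq_abs (v s)).symm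
  have hnn : 0 ≤ 1 - v s ^ 2 := by rw [hsq]; nlinarith
  have h1 : |δ * (1 - v s ^ 2) * xi H u s| ≤ 1 - |v s| := by
    rw [abs_mul, abs_of_nonneg (mul_nonneg hδ0 hnn)]
    calc δ * (1 - v s ^ 2) * |xi H u s| ≤ δ * (1 - v s ^ 2) * Fintype.card I :=
          mul_le_mul_of_nonneg_left hx (mul_nonneg hδ0 hnn)
      _ = δ * Fintype.card I * (1 + |v s|) * (1 - |v s|) := by rw [hsq]; ring
      _ ≤ 1 * (1 - |v s|) := by
          refine mul_le_mul_of_nonneg_right ?_ (by linarith)
          have hd : 0 ≤ δ * Fintype.card I := mul_nonneg hδ0 (Nat.cast_nonneg _)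
          nlinarith
      _ = 1 - |v s| := one_mul _
  calc |stp H δ v u s| = |v s + δ * (1 - v s ^ 2) * xi H u s| := rfl
    _ ≤ |v s| + |δ * (1 - v s ^ 2) * xi H u s| := abs_add_le _ _
    _ ≤ 1 := by linarith

/-! ### the iterated operator -/

theorem walk_it_nonneg {I : Type} [Fintype I] [Nonempty I] [DecidableEq I] {H : I → I → ℝ} (hH : Had I H) {δ : ℝ}
    (hδ0 : 0 ≤ δ) (hδ : 2 * δ * (Fintype.card I : ℝ) ≤ 1) (Φ : (I ⊕ I → ℝ) → ℝ)
    (hΦ : ∀ v : I ⊕ I → ℝ, (∀ s, |v s| ≤ 1) → 0 ≤ Φ v) (t : ℕ) :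
    ∀ v : I ⊕ I → ℝ, (∀ s, |v s| ≤ 1) → 0 ≤ it H δ t Φ v := by
  induction t with
  | zero => exact hΦ
  | succ t ih =>
    intro v hv
    show 0 ≤ av (fun u : I → Bool => it H δ t Φ (stp H δ v u))
    unfold av
    exact div_nonneg (Finset.sum_nonneg fun u _ => ih _ fun s => stp_dom hH hδ0 hδ v hv u s) (Nat.cast_nonneg _)

theorem walk_it_sum {I ι : Type} [Fintype I] [DecidableEq I] (H : I → I → ℝ) (δ : ℝ) (A : Finset ι)
    (c : ι → ℝ) (Φ : ι → (I ⊕ I → ℝ) → ℝ) (t : ℕ) :
    ∀ v : I ⊕ I → ℝ, it H δ t (fun v => ∑ k ∈ A, Φ k v * c k) v = ∑ k ∈ A, it H δ t (Φ k) v * c k := by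
  induction t with
  | zero => intro v; rfl
  | succ t ih =>
    intro v
    show av (fun u : I → Bool => it H δ t _ (stp H δ v u)) =
      ∑ k ∈ A, av (fun u : I → Bool => it H δ t (Φ k) (stp H δ v u)) * c k
    have h1 : (fun u : I → Bool => it H δ t (fun v => ∑ k ∈ A, Φ k v * c k) (stp H δ v u)) =
        fun u => ∑ k ∈ A, c k * it H δ t (Φ k) (stp H δ v u) := by
      funext u
      rw [ih]
      exact Finset.sum_congr rfl fun k _ => mul_comm _ _
    rw [h1, walk_av_sum]
    exact Finset.sum_congr rfl fun k _ => by rw [walk_av_mul, mul_comm]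

theorem walk_it_const {I : Type} [Fintype I] [DecidableEq I] (H : I → I → ℝ) (δ c : ℝ) (t : ℕ) :
    ∀ v : I ⊕ I → ℝ, it H δ t (fun _ => c) v = c := by
  induction t with
  | zero => intro v; rfl
  | succ t ih =>
    intro v
    show av (fun u : I → Bool => it H δ t _ (stp H δ v u)) = c
    simp only [ih]
    exact walk_av_const c

/-! ### product weights -/

theorem walk_sum_prod {S : Type} [Fintype S] [DecidableEq S] (g : S → Bool → ℝ) :
    ∑ z : S → Bool, ∏ s, g s (z s) = ∏ s, (g s true + g s false) := by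
  have h := Finset.prod_univ_sum (fun _ : S => (Finset.univ : Finset Bool)) g
  rw [Fintype.piFinset_univ] at h
  rw [← h]
  exact Finset.prod_congr rfl fun s _ => by simp

theorem walk_pw_sum {S : Type} [Fintype S] [DecidableEq S] (v : S → ℝ) : ∑ z, pw v z = 1 := by
  unfold pw
  rw [walk_sum_prod (fun s b => (1 + v s * sg b) / 2)]
  refine Finset.prod_eq_one fun s _ => ?_
  simp only [sg, if_true, Bool.false_eq_true, if_false]
  ring

theorem walk_pw_nonneg {S : Type} [Fintype S] (v : S → ℝ) (hv : ∀ s, |v s| ≤ 1) (z : S → Bool) : 0 ≤ pw v z := by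
  unfold pw
  refine Finset.prod_nonneg fun s _ => ?_
  have h1 : |v s * sg (z s)| ≤ 1 := by rw [abs_mul, walk_sg_abs, mul_one]; exact hv s
  have := (abs_le.mp h1).1
  linarith

theorem walk_pw_two {S : Type} [Fintype S] [DecidableEq S] (v : S → ℝ) {a b : S} (hab : a ≠ b) :
    ∑ z, pw v z * (sg (z a) * sg (z b)) = v a * v b := by
  have h1 : ∀ z : S → Bool, pw v z * (sg (z a) * sg (z b)) =
      ∏ s, ((1 + v s * sg (z s)) / 2 * ((if s = a then sg (z s) else 1) * (if s = b then sg (z s) else 1))) := by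
    intro z
    rw [Finset.prod_mul_distrib, Finset.prod_mul_distrib, Finset.prod_ite_eq' univ a (fun s => sg (z s)),
      Finset.prod_ite_eq' univ b (fun s => sg (z s))]
    simp [pw]
  rw [Finset.sum_congr rfl fun z _ => h1 z,
    walk_sum_prod (fun s c => (1 + v s * sg c) / 2 * ((if s = a then sg c else 1) * (if s = b then sg c else 1)))]
  have h2 : ∀ s : S, ((1 + v s * sg true) / 2 * ((if s = a then sg true else 1) * (if s = b then sg true else 1)) +
      (1 + v s * sg false) / 2 * ((if s = a then sg false else 1) * (if s = b then sg false else 1))) =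
      (if s = a then v s else 1) * (if s = b then v s else 1) := by
    intro s
    by_cases h1 : s = a
    · have h2 : s ≠ b := fun h => hab (h1.symm.trans h)
      simp only [h1, if_true, if_neg hab, sg, Bool.false_eq_true, if_false]
      ring
    · by_cases h2 : s = b
      · simp only [if_neg h1, if_pos h2, sg, if_true, Bool.false_eq_true, if_false]
        ring
      · simp only [if_neg h1, if_neg h2, sg, if_true, Bool.false_eq_true, if_false]
        ring
  rw [Finset.prod_congr rfl fun s _ => h2 s, Finset.prod_mul_distrib, Finset.prod_ite_eq' univ a,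
    Finset.prod_ite_eq' univ b]
  simp

theorem walk_pw_zero {S : Type} [Fintype S] [DecidableEq S] (z : S → Bool) :
    pw (0 : S → ℝ) z = 1 / (Fintype.card (S → Bool) : ℝ) := by
  unfold pw
  simp only [Pi.zero_apply, zero_mul, add_zero, Finset.prod_const, Finset.card_univ, Fintype.card_fun,
    Fintype.card_bool]
  push_cast
  rw [div_pow, one_pow]

/-! ### the law -/

theorem d1_nonneg {I : Type} [Fintype I] [Nonempty I] [DecidableEq I] {H : I → I → ℝ} (hH : Had I H) {δ : ℝ}
    (hδ0 : 0 ≤ δ) (hδ : 2 * δ * (Fintype.card I : ℝ) ≤ 1) (t : ℕ) (z : I ⊕ I → Bool) : 0 ≤ d1 H δ t z :=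
  walk_it_nonneg hH hδ0 hδ _ (fun v hv => walk_pw_nonneg v hv z) t 0 fun s => by simp

/-- expectations under `d1` -/
theorem walk_d1_exp {I : Type} [Fintype I] [DecidableEq I] (H : I → I → ℝ) (δ : ℝ) (t : ℕ)
    (G : (I ⊕ I → Bool) → ℝ) :
    ∑ z, d1 H δ t z * G z = it H δ t (fun v => ∑ z, pw v z * G z) 0 :=
  (walk_it_sum H δ Finset.univ G (fun z v => pw v z) t 0).symm

theorem d1_sum {I : Type} [Fintype I] [Nonempty I] [DecidableEq I] (H : I → I → ℝ) (δ : ℝ) (t : ℕ) :
    ∑ z, d1 H δ t z = 1 := by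
  have h := walk_d1_exp H δ t (fun _ => 1)
  simp only [mul_one, walk_pw_sum, walk_it_const] at h
  exact h

theorem walk_pw_forr {I : Type} [Fintype I] [DecidableEq I] (H : I → I → ℝ) (v : I ⊕ I → ℝ) :
    ∑ z, pw v z * forr H (fun s => sg (z s)) = forr H v := by
  have h1 : ∀ z : I ⊕ I → Bool, pw v z * forr H (fun s => sg (z s)) =
      (∑ j, ∑ i, H j i * (pw v z * (sg (z (Sum.inl i)) * sg (z (Sum.inr j))))) / (Fintype.card I : ℝ) := by
    intro z
    unfold forr
    rw [mul_div_assoc', Finset.mul_sum]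
    congr 1
    refine Finset.sum_congr rfl fun j _ => ?_
    rw [Finset.mul_sum]
    exact Finset.sum_congr rfl fun i _ => by ring
  rw [Finset.sum_congr rfl fun z _ => h1 z, ← Finset.sum_div, Finset.sum_comm]
  unfold forr
  congr 1
  refine Finset.sum_congr rfl fun j _ => ?_
  rw [Finset.sum_comm]
  refine Finset.sum_congr rfl fun i _ => ?_
  rw [← Finset.mul_sum, walk_pw_two v (by simp), mul_assoc]

/-- the potential: the sum of the averages of the squares of the two halves -/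
def wpsi {I : Type} [Fintype I] (v : I ⊕ I → ℝ) : ℝ := (∑ s, v s ^ 2) / (Fintype.card I : ℝ)

theorem walk_forr_stp {I : Type} [Fintype I] [DecidableEq I] (H : I → I → ℝ) (δ : ℝ)
    (v : I ⊕ I → ℝ) :
    av (fun u : I → Bool => forr H (stp H δ v u)) =
      forr H v + δ ^ 2 * ((∑ j, ∑ i, H j i ^ 2 * ((1 - v (Sum.inl i) ^ 2) * (1 - v (Sum.inr j) ^ 2))) /
        (Fintype.card I : ℝ)) := by
  have h1 : (fun u : I → Bool => forr H (stp H δ v u)) = fun u => (Fintype.card I : ℝ)⁻¹ *
      ∑ j, ∑ i, H j i * ((v (Sum.inl i) + δ * (1 - v (Sum.inl i) ^ 2) * xi H u (Sum.inl i)) *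
        (v (Sum.inr j) + δ * (1 - v (Sum.inr j) ^ 2) * xi H u (Sum.inr j))) := by
    funext u
    unfold forr
    rw [div_eq_inv_mul]
    congr 1
    refine Finset.sum_congr rfl fun j _ => Finset.sum_congr rfl fun i _ => ?_
    simp only [stp]
    ring
  rw [h1, walk_av_mul, walk_av_sum]
  have h2 : ∀ j, av (fun u : I → Bool => ∑ i, H j i * ((v (Sum.inl i) + δ * (1 - v (Sum.inl i) ^ 2) * xi H u (Sum.inl i)) *
        (v (Sum.inr j) + δ * (1 - v (Sum.inr j) ^ 2) * xi H u (Sum.inr j)))) =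
      ∑ i, (H j i * v (Sum.inl i) * v (Sum.inr j) +
        δ ^ 2 * (H j i ^ 2 * ((1 - v (Sum.inl i) ^ 2) * (1 - v (Sum.inr j) ^ 2)))) := by
    intro j
    rw [walk_av_sum]
    refine Finset.sum_congr rfl fun i _ => ?_
    rw [walk_av_mul, walk_av_prod, walk_av_xi, walk_av_xi, walk_av_xi2]
    ring
  rw [Finset.sum_congr rfl fun j _ => h2 j]
  simp only [Finset.sum_add_distrib, ← Finset.mul_sum]
  unfold forr
  ring

theorem walk_wpsi_stp {I : Type} [Fintype I] [Nonempty I] [DecidableEq I] {H : I → I → ℝ} (hH : Had I H) (δ : ℝ)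
    (v : I ⊕ I → ℝ) (hv : ∀ s, |v s| ≤ 1) :
    av (fun u : I → Bool => wpsi (stp H δ v u)) ≤ wpsi v + 2 * δ ^ 2 := by
  have hN : (0 : ℝ) < Fintype.card I := by exact_mod_cast Fintype.card_pos
  have h1 : (fun u : I → Bool => wpsi (stp H δ v u)) = fun u => (Fintype.card I : ℝ)⁻¹ *
      ∑ s, ((v s + δ * (1 - v s ^ 2) * xi H u s) * (v s + δ * (1 - v s ^ 2) * xi H u s)) := by
    funext u
    unfold wpsi
    rw [div_eq_inv_mul]
    congr 1
    exact Finset.sum_congr rfl fun s _ => by simp only [stp]; ring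
  rw [h1, walk_av_mul, walk_av_sum]
  have h2 : ∀ s, av (fun u : I → Bool => (v s + δ * (1 - v s ^ 2) * xi H u s) * (v s + δ * (1 - v s ^ 2) * xi H u s)) ≤
      v s ^ 2 + δ ^ 2 := by
    intro s
    rw [walk_av_prod, walk_av_xi, walk_av_xi_sq hH]
    have h3 : v s ^ 2 ≤ 1 := (sq_le_one_iff_abs_le_one (v s)).mpr (hv s)
    have h4 : (1 - v s ^ 2) ^ 2 ≤ 1 := by nlinarith [sq_nonneg (v s)]
    nlinarith [mul_le_mul_of_nonneg_left h4 (sq_nonneg δ)]
  calc (Fintype.card I : ℝ)⁻¹ * ∑ s, av (fun u : I → Bool => (v s + δ * (1 - v s ^ 2) * xi H u s) *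
        (v s + δ * (1 - v s ^ 2) * xi H u s))
      ≤ (Fintype.card I : ℝ)⁻¹ * ∑ s, (v s ^ 2 + δ ^ 2) :=
        mul_le_mul_of_nonneg_left (Finset.sum_le_sum fun s _ => h2 s) (inv_nonneg.mpr hN.le)
    _ = wpsi v + 2 * δ ^ 2 := by
        rw [Finset.sum_add_distrib, Finset.sum_const, Finset.card_univ, Fintype.card_sum, nsmul_eq_mul]
        unfold wpsi
        push_cast
        field_simp
        ring

theorem walk_gain {I : Type} [Fintype I] [Nonempty I] [DecidableEq I] {H : I → I → ℝ} (hH : Had I H)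
    (v : I ⊕ I → ℝ) :
    1 - wpsi v ≤ (∑ j, ∑ i, H j i ^ 2 * ((1 - v (Sum.inl i) ^ 2) * (1 - v (Sum.inr j) ^ 2))) /
        (Fintype.card I : ℝ) := by
  have hN : (0 : ℝ) < Fintype.card I := by exact_mod_cast Fintype.card_pos
  rw [le_div_iff₀ hN]
  have h1 : ∑ j, ∑ i, (1 / (Fintype.card I : ℝ)) * (1 - v (Sum.inl i) ^ 2 - v (Sum.inr j) ^ 2) ≤
      ∑ j, ∑ i, H j i ^ 2 * ((1 - v (Sum.inl i) ^ 2) * (1 - v (Sum.inr j) ^ 2)) := by
    refine Finset.sum_le_sum fun j _ => Finset.sum_le_sum fun i _ => ?_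
    rw [hH.sq j i]
    refine mul_le_mul_of_nonneg_left ?_ (by positivity)
    nlinarith [mul_nonneg (sq_nonneg (v (Sum.inl i))) (sq_nonneg (v (Sum.inr j)))]
  refine le_trans (le_of_eq ?_) h1
  simp only [← Finset.mul_sum, Finset.sum_sub_distrib, Finset.sum_const, Finset.card_univ, nsmul_eq_mul, mul_one]
  unfold wpsi
  rw [Fintype.sum_sum_type]
  field_simp
  ring

theorem walk_it_forr {I : Type} [Fintype I] [Nonempty I] [DecidableEq I] {H : I → I → ℝ} (hH : Had I H) {δ : ℝ}
    (hδ0 : 0 ≤ δ) (hδ : 2 * δ * (Fintype.card I : ℝ) ≤ 1) (t : ℕ) :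
    ∀ v : I ⊕ I → ℝ, (∀ s, |v s| ≤ 1) →
      forr H v + t * δ ^ 2 * (1 - wpsi v) - t * (t - 1) * δ ^ 4 ≤ it H δ t (forr H) v := by
  induction t with
  | zero =>
    intro v _
    show _ ≤ forr H v
    simp
  | succ t ih =>
    intro v hv
    show _ ≤ av (fun u : I → Bool => it H δ t (forr H) (stp H δ v u))
    have h1 : av (fun u : I → Bool => forr H (stp H δ v u) + t * δ ^ 2 * (1 - wpsi (stp H δ v u)) -
        t * (t - 1) * δ ^ 4) ≤ av (fun u : I → Bool => it H δ t (forr H) (stp H δ v u)) :=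
      walk_av_mono fun u => ih _ fun s => stp_dom hH hδ0 hδ v hv u s
    refine le_trans ?_ h1
    have h2 : (fun u : I → Bool => forr H (stp H δ v u) + t * δ ^ 2 * (1 - wpsi (stp H δ v u)) -
        t * (t - 1) * δ ^ 4) = fun u => (forr H (stp H δ v u) + (-(t * δ ^ 2)) * wpsi (stp H δ v u)) +
          (t * δ ^ 2 - t * (t - 1) * δ ^ 4) := by
      funext u; ring
    rw [h2, walk_av_add, walk_av_add, walk_av_mul, walk_av_const, walk_forr_stp]
    have h3 := walk_wpsi_stp hH δ v hv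
    have h4 := walk_gain hH v
    have h5 : (t : ℝ) * δ ^ 2 * av (fun u : I → Bool => wpsi (stp H δ v u)) ≤
        t * δ ^ 2 * (wpsi v + 2 * δ ^ 2) := mul_le_mul_of_nonneg_left h3 (by positivity)
    have h6 := mul_le_mul_of_nonneg_left h4 (sq_nonneg δ)
    push_cast
    nlinarith [h5, h6]

/-- the walk reaches a large forrelation -/
theorem d1_forr {I : Type} [Fintype I] [Nonempty I] [DecidableEq I] {H : I → I → ℝ} (hH : Had I H) {δ : ℝ}
    (hδ0 : 0 ≤ δ) (hδ : 2 * δ * (Fintype.card I : ℝ) ≤ 1) (t : ℕ) :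
    t * δ ^ 2 - (t * δ ^ 2) ^ 2 ≤ ∑ z, d1 H δ t z * forr H (fun s => sg (z s)) := by
  rw [walk_d1_exp]
  simp only [walk_pw_forr]
  have h1 := walk_it_forr hH hδ0 hδ t 0 (fun s => by simp)
  have h2 : forr H (0 : I ⊕ I → ℝ) = 0 := by simp [forr]
  have h3 : wpsi (0 : I ⊕ I → ℝ) = 0 := by simp [wpsi]
  rw [h2, h3] at h1
  refine le_trans ?_ h1
  nlinarith [mul_nonneg (Nat.cast_nonneg (α := ℝ) t) (pow_nonneg hδ0 4)]

theorem walk_it_dist {I : Type} [Fintype I] [Nonempty I] [DecidableEq I] {H : I → I → ℝ} (hH : Had I H) {δ : ℝ}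
    (hδ0 : 0 ≤ δ) (hδ : 2 * δ * (Fintype.card I : ℝ) ≤ 1) (b : ℝ) (Φ : (I ⊕ I → ℝ) → ℝ)
    (h : ∀ v : I ⊕ I → ℝ, (∀ s, |v s| ≤ 1) → |av (fun u : I → Bool => Φ (stp H δ v u)) - Φ v| ≤ b) (t : ℕ) :
    ∀ v : I ⊕ I → ℝ, (∀ s, |v s| ≤ 1) → |it H δ t Φ v - Φ v| ≤ t * b := by
  induction t with
  | zero =>
    intro v _
    show |Φ v - Φ v| ≤ _
    simp
  | succ t ih =>
    intro v hv
    show |av (fun u : I → Bool => it H δ t Φ (stp H δ v u)) - Φ v| ≤ _
    have h1 : ∀ u : I → Bool, |it H δ t Φ (stp H δ v u) - Φ (stp H δ v u)| ≤ t * b :=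
      fun u => ih _ fun s => stp_dom hH hδ0 hδ v hv u s
    have h2 : av (fun u : I → Bool => it H δ t Φ (stp H δ v u)) ≤ av (fun u : I → Bool => Φ (stp H δ v u) + t * b) :=
      walk_av_mono fun u => by have := (abs_le.mp (h1 u)).2; linarith
    have h3 : av (fun u : I → Bool => Φ (stp H δ v u) + (-(t * b))) ≤ av (fun u : I → Bool => it H δ t Φ (stp H δ v u)) :=
      walk_av_mono fun u => by have := (abs_le.mp (h1 u)).1; linarith
    rw [walk_av_add, walk_av_const] at h2 h3
    have h4 := abs_le.mp (h v hv)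
    push_cast
    rw [abs_le]
    constructor <;> linarith [h4.1, h4.2]

/-- `T` bits do not see the difference between `d1` and the uniform law, if one step is not seen -/
theorem d1_dist {I : Type} [Fintype I] [Nonempty I] [DecidableEq I] {H : I → I → ℝ} (hH : Had I H) {δ : ℝ}
    (hδ0 : 0 ≤ δ) (hδ : 2 * δ * (Fintype.card I : ℝ) ≤ 1) (b : ℝ) (C : (I ⊕ I → Bool) → (I ⊕ I → Bool) → ℝ)
    (h : ∀ v : I ⊕ I → ℝ, (∀ s, |v s| ≤ 1) → |av (fun u : I → Bool => Ht C (stp H δ v u)) - Ht C v| ≤ b) (t : ℕ) :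
    |(∑ z, d1 H δ t z * av (fun x : I ⊕ I → Bool => C x (fun s => xor (x s) (z s)))) -
      av (fun z : I ⊕ I → Bool => av (fun x : I ⊕ I → Bool => C x (fun s => xor (x s) (z s))))| ≤ t * b := by
  rw [walk_d1_exp]
  have h1 := walk_it_dist hH hδ0 hδ b (Ht C) h t 0 (fun s => by simp)
  have h2 : Ht C 0 = av (fun z : I ⊕ I → Bool => av (fun x : I ⊕ I → Bool => C x (fun s => xor (x s) (z s)))) := by
    unfold Ht
    simp only [walk_pw_zero]
    rw [← Finset.mul_sum]
    conv_rhs => unfold av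
    rw [one_div, div_eq_inv_mul]
    rfl
  rw [h2] at h1
  exact h1

end

end Pool.Agent.H.MP_dd1c2e_lc.Neg
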