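import Mathlib
import Pool.Agent.H.MP_dd1c2e_lc.neg.Step0
import Pool.Agent.H.MP_dd1c2e_lc.neg.Mix
import Pool.Agent.H.MP_dd1c2e_lc.neg.Walk

/-!
# The base problem

A law on pairs of inputs with large forrelation which is not distinguished from the uniform law by sums of rectangles.
-/

namespace Pool.Agent.H.MP_dd1c2e_lc.Neg

open Finset

noncomputable section

theorem oneCopy_sg_xor (a b : Bool) : sg (xor a b) = sg a * sg b := by
  cases a <;> cases b <;> simp [sg]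

theorem oneCopy_sg_sq (a : Bool) : sg a * sg a = 1 := by
  cases a <;> simp [sg]

/-- the substitution `y = x xor z` -/
theorem oneCopy_swap {S : Type} [Fintype S] [DecidableEq S] (d : (S → Bool) → ℝ) (G : (S → Bool) → (S → Bool) → ℝ) :
    ∑ x : S → Bool, ∑ y : S → Bool, d (fun s => xor (x s) (y s)) / (Fintype.card (S → Bool) : ℝ) * G x y =
      ∑ z : S → Bool, d z * av (fun x : S → Bool => G x (fun s => xor (x s) (z s))) := by
  have h1 : ∀ x : S → Bool, ∑ y : S → Bool, d (fun s => xor (x s) (y s)) / (Fintype.card (S → Bool) : ℝ) * G x y =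
      ∑ z : S → Bool, d z / (Fintype.card (S → Bool) : ℝ) * G x (fun s => xor (x s) (z s)) := by
    intro x
    refine Fintype.sum_bijective (fun y : S → Bool => (fun s => xor (x s) (y s)))
      (Function.Involutive.bijective ?_) _ _ ?_
    · intro y
      funext s
      simp
    · intro y
      simp
  rw [Finset.sum_congr rfl fun x _ => h1 x, Finset.sum_comm]
  refine Finset.sum_congr rfl fun z _ => ?_
  rw [av, Finset.sum_div, Finset.mul_sum]
  refine Finset.sum_congr rfl fun x _ => ?_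
  ring

theorem oneCopy_unif {S : Type} [Fintype S] [DecidableEq S] (G : (S → Bool) → (S → Bool) → ℝ) :
    ∑ x : S → Bool, ∑ y : S → Bool, (1 / (Fintype.card (S → Bool) : ℝ) ^ 2) * G x y =
      av (fun z : S → Bool => av (fun x : S → Bool => G x (fun s => xor (x s) (z s)))) := by
  have h := oneCopy_swap (fun _ : S → Bool => 1 / (Fintype.card (S → Bool) : ℝ)) G
  rw [← Finset.mul_sum] at h
  have h2 : av (fun z : S → Bool => av (fun x : S → Bool => G x (fun s => xor (x s) (z s)))) =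
      1 / (Fintype.card (S → Bool) : ℝ) * ∑ z : S → Bool, av (fun x : S → Bool => G x (fun s => xor (x s) (z s))) := by
    rw [av]
    ring
  rw [h2, ← h]
  refine Finset.sum_congr rfl fun x _ => Finset.sum_congr rfl fun y _ => ?_
  ring

theorem oneCopy_forrB {I : Type} [Fintype I] (H : I → I → ℝ) (x z : I ⊕ I → Bool) :
    forrB H x (fun s => xor (x s) (z s)) = forr H (fun s => sg (z s)) := by
  rw [forrB]
  congr 1
  funext s
  rw [oneCopy_sg_xor, ← mul_assoc, oneCopy_sg_sq, one_mul]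

theorem oneCopy_av_const {α : Type} [Fintype α] [Nonempty α] (c : ℝ) : av (fun _ : α => c) = c := by
  have h : (Fintype.card α : ℝ) ≠ 0 := by
    exact_mod_cast Fintype.card_ne_zero
  rw [av, Finset.sum_const, Finset.card_univ, nsmul_eq_mul]
  field_simp

/-- There is a law `w1` on pairs of inputs with forrelation at least `1/4` on average which `T` bits do not distinguish from
the uniform law. Take `δ = 1/(32 N^7)`, `t = 512 N^14`, `w1 x y = d1 (x xor y) / 2^(2N)`. -/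
theorem one_copy {I : Type} [Fintype I] [Nonempty I] [DecidableEq I] {H : I → I → ℝ} (hH : Had I H) :
    ∃ w1 : (I ⊕ I → Bool) → (I ⊕ I → Bool) → ℝ, (∀ x y, 0 ≤ w1 x y) ∧ ∑ x, ∑ y, w1 x y = 1 ∧
      1 / 4 ≤ ∑ x, ∑ y, w1 x y * forrB H x y ∧
      ∀ (T : ℕ) (C : (I ⊕ I → Bool) → (I ⊕ I → Bool) → ℝ), SumProd _ _ (2 ^ T) C →
        |∑ x, ∑ y, w1 x y * C x y - ∑ x, ∑ y, (1 / (Fintype.card (I ⊕ I → Bool) : ℝ) ^ 2) * C x y| ≤
          5 * ((T : ℝ) + 2) ^ 2 / Real.sqrt (Fintype.card I) := by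
  obtain ⟨N, hN⟩ : ∃ N : ℕ, N = Fintype.card I := ⟨_, rfl⟩
  have hN1 : 1 ≤ N := by
    rw [hN]
    exact Fintype.card_pos
  have hNr : (1 : ℝ) ≤ (N : ℝ) := by exact_mod_cast hN1
  have hN0 : (0 : ℝ) < (N : ℝ) := by linarith
  obtain ⟨δ, hδ⟩ : ∃ δ : ℝ, δ = 1 / (32 * (N : ℝ) ^ 7) := ⟨_, rfl⟩
  obtain ⟨t, ht⟩ : ∃ t : ℕ, t = 512 * N ^ 14 := ⟨_, rfl⟩
  have htr : (t : ℝ) = 512 * (N : ℝ) ^ 14 := by
    rw [ht]
    push_cast
    ring
  have hδ0 : 0 ≤ δ := by
    rw [hδ]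
    positivity
  have hA : 4 * δ * (Fintype.card I : ℝ) ^ 2 = 1 / (8 * (N : ℝ) ^ 5) := by
    rw [← hN, hδ]
    field_simp
    ring
  have hA1 : 4 * δ * (Fintype.card I : ℝ) ^ 2 ≤ 1 := by
    rw [hA, div_le_one (by positivity)]
    have : (1 : ℝ) ≤ (N : ℝ) ^ 5 := one_le_pow₀ hNr
    linarith
  have hB1 : 2 * δ * (Fintype.card I : ℝ) ≤ 1 := by
    refine le_trans ?_ hA1
    rw [← hN]
    have h1 : (N : ℝ) ≤ (N : ℝ) ^ 2 := by nlinarith
    nlinarith
  have htd : (t : ℝ) * δ ^ 2 = 1 / 2 := by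
    rw [htr, hδ]
    field_simp
    norm_num
  refine ⟨fun x y => d1 H δ t (fun s => xor (x s) (y s)) / (Fintype.card (I ⊕ I → Bool) : ℝ), ?_, ?_, ?_, ?_⟩
  · intro x y
    exact div_nonneg (d1_nonneg hH hδ0 hB1 t _) (by positivity)
  · have h := oneCopy_swap (d1 H δ t) (fun _ _ => 1)
    simp only [mul_one] at h
    refine h.trans (Eq.trans ?_ (d1_sum H δ t))
    refine Finset.sum_congr rfl fun z _ => ?_
    rw [oneCopy_av_const, mul_one]
  · rw [oneCopy_swap (d1 H δ t) (forrB H)]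
    have h := d1_forr hH hδ0 hB1 t
    rw [htd] at h
    have h2 : ∑ z : I ⊕ I → Bool, d1 H δ t z * av (fun x : I ⊕ I → Bool => forrB H x (fun s => xor (x s) (z s))) =
        ∑ z, d1 H δ t z * forr H (fun s => sg (z s)) := by
      refine Finset.sum_congr rfl fun z _ => ?_
      simp_rw [oneCopy_forrB]
      rw [oneCopy_av_const]
    rw [h2]
    linarith
  · intro T C hC
    rw [oneCopy_swap (d1 H δ t) C, oneCopy_unif C]
    obtain ⟨b, hb⟩ : ∃ b : ℝ, b = 8 * δ ^ 2 * ((T : ℝ) + 2) ^ 2 / Real.sqrt (Fintype.card I) +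
      (4 * δ * (Fintype.card I : ℝ) ^ 2) ^ 3 := ⟨_, rfl⟩
    have h := d1_dist hH hδ0 hB1 b C (fun v hv => step_any δ b (2 ^ T)
      (fun C' hC' η hη => hb ▸ step_zero hH T hC' hδ0 hA1 η hη) hδ0 hC v hv) t
    refine h.trans ?_
    have hs0 : 0 < Real.sqrt (N : ℝ) := Real.sqrt_pos.2 hN0
    have hs1 : Real.sqrt (N : ℝ) ≤ (N : ℝ) := by
      rw [Real.sqrt_le_left hN0.le]
      nlinarith
    have e1 : (t : ℝ) * b = 4 * ((T : ℝ) + 2) ^ 2 / Real.sqrt (N : ℝ) + 1 / (N : ℝ) := by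
      have e2 : (t : ℝ) * b = 8 * ((t : ℝ) * δ ^ 2) * ((T : ℝ) + 2) ^ 2 / Real.sqrt (N : ℝ) +
          (t : ℝ) * (1 / (8 * (N : ℝ) ^ 5)) ^ 3 := by
        rw [hb, hA, ← hN]
        ring
      have e3 : (t : ℝ) * (1 / (8 * (N : ℝ) ^ 5)) ^ 3 = 1 / (N : ℝ) := by
        rw [htr]
        field_simp
        norm_num
      rw [e2, e3, htd]
      ring
    rw [e1, ← hN]
    have hT : (1 : ℝ) ≤ ((T : ℝ) + 2) ^ 2 := by
      have : (0 : ℝ) ≤ (T : ℝ) := Nat.cast_nonneg T
      nlinarith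
    have e4 : 1 / (N : ℝ) ≤ ((T : ℝ) + 2) ^ 2 / Real.sqrt (N : ℝ) :=
      div_le_div₀ (by positivity) hT hs0 hs1
    have e5 : 5 * ((T : ℝ) + 2) ^ 2 / Real.sqrt (N : ℝ) =
        4 * ((T : ℝ) + 2) ^ 2 / Real.sqrt (N : ℝ) + ((T : ℝ) + 2) ^ 2 / Real.sqrt (N : ℝ) := by
      ring
    rw [e5]
    linarith

theorem forrB_unif {I : Type} [Fintype I] [Nonempty I] [DecidableEq I] (H : I → I → ℝ) :
    ∑ x : I ⊕ I → Bool, ∑ y : I ⊕ I → Bool, (1 / (Fintype.card (I ⊕ I → Bool) : ℝ) ^ 2) * forrB H x y = 0 := by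
  have h1 : ∀ x y : I ⊕ I → Bool, forrB H (fun s => xor (x s) (s.isLeft)) y = - forrB H x y := by
    intro x y
    rw [forrB, forrB, forr, forr, ← neg_div]
    congr 1
    rw [← Finset.sum_neg_distrib]
    refine Finset.sum_congr rfl fun j _ => ?_
    rw [← Finset.sum_neg_distrib]
    refine Finset.sum_congr rfl fun i _ => ?_
    have e1 : sg (xor (x (Sum.inl i)) ((Sum.inl i : I ⊕ I).isLeft)) = - sg (x (Sum.inl i)) := by
      rw [oneCopy_sg_xor]
      simp [sg]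
    have e2 : sg (xor (x (Sum.inr j)) ((Sum.inr j : I ⊕ I).isLeft)) = sg (x (Sum.inr j)) := by
      rw [oneCopy_sg_xor]
      simp [sg]
    rw [e1, e2]
    ring
  have h2 : ∑ x : I ⊕ I → Bool, ∑ y : I ⊕ I → Bool, (1 / (Fintype.card (I ⊕ I → Bool) : ℝ) ^ 2) * forrB H x y =
      ∑ x : I ⊕ I → Bool, ∑ y : I ⊕ I → Bool, (1 / (Fintype.card (I ⊕ I → Bool) : ℝ) ^ 2) *
        forrB H (fun s => xor (x s) (s.isLeft)) y := by
    refine (Fintype.sum_bijective (fun x : I ⊕ I → Bool => (fun s : I ⊕ I => xor (x s) (s.isLeft)))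
      (Function.Involutive.bijective ?_) _ _ ?_).symm
    · intro x
      funext s
      simp
    · intro x
      rfl
  simp_rw [h1, mul_neg, Finset.sum_neg_distrib] at h2
  linarith

theorem abs_forrB {I : Type} [Fintype I] [Nonempty I] [DecidableEq I] {H : I → I → ℝ} (hH : Had I H)
    (x y : I ⊕ I → Bool) : |forrB H x y| ≤ 1 := by
  have hN0 : (0 : ℝ) < (Fintype.card I : ℝ) := by
    exact_mod_cast Fintype.card_pos
  obtain ⟨a, ha⟩ : ∃ a : I → ℝ, a = fun i => sg (x (Sum.inl i)) * sg (y (Sum.inl i)) := ⟨_, rfl⟩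
  obtain ⟨b, hb⟩ : ∃ b : I → ℝ, b = fun i => sg (x (Sum.inr i)) * sg (y (Sum.inr i)) := ⟨_, rfl⟩
  have ha2 : ∀ i, a i * a i = 1 := by
    intro i
    rw [ha]
    have h1 := oneCopy_sg_sq (x (Sum.inl i))
    have h2 := oneCopy_sg_sq (y (Sum.inl i))
    calc sg (x (Sum.inl i)) * sg (y (Sum.inl i)) * (sg (x (Sum.inl i)) * sg (y (Sum.inl i)))
        = (sg (x (Sum.inl i)) * sg (x (Sum.inl i))) * (sg (y (Sum.inl i)) * sg (y (Sum.inl i))) := by ring
      _ = 1 := by rw [h1, h2, one_mul]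
  have hb2 : ∀ i, b i ^ 2 = 1 := by
    intro i
    rw [hb]
    have h1 := oneCopy_sg_sq (x (Sum.inr i))
    have h2 := oneCopy_sg_sq (y (Sum.inr i))
    calc (sg (x (Sum.inr i)) * sg (y (Sum.inr i))) ^ 2
        = (sg (x (Sum.inr i)) * sg (x (Sum.inr i))) * (sg (y (Sum.inr i)) * sg (y (Sum.inr i))) := by ring
      _ = 1 := by rw [h1, h2, one_mul]
  have e1 : forrB H x y = (∑ j, b j * ∑ i, H j i * a i) / (Fintype.card I : ℝ) := by
    rw [forrB, forr]
    congr 1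
    refine Finset.sum_congr rfl fun j _ => ?_
    rw [Finset.mul_sum]
    refine Finset.sum_congr rfl fun i _ => ?_
    rw [ha, hb]
    ring
  have e2 : ∑ j, (∑ i, H j i * a i) ^ 2 = (Fintype.card I : ℝ) := by
    have : ∀ j, (∑ i, H j i * a i) ^ 2 = ∑ i, ∑ i', a i * a i' * (H j i * H j i') := by
      intro j
      rw [sq, Finset.sum_mul_sum]
      refine Finset.sum_congr rfl fun i _ => Finset.sum_congr rfl fun i' _ => ?_
      ring
    rw [Finset.sum_congr rfl fun j _ => this j, Finset.sum_comm]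
    have e3 : ∀ i, ∑ j, ∑ i', a i * a i' * (H j i * H j i') = 1 := by
      intro i
      rw [Finset.sum_comm]
      have e4 : ∀ i', ∑ j, a i * a i' * (H j i * H j i') = a i * a i' * (if i = i' then 1 else 0) := by
        intro i'
        rw [← Finset.mul_sum, hH.col]
      rw [Finset.sum_congr rfl fun i' _ => e4 i']
      simp [ha2]
    rw [Finset.sum_congr rfl fun i _ => e3 i]
    simp
  have e5 : (∑ j, b j * ∑ i, H j i * a i) ^ 2 ≤ (Fintype.card I : ℝ) ^ 2 := by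
    refine (Finset.sum_mul_sq_le_sq_mul_sq _ _ _).trans ?_
    rw [e2, Finset.sum_congr rfl fun j _ => hb2 j]
    simp
    nlinarith
  rw [e1, abs_div, abs_of_pos hN0, div_le_one hN0]
  exact abs_le_of_sq_le_sq e5 hN0.le

end

end Pool.Agent.H.MP_dd1c2e_lc.Neg
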