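import Mathlib
import Pool.Agent.H.MP_dd1c2e_lc.neg.Base
import Pool.Agent.H.MP_dd1c2e_lc.neg.CertD

/-!
# The parameters
-/

namespace Pool.Agent.H.MP_dd1c2e_lc.Neg

open Finset

/-- number of bits of an input of one party -/
def nb (a c k L : ℕ) : ℕ := c * k * (2 * 2 ^ a) + 2 ^ c * (c * k * (2 ^ a * 2 ^ a)) * (c * k * (2 ^ a * 2 ^ a)) * L

theorem par_pow {m n : ℕ} (h : m = n) : 2 ^ m = 2 ^ n := by rw [h]

theorem par_card (a c k P L : ℕ) [NeZero P] (hL : P ≤ 2 ^ L) :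
    Nat.card ((Fin c × Fin k → (Fin a → Bool) ⊕ (Fin a → Bool) → Bool) ×
      ((Fin c → Bool) → QI c k (Fin a → Bool) → QI c k (Fin a → Bool) → ZMod P)) ≤ 2 ^ nb a c k L := by
  have h1 : Nat.card (QI c k (Fin a → Bool)) = c * k * (2 ^ a * 2 ^ a) := by
    simp [QI]
  have h2 : Nat.card (QI c k (Fin a → Bool) → ZMod P) = P ^ (c * k * (2 ^ a * 2 ^ a)) := by
    rw [Nat.card_fun, h1, Nat.card_zmod]
  have h3 : Nat.card (QI c k (Fin a → Bool) → QI c k (Fin a → Bool) → ZMod P) =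
      (P ^ (c * k * (2 ^ a * 2 ^ a))) ^ (c * k * (2 ^ a * 2 ^ a)) := by
    rw [Nat.card_fun, h1, h2]
  have h4 : Nat.card ((Fin c → Bool) → QI c k (Fin a → Bool) → QI c k (Fin a → Bool) → ZMod P) =
      ((P ^ (c * k * (2 ^ a * 2 ^ a))) ^ (c * k * (2 ^ a * 2 ^ a))) ^ (2 ^ c) := by
    rw [Nat.card_fun, h3]
    congr 1
    simp
  have h5 : Nat.card (Fin c × Fin k → (Fin a → Bool) ⊕ (Fin a → Bool) → Bool) = 2 ^ (c * k * (2 * 2 ^ a)) := by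
    have h6 : Nat.card ((Fin a → Bool) ⊕ (Fin a → Bool) → Bool) = 2 ^ (2 * 2 ^ a) := by
      rw [Nat.card_fun, Nat.card_sum]
      simp [two_mul]
    rw [Nat.card_fun, h6, ← pow_mul]
    simp [mul_comm]
  rw [Nat.card_prod, h4, h5]
  have h7 : 2 ^ nb a c k L = 2 ^ (c * k * (2 * 2 ^ a)) *
      2 ^ (2 ^ c * (c * k * (2 ^ a * 2 ^ a)) * (c * k * (2 ^ a * 2 ^ a)) * L) := by
    rw [← pow_add, nb]
  rw [h7]
  refine Nat.mul_le_mul le_rfl ?_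
  calc ((P ^ (c * k * (2 ^ a * 2 ^ a))) ^ (c * k * (2 ^ a * 2 ^ a))) ^ 2 ^ c
      ≤ (((2 ^ L) ^ (c * k * (2 ^ a * 2 ^ a))) ^ (c * k * (2 ^ a * 2 ^ a))) ^ 2 ^ c :=
        Nat.pow_le_pow_left (Nat.pow_le_pow_left (Nat.pow_le_pow_left hL _) _) _
    _ = 2 ^ (L * (c * k * (2 ^ a * 2 ^ a) * (c * k * (2 ^ a * 2 ^ a) * 2 ^ c))) := by
        rw [← pow_mul, ← pow_mul, ← pow_mul]
    _ = _ := par_pow (by ring)

theorem par_sq (b : ℕ) : b ^ 2 ≤ 2 ^ (2 * b) := by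
  rw [mul_comm, pow_mul]
  exact Nat.pow_le_pow_left (Nat.lt_two_pow_self).le 2

theorem params (b : ℕ) (hb : 1 ≤ b) : ∃ a c k P L : ℕ, P.Prime ∧ 1 ≤ c ∧ 14400 * c ≤ k ∧ 2 * (k * (2 ^ a) ^ 2) < P ∧
    6 * (c * k * (2 ^ a) ^ 2) ≤ P ∧ P ≤ 2 ^ L ∧ 10000 * (2 ^ b + 1) ≤ 2 ^ c ∧
    (500 : ℝ) * (c * k) * (((2 ^ b : ℕ) : ℝ) + 2) ^ 2 ≤ Real.sqrt (2 ^ a) ∧ 100 * 2 ^ c ≤ P ∧
    c * k * (a + 1) + (c + (4 + c) * L) + 2 ≤ 400000000 * b ^ 3 ∧ nb a c k L ≤ 2 ^ (400000000 * b) := by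
  have hb2 : b ≤ 2 ^ b := (Nat.lt_two_pow_self).le
  have h15 : b + 15 ≤ 16 * b := by omega
  obtain ⟨a, ha⟩ : ∃ a, a = 8 * b + 80 := ⟨_, rfl⟩
  obtain ⟨c, hc⟩ : ∃ c, c = b + 15 := ⟨_, rfl⟩
  obtain ⟨k, hk⟩ : ∃ k, k = 14400 * c := ⟨_, rfl⟩
  obtain ⟨X, hX⟩ : ∃ X, X = 6 * (c * k * (2 ^ a) ^ 2) := ⟨_, rfl⟩
  have hc1 : 1 ≤ c := by omega
  have hk1 : 1 ≤ k := by omega
  have h2a1 : 1 ≤ 2 ^ a := Nat.one_le_two_pow
  have hXpos : X ≠ 0 := by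
    rw [hX]
    positivity
  obtain ⟨P, hP, hXP, hPX⟩ := Nat.exists_prime_lt_and_le_two_mul X hXpos
  have hc16 : c ≤ 16 * b := hc ▸ h15
  have hck : c * k ≤ 14400 * 256 * b ^ 2 := by
    calc c * k = 14400 * (c * c) := by rw [hk]; ring
      _ ≤ 14400 * ((16 * b) * (16 * b)) := by gcongr
      _ = _ := by ring
  have hb2' : b ^ 2 ≤ 2 ^ (2 * b) := par_sq b
  have h2a : (2 ^ a) ^ 2 = 2 ^ (16 * b + 160) := by
    rw [← pow_mul]
    exact par_pow (by omega)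
  have hck2 : c * k ≤ 2 ^ (2 * b + 22) := by
    calc c * k ≤ 14400 * 256 * b ^ 2 := hck
      _ ≤ 2 ^ 22 * 2 ^ (2 * b) := Nat.mul_le_mul (by norm_num) hb2'
      _ = _ := by rw [← pow_add]; exact par_pow (by omega)
  have hXL : 2 * X ≤ 2 ^ (18 * b + 186) := by
    calc 2 * X = 12 * (c * k) * (2 ^ a) ^ 2 := by rw [hX]; ring
      _ ≤ 2 ^ 4 * 2 ^ (2 * b + 22) * 2 ^ (16 * b + 160) := by
          rw [h2a]
          exact Nat.mul_le_mul_right _ (Nat.mul_le_mul (by norm_num) hck2)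
      _ = _ := by rw [← pow_add, ← pow_add]; exact par_pow (by omega)
  refine ⟨a, c, k, P, 18 * b + 186, hP, hc1, hk.ge, ?_, ?_, hPX.trans hXL, ?_, ?_, ?_, ?_, ?_⟩
  · refine lt_of_le_of_lt ?_ hXP
    rw [hX]
    calc 2 * (k * (2 ^ a) ^ 2) ≤ 6 * (1 * k * (2 ^ a) ^ 2) := by
          rw [one_mul]
          exact Nat.mul_le_mul_right _ (by norm_num)
      _ ≤ _ := by gcongr
  · rw [← hX]
    exact hXP.le
  · rw [hc, pow_add]
    have h1 : 1 ≤ 2 ^ b := Nat.one_le_two_pow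
    have h2 : (2 : ℕ) ^ 15 = 32768 := by norm_num
    rw [h2]
    omega
  · have h1 : (2 : ℝ) ^ (4 * b + 40) ≤ Real.sqrt (2 ^ a) := by
      apply Real.le_sqrt_of_sq_le
      rw [← pow_mul]
      have : (4 * b + 40) * 2 = a := by omega
      rw [this]
    refine le_trans ?_ h1
    have h2 : (500 : ℝ) * (c * k) * (((2 ^ b : ℕ) : ℝ) + 2) ^ 2 = ((500 * (c * k) * (2 ^ b + 2) ^ 2 : ℕ) : ℝ) := by
      push_cast
      ring
    have h3 : (2 : ℝ) ^ (4 * b + 40) = ((2 ^ (4 * b + 40) : ℕ) : ℝ) := by push_cast; ring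
    rw [h2, h3]
    apply Nat.cast_le.mpr
    have h4 : 2 ^ b + 2 ≤ 2 ^ (b + 1) := by
      rw [pow_succ]
      have : 2 ≤ 2 ^ b := by
        calc 2 = 2 ^ 1 := by norm_num
          _ ≤ 2 ^ b := Nat.pow_le_pow_right (by norm_num) hb
      omega
    calc 500 * (c * k) * (2 ^ b + 2) ^ 2 ≤ 2 ^ 9 * 2 ^ (2 * b + 22) * (2 ^ (b + 1)) ^ 2 :=
          Nat.mul_le_mul (Nat.mul_le_mul (by norm_num) hck2) (Nat.pow_le_pow_left h4 2)
      _ = 2 ^ (4 * b + 33) := by rw [← pow_mul, ← pow_add, ← pow_add]; exact par_pow (by omega)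
      _ ≤ 2 ^ (4 * b + 40) := Nat.pow_le_pow_right (by norm_num) (by omega)
  · refine le_trans ?_ hXP.le
    rw [hX, h2a]
    have h1 : 1 ≤ c * k := Nat.one_le_iff_ne_zero.mpr (by positivity)
    calc 100 * 2 ^ c ≤ 2 ^ 7 * 2 ^ (b + 15) := by
          rw [hc]
          exact Nat.mul_le_mul_right _ (by norm_num)
      _ = 2 ^ (b + 22) := by rw [← pow_add]; exact par_pow (by omega)
      _ ≤ 2 ^ (16 * b + 160) := Nat.pow_le_pow_right (by norm_num) (by omega)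
      _ ≤ 6 * (c * k * 2 ^ (16 * b + 160)) := by
          calc 2 ^ (16 * b + 160) = 1 * (1 * 2 ^ (16 * b + 160)) := by rw [one_mul, one_mul]
            _ ≤ _ := Nat.mul_le_mul (by norm_num) (Nat.mul_le_mul_right _ h1)
  · have h1 : c * k * (a + 1) ≤ 14400 * 256 * b ^ 2 * (89 * b) := Nat.mul_le_mul hck (by omega)
    have h2 : (4 + c) * (18 * b + 186) ≤ (20 * b) * (204 * b) := Nat.mul_le_mul (by omega) (by omega)
    have h3 : b ≤ b ^ 3 := Nat.le_self_pow (by norm_num) b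
    have h4 : b ^ 2 ≤ b ^ 3 := Nat.pow_le_pow_right hb (by norm_num)
    have h5 : 14400 * 256 * b ^ 2 * (89 * b) = 328089600 * b ^ 3 := by ring
    have h6 : (20 * b) * (204 * b) = 4080 * b ^ 2 := by ring
    rw [h5] at h1
    rw [h6] at h2
    omega
  · rw [nb]
    have e1 : 2 ^ a * 2 ^ a = 2 ^ (16 * b + 160) := by rw [← h2a]; ring
    rw [e1]
    have hL : 18 * b + 186 ≤ 2 ^ (b + 8) := by
      rw [pow_add]
      have h2 : (2 : ℕ) ^ 8 = 256 := by norm_num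
      have h1 : 1 ≤ 2 ^ b := Nat.one_le_two_pow
      rw [h2]
      omega
    have hA : c * k * (2 * 2 ^ a) ≤ 2 ^ (10 * b + 103) := by
      calc c * k * (2 * 2 ^ a) ≤ 2 ^ (2 * b + 22) * (2 * 2 ^ a) := Nat.mul_le_mul_right _ hck2
        _ = 2 ^ (10 * b + 103) := by rw [← pow_succ', ← pow_add]; exact par_pow (by omega)
    have hB : 2 ^ c * (c * k * 2 ^ (16 * b + 160)) * (c * k * 2 ^ (16 * b + 160)) * (18 * b + 186) ≤
        2 ^ (38 * b + 387) := by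
      calc 2 ^ c * (c * k * 2 ^ (16 * b + 160)) * (c * k * 2 ^ (16 * b + 160)) * (18 * b + 186)
          ≤ 2 ^ c * (2 ^ (2 * b + 22) * 2 ^ (16 * b + 160)) * (2 ^ (2 * b + 22) * 2 ^ (16 * b + 160)) *
            2 ^ (b + 8) :=
            Nat.mul_le_mul (Nat.mul_le_mul (Nat.mul_le_mul_left _ (Nat.mul_le_mul_right _ hck2))
              (Nat.mul_le_mul_right _ hck2)) hL
        _ = 2 ^ (38 * b + 387) := by
            rw [← pow_add, ← pow_add, ← pow_add, ← pow_add]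
            exact par_pow (by omega)
    calc c * k * (2 * 2 ^ a) + 2 ^ c * (c * k * 2 ^ (16 * b + 160)) * (c * k * 2 ^ (16 * b + 160)) * (18 * b + 186)
        ≤ 2 ^ (10 * b + 103) + 2 ^ (38 * b + 387) := Nat.add_le_add hA hB
      _ ≤ 2 ^ (38 * b + 387) + 2 ^ (38 * b + 387) :=
          Nat.add_le_add_right (Nat.pow_le_pow_right (by norm_num) (by omega)) _
      _ = 2 ^ (38 * b + 388) := by rw [← two_mul, ← pow_succ']
      _ ≤ 2 ^ (400000000 * b) := Nat.pow_le_pow_right (by norm_num) (by omega)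

end Pool.Agent.H.MP_dd1c2e_lc.Neg
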