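import Pool.Agent.H.MP_dd1c2e_lc.neg.QOne
import Pool.Agent.H.MP_dd1c2e_lc.pdt.Comp

/-!
# LOGEQ, module 9, second part: comparison of the models
-/

set_option autoImplicit false

namespace Pool.Agent.H.MP_dd1c2e_lc.Neg

open Finset

theorem Reach0.toReach {X Y : Type} {q : ℕ} {A : Type} [Fintype A] {B : Type} [Fintype B] {ψ : X → Y → A → B → ℂ}
    (h : Reach0 X Y q A B ψ) : Reach X Y q A B ψ := by
  induction h with
  | start => exact Reach.start Unit Unit (fun _ _ => 1) (by simp)
  | alice A' V hV _ ih => exact Reach.alice A' V hV ih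
  | bob B' W hW _ ih => exact Reach.bob B' W hW ih

theorem Q0_to_Q {X Y : Type} {F : X → Y → Bool} {q : ℕ} (h : QuantumComputes0 F q) : QuantumComputes F q := by
  obtain ⟨A, i1, B, i2, ψ, h0, h1⟩ := h
  exact ⟨A, i1, B, i2, ψ, h0.toReach, h1⟩

theorem rand_comap {X Y X' Y' : Type} {F : X → Y → Bool} {k : ℕ} (h : Alt.RandComputes F k) (f : X' → X) (g : Y' → Y) :
    Alt.RandComputes (fun x y => F (f x) (g y)) k := by
  obtain ⟨r, P, hP, hF⟩ := h
  choose Q hQ1 hQ2 using fun ω => comp_comap f g (P ω)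
  refine ⟨r, Q, fun ω => ?_, fun x y => ?_⟩
  · rw [hQ1]
    exact hP ω
  · have h1 : (univ.filter fun ω => (Q ω).run x y = F (f x) (g y)) =
        univ.filter fun ω => (P ω).run (f x) (g y) = F (f x) (g y) := by
      apply Finset.filter_congr
      intro ω _
      rw [hQ2 ω x y]
    rw [h1]
    exact hF (f x) (g y)

end Pool.Agent.H.MP_dd1c2e_lc.Neg
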